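import Pool.Agent.H974R3.Value

/-! Two-sided bounds for `pval` from polynomial a priori bounds. -/

namespace Pool.Agent.H988R3
open Pool.Agent.H974R3 Pool.Agent.H974R3.Value

namespace V4

theorem rr_lower (x : ℝ) (hx : 0 ≤ x) :
    (2 * x + 3) ^ 2 + 1 ≤ rr x * (2 * x + 3) ^ 2 := by
  set M : ℝ := (2 * x + 3) ^ 2 with hM
  have hM9 : 9 ≤ M := by rw [hM]; nlinarith
  have hrr : rr x = 256 * M ^ 4 * ((9 * M - 4) * (9 * M - 16)) /
      ((9 * M - 1) ^ 2 * ((4 * M - 1) ^ 3 * (4 * M - 9))) := by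
    have hpos : (0 : ℝ) < (9 * M - 1) ^ 2 * ((4 * M - 1) ^ 3 * (4 * M - 9)) := by
      have a1 : 0 < 9 * M - 1 := by linarith
      have a2 : 0 < 4 * M - 1 := by linarith
      have a3 : 0 < 4 * M - 9 := by linarith
      positivity
    unfold rr
    rw [div_eq_div_iff (by positivity) hpos.ne', hM]
    ring
  have a1 : 0 < 9 * M - 1 := by linarith
  have a2 : 0 < 4 * M - 1 := by linarith
  have a3 : 0 < 4 * M - 9 := by linarith
  rw [hrr, div_mul_eq_mul_div, le_div_iff₀ (by positivity)]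
  obtain ⟨t, ht⟩ : ∃ t : ℝ, t = M - 9 := ⟨_, rfl⟩
  have ht0 : 0 ≤ t := by linarith
  have hMt : M = t + 9 := by linarith
  rw [hMt]
  have e : 256 * (t + 9) ^ 4 * ((9 * (t + 9) - 4) * (9 * (t + 9) - 16)) * (t + 9) -
      (t + 9 + 1) * ((9 * (t + 9) - 1) ^ 2 * ((4 * (t + 9) - 1) ^ 3 * (4 * (t + 9) - 9))) ≥ 0 := by
    ring_nf
    positivity
  linarith

theorem rr_ratio (x : ℝ) (hx : 0 ≤ x) :
    (2 * x + 3) ^ 2 * ((2 * x + 1) * (2 * x + 3) - 1) ≤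
      rr x ^ 4 * ((2 * x + 1) ^ 2 * ((2 * x + 3) * (2 * x + 5) - 1)) := by
  have h1 := rr_lower x hx
  set M : ℝ := (2 * x + 3) ^ 2 with hM
  have hM9 : 9 ≤ M := by rw [hM]; nlinarith
  have hr0 : 0 ≤ rr x := by unfold rr; positivity
  have h2 : (M + 1) ^ 4 ≤ (rr x * M) ^ 4 := pow_le_pow_left₀ (by linarith) h1 4
  have hB : 0 ≤ (2 * x + 1) ^ 2 * ((2 * x + 3) * (2 * x + 5) - 1) := by
    have : 0 ≤ (2 * x + 3) * (2 * x + 5) - 1 := by nlinarith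
    positivity
  have h3 : M ^ 4 * (M * ((2 * x + 1) * (2 * x + 3) - 1)) ≤
      (M + 1) ^ 4 * ((2 * x + 1) ^ 2 * ((2 * x + 3) * (2 * x + 5) - 1)) := by
    have e : (M + 1) ^ 4 * ((2 * x + 1) ^ 2 * ((2 * x + 3) * (2 * x + 5) - 1)) -
        M ^ 4 * (M * ((2 * x + 1) * (2 * x + 3) - 1)) ≥ 0 := by
      rw [hM]
      ring_nf
      positivity
    linarith
  have h4 : M ^ 4 * (M * ((2 * x + 1) * (2 * x + 3) - 1)) ≤
      M ^ 4 * (rr x ^ 4 * ((2 * x + 1) ^ 2 * ((2 * x + 3) * (2 * x + 5) - 1))) := by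
    calc M ^ 4 * (M * ((2 * x + 1) * (2 * x + 3) - 1)) ≤
        (M + 1) ^ 4 * ((2 * x + 1) ^ 2 * ((2 * x + 3) * (2 * x + 5) - 1)) := h3
      _ ≤ (rr x * M) ^ 4 * ((2 * x + 1) ^ 2 * ((2 * x + 3) * (2 * x + 5) - 1)) :=
          mul_le_mul_of_nonneg_right h2 hB
      _ = _ := by ring
  exact le_of_mul_le_mul_left h4 (by positivity)

/-- the corrected ratio -/
noncomputable def uu (n : ℕ) : ℝ :=
  tt n * (((2 * (n : ℝ) + 1) * (2 * n + 3) - 1) / ((2 * (n : ℝ) + 1) * (2 * n + 3)))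

theorem tt_pos (n : ℕ) : 0 < tt n := by
  unfold tt
  have := rho_pos n
  positivity

theorem tt_succ (n : ℕ) : tt (n + 1) * (2 * (n : ℝ) + 3) ^ 2 =
    tt n * (rr n ^ 4 * ((2 * (n : ℝ) + 5) * (2 * n + 1))) := by
  unfold tt
  rw [rho_succ]
  push_cast
  field_simp
  ring

theorem uu_succ (n : ℕ) : uu n ≤ uu (n + 1) := by
  have h1 := rr_ratio (n : ℝ) (Nat.cast_nonneg n)
  have h2 := tt_succ n
  have h3 := tt_pos n
  have hn : (0 : ℝ) ≤ n := Nat.cast_nonneg n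
  have e1 : tt (n + 1) = tt n * (rr n ^ 4 * ((2 * (n : ℝ) + 5) * (2 * n + 1))) /
      (2 * (n : ℝ) + 3) ^ 2 := by
    rw [eq_div_iff (by positivity), h2]
  unfold uu
  rw [e1]
  push_cast
  have e2 : tt n * (rr n ^ 4 * ((2 * (n : ℝ) + 5) * (2 * n + 1))) / (2 * (n : ℝ) + 3) ^ 2 *
      (((2 * ((n : ℝ) + 1) + 1) * (2 * ((n : ℝ) + 1) + 3) - 1) /
        ((2 * ((n : ℝ) + 1) + 1) * (2 * ((n : ℝ) + 1) + 3))) =
      tt n * ((rr n ^ 4 * ((2 * (n : ℝ) + 1) ^ 2 * ((2 * n + 3) * (2 * n + 5) - 1))) /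
        ((2 * (n : ℝ) + 1) * (2 * (n : ℝ) + 3) ^ 3)) := by
    have f1 : (2 * ((n : ℝ) + 1) + 1) = 2 * n + 3 := by ring
    have f2 : (2 * ((n : ℝ) + 1) + 3) = 2 * n + 5 := by ring
    rw [f1, f2]
    field_simp
  rw [e2]
  apply mul_le_mul_of_nonneg_left _ h3.le
  rw [div_le_div_iff₀ (by positivity) (by positivity)]
  have h4 := mul_le_mul_of_nonneg_right h1 (by positivity : (0 : ℝ) ≤ (2 * n + 1) * (2 * n + 3))
  nlinarith

theorem uu_mono : Monotone uu := monotone_nat_of_le_succ uu_succ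

theorem uu_le_tt (n : ℕ) : uu n ≤ tt n := by
  unfold uu
  apply mul_le_of_le_one_right (tt_pos n).le
  rw [div_le_one (by positivity)]
  linarith

/-- `pval^4 (2n+1)` -/
noncomputable def ww (n : ℕ) : ℝ := pval n ^ 4 * (2 * (n : ℝ) + 1)

theorem ww_succ (n : ℕ) : ww (n + 1) = ww n * tt n := by
  unfold ww tt
  rw [pval_succ]
  push_cast
  field_simp
  ring

theorem ww_pos (n : ℕ) : 0 < ww n := by
  unfold ww
  have := pval_pos n
  positivity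

theorem uu_le_one (h : ∀ n : ℕ, pval n ≤ 1) (k : ℕ) : uu k ≤ 1 := by
  by_contra hk
  rw [not_le] at hk
  obtain ⟨T, hT⟩ : ∃ T, T = uu k := ⟨_, rfl⟩
  rw [← hT] at hk
  have h1 : ∀ j : ℕ, T ^ j * ww k ≤ ww (k + j) := by
    intro j
    induction j with
    | zero => simp
    | succ j ih =>
      rw [← add_assoc, ww_succ]
      have h2 : T ≤ tt (k + j) := by
        rw [hT]
        exact (uu_mono (Nat.le_add_right k j)).trans (uu_le_tt _)
      calc T ^ (j + 1) * ww k = (T ^ j * ww k) * T := by ring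
        _ ≤ ww (k + j) * tt (k + j) :=
          mul_le_mul ih h2 (by linarith) (ww_pos _).le
  have h2 : ∀ j : ℕ, T ^ j * ww k ≤ (2 * (k : ℝ) + 1) + 2 * j := by
    intro j
    refine (h1 j).trans ?_
    unfold ww
    have h3 : pval (k + j) ^ 4 ≤ 1 := pow_le_one₀ (pval_pos _).le (h _)
    have h4 : (0 : ℝ) ≤ 2 * ((k + j : ℕ) : ℝ) + 1 := by positivity
    calc pval (k + j) ^ 4 * (2 * ((k + j : ℕ) : ℝ) + 1) ≤ 1 * (2 * ((k + j : ℕ) : ℝ) + 1) :=
          mul_le_mul_of_nonneg_right h3 h4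
      _ = _ := by push_cast; ring
  -- contradiction
  have hT1 : 1 < T := hk
  have hlim : Filter.Tendsto (fun j : ℕ => ((2 * (k : ℝ) + 1) + 2 * (j : ℝ)) / T ^ j)
      Filter.atTop (nhds 0) := by
    have l1 : Filter.Tendsto (fun j : ℕ => (j : ℝ) * (T⁻¹) ^ j) Filter.atTop (nhds 0) := by
      apply tendsto_self_mul_const_pow_of_lt_one (by positivity)
      exact inv_lt_one_of_one_lt₀ hT1
    have l2 : Filter.Tendsto (fun j : ℕ => (T⁻¹) ^ j) Filter.atTop (nhds 0) :=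
      tendsto_pow_atTop_nhds_zero_of_lt_one (by positivity) (inv_lt_one_of_one_lt₀ hT1)
    have l3 := (l2.const_mul (2 * (k : ℝ) + 1)).add (l1.const_mul 2)
    simp only [mul_zero, add_zero] at l3
    refine l3.congr fun j => ?_
    rw [inv_pow, div_eq_mul_inv]
    ring
  have hw := ww_pos k
  have h6 := hlim.eventually (gt_mem_nhds hw)
  obtain ⟨j, hj⟩ := h6.exists
  have hTj : 0 < T ^ j := by positivity
  rw [div_lt_iff₀ hTj] at hj
  have := h2 j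
  linarith [mul_comm (ww k) (T ^ j)]

theorem tt_upper (h : ∀ n : ℕ, pval n ≤ 1) (n : ℕ) :
    tt n * ((2 * (n : ℝ) + 1) * (n + 2)) ≤ ((n : ℝ) + 1) * (2 * n + 3) := by
  have h1 := uu_le_one h n
  unfold uu at h1
  have hn : (0 : ℝ) ≤ n := Nat.cast_nonneg n
  have hpos : (0 : ℝ) < (2 * (n : ℝ) + 1) * (2 * n + 3) := by positivity
  rw [← mul_div_assoc, div_le_one hpos] at h1
  have h2 : (0 : ℝ) < (2 * (n : ℝ) + 1) * (2 * n + 3) - 1 := by nlinarith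
  have h3 := tt_pos n
  -- multiply
  have h4 : (2 * (n : ℝ) + 1) ^ 2 * (n + 2) ≤ (n + 1) * ((2 * (n : ℝ) + 1) * (2 * n + 3) - 1) := by
    nlinarith
  have h5 : tt n * ((2 * (n : ℝ) + 1) * (n + 2)) * ((2 * (n : ℝ) + 1) * (2 * n + 3) - 1) ≤
      ((n : ℝ) + 1) * (2 * n + 3) * ((2 * (n : ℝ) + 1) * (2 * n + 3) - 1) := by
    calc tt n * ((2 * (n : ℝ) + 1) * (n + 2)) * ((2 * (n : ℝ) + 1) * (2 * n + 3) - 1)
        = (tt n * ((2 * (n : ℝ) + 1) * (2 * n + 3) - 1)) * ((2 * (n : ℝ) + 1) * (n + 2)) := by ring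
      _ ≤ ((2 * (n : ℝ) + 1) * (2 * n + 3)) * ((2 * (n : ℝ) + 1) * (n + 2)) :=
          mul_le_mul_of_nonneg_right h1 (by positivity)
      _ = (2 * n + 3) * ((2 * (n : ℝ) + 1) ^ 2 * (n + 2)) := by ring
      _ ≤ (2 * n + 3) * ((n + 1) * ((2 * (n : ℝ) + 1) * (2 * n + 3) - 1)) :=
          mul_le_mul_of_nonneg_left h4 (by positivity)
      _ = _ := by ring
  exact le_of_mul_le_mul_right h5 h2

theorem ww_upper (h : ∀ n : ℕ, pval n ≤ 1) (n : ℕ) : ww n * (2 * (n : ℝ) + 2) ≤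
    2 * (2 * (n : ℝ) + 1) := by
  induction n with
  | zero => unfold ww; rw [pval_zero]; norm_num
  | succ n ih =>
    rw [ww_succ]
    have h1 := tt_upper h n
    have h2 := tt_pos n
    have h3 := ww_pos n
    have hn : (0 : ℝ) ≤ n := Nat.cast_nonneg n
    push_cast
    have hA : (0 : ℝ) < (2 * (n : ℝ) + 1) * (2 * n + 2) := by positivity
    have h4 : ww n * tt n * (2 * ((n : ℝ) + 1) + 2) * ((2 * (n : ℝ) + 1) * (2 * n + 2)) ≤
        2 * (2 * ((n : ℝ) + 1) + 1) * ((2 * (n : ℝ) + 1) * (2 * n + 2)) := by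
      calc ww n * tt n * (2 * ((n : ℝ) + 1) + 2) * ((2 * (n : ℝ) + 1) * (2 * n + 2))
          = 2 * ((ww n * (2 * (n : ℝ) + 2)) * (tt n * ((2 * (n : ℝ) + 1) * (n + 2)))) := by ring
        _ ≤ 2 * ((2 * (2 * (n : ℝ) + 1)) * (((n : ℝ) + 1) * (2 * n + 3))) := by
            apply mul_le_mul_of_nonneg_left _ (by norm_num)
            exact mul_le_mul ih h1 (by positivity) (by positivity)
        _ = _ := by ring
    exact le_of_mul_le_mul_right h4 hA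

theorem pval_bounds_of (h1 : ∀ n : ℕ, 1 ≤ pval n ^ 4 * (2 * (n : ℝ) + 1))
    (h2 : ∀ n : ℕ, pval n ≤ 1) (n : ℕ) :
    (2 * (n : ℝ) + 1) ^ (-(1 / 4) : ℝ) ≤ pval n ∧
      pval n ≤ 2 * (2 * (n : ℝ) + 1) ^ (-(1 / 4) : ℝ) := by
  have hp := pval_pos n
  have hm : (0 : ℝ) < 2 * (n : ℝ) + 1 := by positivity
  obtain ⟨a, ha⟩ : ∃ a : ℝ, a = (2 * (n : ℝ) + 1) ^ (-(1 / 4) : ℝ) := ⟨_, rfl⟩
  have ha0 : 0 < a := by rw [ha]; exact Real.rpow_pos_of_pos hm _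
  have ha4 : a ^ 4 * (2 * (n : ℝ) + 1) = 1 := by
    rw [ha, ← Real.rpow_natCast, ← Real.rpow_mul hm.le]
    norm_num
    rw [Real.rpow_neg_one]
    exact inv_mul_cancel₀ hm.ne'
  rw [← ha]
  have hw := ww_upper h2 n
  unfold ww at hw
  have h3 : pval n ^ 4 * (2 * (n : ℝ) + 1) ≤ 16 := by
    have : pval n ^ 4 * (2 * (n : ℝ) + 1) * (2 * (n : ℝ) + 2) ≤ 16 * (2 * (n : ℝ) + 2) := by
      have hn : (0 : ℝ) ≤ n := Nat.cast_nonneg n
      linarith
    exact le_of_mul_le_mul_right this (by positivity)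
  constructor
  · have h4 : a ^ 4 ≤ pval n ^ 4 := by
      exact le_of_mul_le_mul_right (ha4.le.trans (h1 n)) hm
    exact le_of_pow_le_pow_left₀ (by norm_num) hp.le h4
  · have h4 : pval n ^ 4 ≤ (2 * a) ^ 4 := by
      have : pval n ^ 4 * (2 * (n : ℝ) + 1) ≤ (2 * a) ^ 4 * (2 * (n : ℝ) + 1) := by
        calc _ ≤ (16 : ℝ) := h3
          _ = 16 * (a ^ 4 * (2 * (n : ℝ) + 1)) := by rw [ha4]; ring
          _ = _ := by ring
      exact le_of_mul_le_mul_right this hm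
    exact le_of_pow_le_pow_left₀ (by norm_num) (by positivity) h4

end V4

end Pool.Agent.H988R3
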