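import Pool.Agent.H988R3.Defs4
import Pool.Agent.H974R3.Homog
import Pool.Agent.H988R3.AsymCore

/-! Two-sided bounds for `pval` and `p4val`. -/

namespace Pool.Agent.H988R3
open Pool.Agent.H974R3 Pool.Agent.H974R3.Value

namespace V4

theorem pval_le_one (n : ℕ) : pval n ≤ 1 := by
  obtain ⟨μ, h0, h1, h2, _, _⟩ := markov_exists n
  rw [← pairing_value n μ h1 h2 0]
  have e1 : (1 : ℝ) = ∑ σ, ∑ τ, μ σ * μ τ := by
    rw [← Finset.sum_mul_sum, h1]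
    norm_num
  rw [e1]
  refine Finset.sum_le_sum fun σ _ => Finset.sum_le_sum fun τ _ => ?_
  rw [mul_assoc]
  apply mul_le_of_le_one_left (mul_nonneg (h0 _) (h0 _))
  unfold pr
  split_ifs <;> simp

/-- the factors of `p4val` -/
noncomputable def rk (k : ℝ) : ℝ :=
  (2 * k + 1) ^ 2 * (3 * k + 4) * (3 * k + 5) / ((6 * k + 5) * (6 * k + 7) * (k + 1) * (k + 2))

theorem rk_lower (k : ℝ) (hk : 0 ≤ k) : k / (k + 1) ≤ rk k := by
  unfold rk
  rw [div_le_div_iff₀ (by positivity) (by positivity)]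
  have e : (2 * k + 1) ^ 2 * (3 * k + 4) * (3 * k + 5) * (k + 1) -
      k * ((6 * k + 5) * (6 * k + 7) * (k + 1) * (k + 2)) ≥ 0 := by
    ring_nf
    positivity
  linarith

theorem rk_upper (k : ℝ) (hk : 0 ≤ k) : rk k ≤ (k + 1) / (k + 2) := by
  unfold rk
  rw [div_le_div_iff₀ (by positivity) (by positivity)]
  have e : (k + 1) * ((6 * k + 5) * (6 * k + 7) * (k + 1) * (k + 2)) -
      (2 * k + 1) ^ 2 * (3 * k + 4) * (3 * k + 5) * (k + 2) ≥ 0 := by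
    ring_nf
    positivity
  linarith

theorem prod_bounds (m : ℕ) :
    1 / ((m : ℝ) + 1) ≤ ∏ k ∈ Finset.range m, rk ((k : ℝ) + 1) ∧
      ∏ k ∈ Finset.range m, rk ((k : ℝ) + 1) ≤ 2 / ((m : ℝ) + 2) := by
  induction m with
  | zero => norm_num
  | succ m ih =>
    rw [Finset.prod_range_succ]
    have hm : (0 : ℝ) ≤ m := Nat.cast_nonneg m
    have h1 := rk_lower ((m : ℝ) + 1) (by positivity)
    have h2 := rk_upper ((m : ℝ) + 1) (by positivity)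
    have hp : 0 ≤ ((m : ℝ) + 1) / ((m : ℝ) + 1 + 1) := by positivity
    obtain ⟨ih1, ih2⟩ := ih
    constructor
    · have e : 1 / (((m + 1 : ℕ) : ℝ) + 1) =
          1 / ((m : ℝ) + 1) * (((m : ℝ) + 1) / ((m : ℝ) + 1 + 1)) := by
        push_cast
        field_simp
      rw [e]
      exact mul_le_mul ih1 h1 hp (le_trans (by positivity) ih1)
    · have e : 2 / (((m + 1 : ℕ) : ℝ) + 2) =
          2 / ((m : ℝ) + 2) * (((m : ℝ) + 1 + 1) / ((m : ℝ) + 1 + 2)) := by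
        push_cast
        field_simp
        ring
      rw [e]
      exact mul_le_mul ih2 h2 (le_trans hp h1) (by positivity)

theorem p4val_eq (n : ℕ) : p4val n =
    pval n * (2 / 7) * ∏ k ∈ Finset.range (n - 1), rk ((k : ℝ) + 1) := rfl

end V4

theorem pval_bounds : ∃ c C : ℝ, 0 < c ∧ ∀ n : ℕ,
    c * (2 * (n : ℝ) + 1) ^ (-(1 / 4) : ℝ) ≤ pval n ∧
      pval n ≤ C * (2 * (n : ℝ) + 1) ^ (-(1 / 4) : ℝ) := by
  refine ⟨1, 2, one_pos, fun n => ?_⟩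
  rw [one_mul]
  exact V4.pval_bounds_of (fun n => pval_lower pval_ge n) V4.pval_le_one n

theorem p4val_bounds : ∃ c C : ℝ, 0 < c ∧ ∀ n : ℕ, 1 ≤ n →
    c * (2 * (n : ℝ) + 1) ^ (-(5 / 4) : ℝ) ≤ p4val n ∧
      p4val n ≤ C * (2 * (n : ℝ) + 1) ^ (-(5 / 4) : ℝ) := by
  refine ⟨4 / 7, 16 / 7, by norm_num, fun n hn => ?_⟩
  obtain ⟨h1, h2⟩ := V4.pval_bounds_of (fun n => pval_lower pval_ge n) V4.pval_le_one n
  obtain ⟨m, rfl⟩ : ∃ m, n = m + 1 := ⟨n - 1, by omega⟩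
  obtain ⟨h3, h4⟩ := V4.prod_bounds m
  rw [V4.p4val_eq, Nat.add_sub_cancel]
  obtain ⟨P, hP⟩ : ∃ P, P = ∏ k ∈ Finset.range m, V4.rk ((k : ℝ) + 1) := ⟨_, rfl⟩
  rw [← hP] at h3 h4 ⊢
  have hm : (0 : ℝ) ≤ m := Nat.cast_nonneg m
  obtain ⟨x, hx⟩ : ∃ x : ℝ, x = 2 * ((m + 1 : ℕ) : ℝ) + 1 := ⟨_, rfl⟩
  have hxm : x = 2 * (m : ℝ) + 3 := by rw [hx]; push_cast; ring
  have hx0 : 0 < x := by rw [hxm]; positivity
  rw [← hx] at h1 h2 ⊢
  have e : x ^ (-(5 / 4) : ℝ) = x ^ (-(1 / 4) : ℝ) * x⁻¹ := by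
    rw [← Real.rpow_neg_one x, ← Real.rpow_add hx0]
    norm_num
  obtain ⟨a, ha⟩ : ∃ a : ℝ, a = x ^ (-(1 / 4) : ℝ) := ⟨_, rfl⟩
  have ha0 : 0 < a := by rw [ha]; exact Real.rpow_pos_of_pos hx0 _
  rw [e, ← ha]
  rw [← ha] at h1 h2
  have hP0 : 0 ≤ P := le_trans (by positivity) h3
  constructor
  · have h5 : 2 * x⁻¹ ≤ P := by
      refine le_trans ?_ h3
      rw [hxm, ← div_eq_mul_inv, div_le_div_iff₀ (by positivity) (by positivity)]
      linarith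
    calc 4 / 7 * (a * x⁻¹) = a * (2 / 7) * (2 * x⁻¹) := by ring
      _ ≤ pval (m + 1) * (2 / 7) * P := by
        apply mul_le_mul _ h5 (by positivity) _
        · exact mul_le_mul_of_nonneg_right h1 (by norm_num)
        · exact mul_nonneg (le_trans ha0.le h1) (by norm_num)
  · have h5 : P ≤ 4 * x⁻¹ := by
      refine le_trans h4 ?_
      rw [hxm, ← div_eq_mul_inv, div_le_div_iff₀ (by positivity) (by positivity)]
      linarith
    calc pval (m + 1) * (2 / 7) * P ≤ (2 * a) * (2 / 7) * (4 * x⁻¹) := by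
          apply mul_le_mul _ h5 hP0 (by positivity)
          exact mul_le_mul_of_nonneg_right h2 (by norm_num)
      _ = 16 / 7 * (a * x⁻¹) := by ring

end Pool.Agent.H988R3
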