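import Pool.Agent.H988R3.Defs4
import Pool.Agent.H974R3.Rel
import Pool.Agent.H974R3.Pair

/-!
# Four-arm formula on the odd cylinder: pairing with two marked strands (task K1)
-/

namespace Pool.Agent.H988R3
open Equiv MvPolynomial Pool.Agent.H974R3

theorem K1_sr {V : Type*} (s t : Perm V) (hs : ∀ v, s (s v) = v) (ht : ∀ v, t (t v) = v) (j : ℤ)
    (x : V) : s (((s * t) ^ j) x) = ((s * t) ^ (-j)) (s x) := by
  have hss : s * s = 1 := by ext v; exact hs v
  have htt : t * t = 1 := by ext v; exact ht v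
  have hinv : (s * t)⁻¹ = t * s := by
    rw [inv_eq_iff_mul_eq_one, mul_assoc, ← mul_assoc t t s, htt, one_mul, hss]
  have h1 : s * (s * t) * s⁻¹ = (s * t)⁻¹ := by
    rw [hinv, ← mul_assoc, hss, one_mul]
    congr 1
    rw [inv_eq_iff_mul_eq_one, hss]
  have h2 : s * (s * t) ^ j * s⁻¹ = (s * t) ^ (-j) := by
    rw [← conj_zpow, h1, inv_zpow, zpow_neg]
  have h3 := congrArg (fun f : Perm V => f (s x)) h2
  have h4 : s⁻¹ (s x) = x := s.symm_apply_apply x
  simpa only [Perm.mul_apply, h4] using h3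

theorem exists_alt {V : Type*} [Fintype V] (s t : Perm V) (hs : ∀ v, s (s v) = v)
    (hsf : ∀ v, s v ≠ v) (ht : ∀ v, t (t v) = v) (htf : ∀ v, t v ≠ v) :
    ∃ h : V → Bool, Alt s t h := by
  classical
  set r : Perm V := s * t with hr
  have hne : ∀ x, ¬ r.SameCycle x (s x) := by
    rintro x ⟨k, hk⟩
    rcases Int.even_or_odd' k with ⟨j, hj | hj⟩
    · apply hsf ((r ^ j) x)
      rw [hr, K1_sr s t hs ht, ← hr, ← hk, hj, ← Perm.mul_apply, ← zpow_add]
      congr 2; ring
    · apply htf ((r ^ j) x)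
      have h1 : s ((r ^ j) x) = r ((r ^ j) x) := by
        rw [hr, K1_sr s t hs ht, ← hr, ← hk, hj, ← Perm.mul_apply, ← Perm.mul_apply, ← zpow_add,
          ← zpow_one_add]
        congr 2; ring
      have h2 : r ((r ^ j) x) = s (t ((r ^ j) x)) := rfl
      exact (s.injective (h1.trans h2)).symm
  let Q := Quotient (Perm.SameCycle.setoid r)
  let q : V → Q := fun v => Quotient.mk _ v
  have hq : ∀ x y, q x = q y ↔ r.SameCycle x y := fun x y => Quotient.eq
  have e : Q ≃ Fin (Fintype.card Q) := Fintype.equivFin Q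
  have h1 : ∀ x, e (q x) ≠ e (q (s x)) := fun x hx => hne x ((hq _ _).1 (e.injective hx))
  have h2 : ∀ x, q (t x) = q (s x) := fun x => by
    rw [hq]
    refine ⟨1, ?_⟩
    rw [zpow_one]
    show s (t (t x)) = s x
    rw [ht]
  have h3 : ∀ x, q (s (t x)) = q x := fun x => by
    rw [hq]
    have h4 : r.SameCycle x (s (t x)) := ⟨1, by rw [zpow_one]; rfl⟩
    exact h4.symm
  refine ⟨fun x => decide (e (q x) < e (q (s x))), fun x => ?_, fun x => ?_⟩
  · have := h1 x
    simp only [hs]
    rw [← decide_not, decide_eq_decide, not_lt]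
    exact ⟨fun h => h.le, fun h => lt_of_le_of_ne h this.symm⟩
  · have := h1 x
    simp only [h2, h3]
    rw [← decide_not, decide_eq_decide, not_lt]
    exact ⟨fun h => h.le, fun h => lt_of_le_of_ne h this.symm⟩

theorem K1_Alt.symm {V : Type*} {s t : V → V} {h : V → Bool} (H : Alt s t h) : Alt t s h :=
  ⟨H.2, H.1⟩

theorem K1_Same.symm {V : Type*} {s t : V → V} {x y : V} (H : Same s t x y) : Same t s x y :=
  fun h hh => H h (K1_Alt.symm hh)

theorem K1_same_join {V : Type*} [DecidableEq V] {a b x y : V} {s t : Perm V}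
    (hsi : ∀ v, s (s v) = v) (hsf : ∀ v, s v ≠ v)
    (hti : ∀ v, t (t v) = v) (htf : ∀ v, t v ≠ v) (hab : a ≠ b)
    (hxa : x ≠ a) (hxb : x ≠ b) (hya : y ≠ a) (hyb : y ≠ b)
    (hc : Same (join a b s) t x y) : Same s (join a b t) x y := by
  rintro h ⟨h1, h2⟩
  have hjta : join a b t a = b := pjoin_left hab (htf a)
  have hh : h b = !h a := by rw [← h2 a, hjta]
  have hh' : h a = !h b := by rw [hh, Bool.not_not]
  by_cases hta : t a = b
  · have e : join a b t = t := pjoin_eq hta
    rw [e] at h2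
    refine hc h ⟨fun v => ?_, h2⟩
    by_cases hva : v = a
    · subst hva
      rw [pjoin_left hab (hsf _), hh]
    by_cases hvb : v = b
    · subst hvb
      rw [pjoin_right hsi hab (hsf _), hh']
    by_cases hsab : s a = b
    · rw [pjoin_eq hsab, h1]
    · by_cases h3 : v = s a
      · subst h3
        rw [pjoin_sa hsi hab hsf hsab, h1, h1, hh]
      by_cases h4 : v = s b
      · subst h4
        rw [pjoin_sb hsi hab hsf hsab, h1, h1, hh']
      rw [pjoin_other hsi hva hvb h3 h4, h1]
  · have htb : t b ≠ a := fun e => hta (by rw [← e, hti])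
    have hh2 : h (t b) = !h (t a) := by
      rw [← h2 (t a), pjoin_sa hti hab htf hta]
    have key := hc (fun v => if v = a then !h (t a) else if v = b then h (t a) else h v)
      ⟨?_, ?_⟩
    · simpa [hxa, hxb, hya, hyb] using key
    · intro v
      by_cases hva : v = a
      · subst hva
        rw [pjoin_left hab (hsf _)]
        simp [Ne.symm hab]
      by_cases hvb : v = b
      · subst hvb
        rw [pjoin_right hsi hab (hsf _)]
        simp [Ne.symm hab]
      by_cases hsab : s a = b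
      · have hsb : s b = a := by rw [← hsab, hsi]
        rw [pjoin_eq hsab]
        have e1 : s v ≠ a := fun e => hvb (s.injective (e.trans hsb.symm))
        have e2 : s v ≠ b := fun e => hva (s.injective (e.trans hsab.symm))
        simp [hva, hvb, e1, e2, h1 v]
      · by_cases h3 : v = s a
        · subst h3
          rw [pjoin_sa hsi hab hsf hsab]
          have e1 : s b ≠ a := fun e => hsab (by rw [← e, hsi])
          have e2 : s b ≠ b := hsf b
          simp only [e1, e2, hva, hvb, if_false]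
          rw [h1, h1, hh]
        by_cases h4 : v = s b
        · subst h4
          rw [pjoin_sb hsi hab hsf hsab]
          have e1 : s a ≠ a := hsf a
          simp only [e1, hsab, hva, hvb, if_false]
          rw [h1, h1, hh']
        rw [pjoin_other hsi hva hvb h3 h4]
        have e1 : s v ≠ a := fun e => h3 (by rw [← e, hsi])
        have e2 : s v ≠ b := fun e => h4 (by rw [← e, hsi])
        simp [hva, hvb, e1, e2, h1 v]
    · intro v
      by_cases hva : v = a
      · subst hva
        simp [htf v, hta]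
      by_cases hvb : v = b
      · subst hvb
        simp [htf v, htb, hh2, Ne.symm hab]
      by_cases h3 : v = t a
      · subst h3
        rw [hti]
        simp [htf a, hta]
      by_cases h4 : v = t b
      · subst h4
        rw [hti]
        simp [htf b, htb, hh2, Ne.symm hab]
      have e1 : t v ≠ a := fun e => h3 (by rw [← e, hti])
      have e2 : t v ≠ b := fun e => h4 (by rw [← e, hti])
      have e3 := h2 v
      rw [pjoin_other hti hva hvb h3 h4] at e3
      simp [hva, hvb, e1, e2, e3]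

theorem K1_congr {L L' : ℕ} {a b : Fin L} {a' b' : Fin L'} {σ τ : Pat L} {σ' τ' : Pat L'}
    (h : P4 a b σ τ ↔ P4 a' b' σ' τ') : pr4 a b σ τ = pr4 a' b' σ' τ' := by
  unfold pr4
  by_cases hc : P4 a b σ τ
  · rw [if_pos hc, if_pos (h.1 hc)]
  · rw [if_neg hc, if_neg (fun h' => hc (h.2 h'))]

theorem K1_ix_ne {m : ℕ} (hm : 1 ≤ m) (i : ℕ) : ix m i ≠ ix m (i + 1) := by
  intro h
  have h3 := congrArg Fin.val h
  simp only [ix] at h3
  have h4 : i % (m + 1) < m + 1 := Nat.mod_lt _ (by omega)
  rw [Nat.add_mod, Nat.mod_eq_of_lt (show 1 < m + 1 by omega)] at h3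
  by_cases h5 : i % (m + 1) = m
  · rw [h5, Nat.mod_self] at h3; omega
  · rw [Nat.mod_eq_of_lt (show i % (m + 1) + 1 < m + 1 by omega)] at h3; omega

theorem pr4_E {m : ℕ} (i : ℕ) (a b : Fin (m + 1)) (h1 : ix m i ≠ a) (h2 : ix m (i + 1) ≠ a)
    (h3 : ix m i ≠ b) (h4 : ix m (i + 1) ≠ b) (σ τ : Pat (m + 1)) :
    pr4 a b (E m i σ) τ = pr4 a b σ (E m i τ) := by
  have hm : m ≠ 0 := by
    rintro rfl
    exact h1 (Fin.ext (by have := (ix 0 i).2; have := a.2; omega))
  have hab : (some (ix m i) : Vx (m + 1)) ≠ some (ix m (i + 1)) := by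
    intro h
    rw [Option.some.injEq] at h
    exact K1_ix_ne (by omega) i h
  have ha1 : (some a : Vx (m + 1)) ≠ some (ix m i) := by simpa using Ne.symm h1
  have ha2 : (some a : Vx (m + 1)) ≠ some (ix m (i + 1)) := by simpa using Ne.symm h2
  have hb1 : (some b : Vx (m + 1)) ≠ some (ix m i) := by simpa using Ne.symm h3
  have hb2 : (some b : Vx (m + 1)) ≠ some (ix m (i + 1)) := by simpa using Ne.symm h4
  apply K1_congr
  unfold P4
  rw [E_val, E_val]
  constructor
  · rintro ⟨hc, hs⟩
    exact ⟨conn_join σ.2.inv σ.2.nofix τ.2.inv τ.2.nofix hab ha1 ha2 (by simp) (by simp) hc,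
      K1_same_join σ.2.inv σ.2.nofix τ.2.inv τ.2.nofix hab ha1 ha2 hb1 hb2 hs⟩
  · rintro ⟨hc, hs⟩
    exact ⟨(conn_join τ.2.inv τ.2.nofix σ.2.inv σ.2.nofix hab ha1 ha2 (by simp) (by simp)
      hc.symm').symm',
      K1_Same.symm (K1_same_join τ.2.inv τ.2.nofix σ.2.inv σ.2.nofix hab ha1 ha2 hb1 hb2
        (K1_Same.symm hs))⟩

theorem K1_not_same {L : ℕ} (σ τ : Pat L) {a b : Fin L} (h : σ.1 (some a) = some b) :
    ¬ Same σ.1 τ.1 (some a) (some b) := by
  intro hs
  obtain ⟨g, hg⟩ := exists_alt σ.1 τ.1 σ.2.inv σ.2.nofix τ.2.inv τ.2.nofix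
  have h1 := hs g hg
  have h2 := hg.1 (some a)
  rw [h, h1] at h2
  cases hb : g (some b) <;> rw [hb] at h2 <;> simp at h2

theorem pr4_E_left {m : ℕ} (hm : 1 ≤ m) (i : ℕ) (σ τ : Pat (m + 1)) :
    pr4 (ix m i) (ix m (i + 1)) (E m i σ) τ = 0 := by
  unfold pr4
  rw [if_neg]
  rintro ⟨_, hs⟩
  refine K1_not_same (E m i σ) τ ?_ hs
  rw [E_val]
  exact pjoin_left (by simpa using K1_ix_ne hm i) (σ.2.nofix _)

theorem pr4_E_right {m : ℕ} (hm : 1 ≤ m) (i : ℕ) (σ τ : Pat (m + 1)) :
    pr4 (ix m i) (ix m (i + 1)) σ (E m i τ) = 0 := by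
  unfold pr4
  rw [if_neg]
  rintro ⟨_, hs⟩
  refine K1_not_same (E m i τ) σ ?_ (K1_Same.symm hs)
  rw [E_val]
  exact pjoin_left (by simpa using K1_ix_ne hm i) (τ.2.nofix _)

theorem pr4_ins_E0 {m : ℕ} (σ : Pat (m + 1)) (τ : Pat (m + 3)) :
    pr4 1 2 (ins σ) (E (m + 2) 0 τ) = 0 := by
  have h1 : pr 1 (ins σ) (E (m + 2) 0 τ) = 0 := by rw [pr_one, pr_ins_E0]
  unfold pr at h1
  unfold pr4
  rw [if_neg]
  rintro ⟨hc, _⟩
  rw [if_pos hc] at h1
  exact one_ne_zero h1

theorem pr4_rot {m : ℕ} (a b : Fin (m + 1)) (σ τ : Pat (m + 1)) :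
    pr4 (finRotate (m + 1) a) (finRotate (m + 1) b) (rot m σ) (rot m τ) = pr4 a b σ τ := by
  apply K1_congr
  unfold P4
  rw [rot_val, rot_val]
  have hr : ∀ j : Fin (m + 1), rotV m (some j) = some (finRotate (m + 1) j) := fun _ => rfl
  have hn : rotV m none = none := rfl
  have hr' : ∀ j : Fin (m + 1), (rotV m)⁻¹ (some (finRotate (m + 1) j)) = some j := fun j => by
    rw [← hr, pinv_apply]
  have hn' : (rotV m)⁻¹ none = none := by
    conv_lhs => rw [← hn]
    rw [pinv_apply]
  constructor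
  · rintro ⟨hc, hs⟩
    refine ⟨fun h h1 h2 => ?_, fun h hh => ?_⟩
    · have key := hc (fun v => h ((rotV m)⁻¹ v)) (fun v => ?_) (fun v => ?_)
      · simpa only [hr', hn'] using key
      · simp only [Perm.mul_apply, pinv_apply, h1]
      · simp only [Perm.mul_apply, pinv_apply, h2]
    · have key := hs (fun v => h ((rotV m)⁻¹ v)) ⟨fun v => ?_, fun v => ?_⟩
      · simpa only [hr'] using key
      · simp only [Perm.mul_apply, pinv_apply, hh.1]
      · simp only [Perm.mul_apply, pinv_apply, hh.2]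
  · rintro ⟨hc, hs⟩
    refine ⟨fun h h1 h2 => ?_, fun h hh => ?_⟩
    · have key := hc (fun v => h (rotV m v)) (fun v => ?_) (fun v => ?_)
      · simpa only [hr, hn] using key
      · have := h1 (rotV m v)
        simpa only [Perm.mul_apply, pinv_apply] using this
      · have := h2 (rotV m v)
        simpa only [Perm.mul_apply, pinv_apply] using this
    · have key := hs (fun v => h (rotV m v)) ⟨fun v => ?_, fun v => ?_⟩
      · simpa only [hr] using key
      · have := hh.1 (rotV m v)
        simpa only [Perm.mul_apply, pinv_apply] using this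
      · have := hh.2 (rotV m v)
        simpa only [Perm.mul_apply, pinv_apply] using this

end Pool.Agent.H988R3
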