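import Pool.Agent.H974R3.Defs
import Pool.Agent.H974R3.Value

/-!
# Four-arm formula on the odd cylinder: definitions

Setting of `Pool.Agent.H974R3.Defs` (patterns `Pat L` with one defect, `E`, `rot`, `ins`,
polynomial ground state `PsiSpec q n Ψ`).
-/

namespace Pool.Agent.H988R3
open Equiv MvPolynomial Pool.Agent.H974R3

/-- `h` changes its value along every arc of `σ` and of `τ` -/
def Alt {V : Type*} (σ τ : V → V) (h : V → Bool) : Prop :=
  (∀ v, h (σ v) = !h v) ∧ ∀ v, h (τ v) = !h v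

/-- `a` and `b` have the same colour in every function alternating along `σ` and `τ`
(= same orbit, and same orientation on it) -/
def Same {V : Type*} (σ τ : V → V) (a b : V) : Prop :=
  ∀ h : V → Bool, Alt σ τ h → h a = h b

/-- both strands `a`, `b` lie on the infinite line, with the same orientation -/
def P4 {L : ℕ} (a b : Fin L) (σ τ : Pat L) : Prop :=
  Conn σ.1 τ.1 (some a) none ∧ Same σ.1 τ.1 (some a) (some b)

open Classical in
/-- indicator of `P4` -/
noncomputable def pr4 {L : ℕ} (a b : Fin L) (σ τ : Pat L) : ℂ :=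
  if P4 a b σ τ then 1 else 0

/-- the bilinear form with both strands `0,1` having different parameters below and above;
`M = 2n+1` common parameters `z` -/
noncomputable def S2 (n : ℕ) (Ψ Ψ' : Pat (2 * n + 3) → MvPolynomial (Fin (2 * n + 3)) ℂ)
    (x1 x2 y1 y2 : ℂ) (z : Fin (2 * n + 1) → ℂ) : ℂ :=
  ∑ σ : Pat (2 * n + 3), ∑ τ : Pat (2 * n + 3), pr4 0 1 σ τ
    * eval (Fin.cons x1 (Fin.cons x2 z : Fin (2 * n + 2) → ℂ) : Fin (2 * n + 3) → ℂ) (Ψ σ)
    * eval (Fin.cons y1 (Fin.cons y2 z : Fin (2 * n + 2) → ℂ) : Fin (2 * n + 3) → ℂ) (Ψ' τ)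

/-- the form with one free strand below and three above; `M = 2n` common parameters `z` -/
noncomputable def S3 (n : ℕ) (Ψ : Pat (2 * n + 1) → MvPolynomial (Fin (2 * n + 1)) ℂ)
    (Ψ' : Pat (2 * n + 3) → MvPolynomial (Fin (2 * n + 3)) ℂ)
    (x y1 y2 y3 : ℂ) (z : Fin (2 * n) → ℂ) : ℂ :=
  ∑ σ : Pat (2 * n + 1), ∑ τ : Pat (2 * n + 3), pr4 1 2 (ins σ) τ
    * eval (Fin.cons x z : Fin (2 * n + 1) → ℂ) (Ψ σ)
    * eval (Fin.cons y1 (Fin.cons y2 (Fin.cons y3 z : Fin (2 * n + 1) → ℂ) :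
        Fin (2 * n + 2) → ℂ) : Fin (2 * n + 3) → ℂ) (Ψ' τ)

/-- recursion factor (the same formula as `Pool.Agent.H974R3.Fac`) -/
noncomputable def Fac4 {N : ℕ} (q x : ℂ) (z : Fin N → ℂ) : ℂ :=
  -(q - 1) * x * ∏ j, (z j - q ^ 2 * x) ^ 2

/-- complete homogeneous symmetric polynomials of a list -/
def hsym : List ℂ → ℕ → ℂ
  | [], k => if k = 0 then 1 else 0
  | (u :: v), k => ∑ i ∈ Finset.range (k + 1), u ^ i * hsym v (k - i)

/-- the Jacobi-Trudi type matrix: `N` rows for the list `v`, then rows for the list `w` in the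
columns divisible by 3 -/
noncomputable def HMat (N M : ℕ) (v w : List ℂ) : Matrix (Fin (N + M)) (Fin (N + M)) ℂ :=
  Matrix.of fun r e =>
    if r.val < N then (if r.val ≤ e.val then hsym v (e.val - r.val) else 0)
    else if e.val % 3 = 0 ∧ r.val - N ≤ e.val / 3 then hsym w (e.val / 3 - (r.val - N)) else 0

/-- the four-leg function -/
noncomputable def HH (v w : List ℂ) : ℂ := (HMat v.length w.length v w).det

/-- recursion factor of the four-leg function and other properties used in the interpolation -/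
structure HSpec (H : List ℂ → List ℂ → ℂ) : Prop where
  permv : ∀ v v' w : List ℂ, v.Perm v' → H v w = H v' w
  permw : ∀ v w w' : List ℂ, w.Perm w' → H v w = H v w'
  nil : ∀ a b c d : ℂ, H [a, b, c, d] [] = 1
  recur : ∀ (q : ℂ), q ^ 2 + q + 1 = 0 → ∀ (t : ℂ) (v w : List ℂ), v.length = 2 * w.length + 4 →
    H (q ^ 2 * t :: t :: v) (t ^ 3 :: w)
      = q ^ 2 * t ^ 2 * (v.map (fun u => u - q * t)).prod * H v w
  deg : ∀ v w : List ℂ, v.length = 2 * w.length + 3 →
    ∃ P : Polynomial ℂ, P.natDegree ≤ w.length ∧ ∀ x, P.eval x = H (x :: v) w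
  cont : ∀ N M : ℕ, Continuous (fun p : (Fin N → ℂ) × (Fin M → ℂ) =>
    H (List.ofFn p.1) (List.ofFn p.2))

/-- the four-leg function at the points of the percolation problem -/
noncomputable def g4 (H : List ℂ → List ℂ → ℂ) (a b c d : ℂ) (z : List ℂ) : ℂ :=
  H (a :: b :: c :: d :: (z ++ z)) (z.map (fun u => u ^ 3))

/-- the value of the four-arm probability on the cylinder with `2n+1` strands (`n ≥ 1`) -/
noncomputable def p4val (n : ℕ) : ℝ :=
  pval n * (2 / 7) * ∏ k ∈ Finset.range (n - 1),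
    (2 * ((k : ℝ) + 1) + 1) ^ 2 * (3 * ((k : ℝ) + 1) + 4) * (3 * ((k : ℝ) + 1) + 5)
      / ((6 * ((k : ℝ) + 1) + 5) * (6 * ((k : ℝ) + 1) + 7) * ((k : ℝ) + 1 + 1) * ((k : ℝ) + 1 + 2))

end Pool.Agent.H988R3
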