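import Pool.Agent.H988R3.Defs4
import Pool.Agent.H974R3.Rel

/-!
# Task R3: the base case of the interpolation (`S3` at level 0)
-/

namespace Pool.Agent.H988R3
open Equiv MvPolynomial Pool.Agent.H974R3

/-- the only pattern of size 1 -/
theorem R3_pat1 (σ : Pat 1) : σ.1 none = some 0 ∧ σ.1 (some 0) = none := by
  have h0 : σ.1 none = some 0 := by
    rcases h : σ.1 none with _ | i
    · exact absurd h (σ.2.nofix none)
    · have : i = 0 := Subsingleton.elim _ _
      rw [this]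
  refine ⟨h0, ?_⟩
  have := σ.2.inv none
  rw [h0] at this
  exact this

theorem R3_pat1_eq (σ τ : Pat 1) : σ = τ := by
  apply Subtype.ext
  apply Equiv.ext
  intro v
  rcases v with _ | i
  · rw [(R3_pat1 σ).1, (R3_pat1 τ).1]
  · have : i = 0 := Subsingleton.elim _ _
    rw [this, (R3_pat1 σ).2, (R3_pat1 τ).2]

theorem R3_fin : ∀ a b c d : Fin 3, a ≠ b → a ≠ c → b ≠ c → d ≠ b → d ≠ a → d = c := by
  intro a b c d h1 h2 h3 h4 h5
  have := a.isLt
  have := b.isLt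
  have := c.isLt
  have := d.isLt
  simp only [ne_eq, Fin.ext_iff] at *
  omega

theorem R3_fin2 : ∀ a b : Fin 3, ∃ c : Fin 3, a ≠ c ∧ b ≠ c := by decide

/-- a pattern of size 3 is determined by the position of the defect -/
theorem R3_pat3_eq (σ τ : Pat 3) (h : σ.1 none = τ.1 none) : σ = τ := by
  have key : ∀ (ρ : Pat 3) (a b c : Fin 3), ρ.1 none = some a → a ≠ b → a ≠ c → b ≠ c →
      ρ.1 (some b) = some c := by
    intro ρ a b c ha hab hac hbc
    rcases hb : ρ.1 (some b) with _ | d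
    · exfalso
      have h1 := ρ.2.inv (some b)
      rw [hb, ha] at h1
      exact hab (Option.some.inj h1)
    · have h1 : d ≠ b := fun hd => ρ.2.nofix (some b) (by rw [hb, hd])
      have h2 : d ≠ a := by
        intro hd
        have h3 := ρ.2.inv (some b)
        have h4 := ρ.2.inv none
        rw [hb, hd] at h3
        rw [ha, h3] at h4
        cases h4
      rw [R3_fin a b c d hab hac hbc h1 h2]
  have hn : ∃ a : Fin 3, σ.1 none = some a := by
    rcases h' : σ.1 none with _ | a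
    · exact absurd h' (σ.2.nofix none)
    · exact ⟨a, rfl⟩
  obtain ⟨a, ha⟩ := hn
  have ha' : τ.1 none = some a := by rw [← h, ha]
  apply Subtype.ext
  apply Equiv.ext
  intro v
  rcases v with _ | b
  · exact h
  · by_cases hab : a = b
    · have h1 := σ.2.inv none
      have h2 := τ.2.inv none
      rw [ha] at h1
      rw [ha'] at h2
      rw [← hab, h1, h2]
    · have hc : ∃ c : Fin 3, a ≠ c ∧ b ≠ c := R3_fin2 a b
      obtain ⟨c, hac, hbc⟩ := hc
      rw [key σ a b c ha hab hac hbc, key τ a b c ha' hab hac hbc]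

theorem R3_base1_none : (base 1).1 none = some 2 := rfl
theorem R3_base1_0 : (base 1).1 (some 0) = some 1 := by
  show baseFun 1 (some 0) = some 1
  simp [baseFun]
theorem R3_base1_1 : (base 1).1 (some 1) = some 0 := by
  show baseFun 1 (some 1) = some 0
  simp [baseFun]
theorem R3_base1_2 : (base 1).1 (some 2) = none := by
  show baseFun 1 (some 2) = none
  simp [baseFun]


theorem R3_rotV_none : rotV 2 none = none := rfl
theorem R3_rotV_0 : rotV 2 (some 0) = some 1 := by decide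
theorem R3_rotV_1 : rotV 2 (some 1) = some 2 := by decide
theorem R3_rotV_2 : rotV 2 (some 2) = some 0 := by decide

theorem R3_rotVi_none : (rotV 2)⁻¹ none = none := rfl
theorem R3_rotVi_0 : (rotV 2)⁻¹ (some 0) = some 2 := by decide
theorem R3_rotVi_1 : (rotV 2)⁻¹ (some 1) = some 0 := by decide
theorem R3_rotVi_2 : (rotV 2)⁻¹ (some 2) = some 1 := by decide

/-- `rot (base 1)`: defect 0 -/
theorem R3_r1 : (rot 2 (base 1)).1 none = some 0 ∧ (rot 2 (base 1)).1 (some 0) = none ∧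
    (rot 2 (base 1)).1 (some 1) = some 2 ∧ (rot 2 (base 1)).1 (some 2) = some 1 := by
  rw [rot_val]
  simp only [Perm.mul_apply]
  refine ⟨?_, ?_, ?_, ?_⟩
  · rw [R3_rotVi_none, R3_base1_none, R3_rotV_2]
  · rw [R3_rotVi_0, R3_base1_2, R3_rotV_none]
  · rw [R3_rotVi_1, R3_base1_0, R3_rotV_1]
  · rw [R3_rotVi_2, R3_base1_1, R3_rotV_0]

/-- `rot (rot (base 1))`: defect 1 -/
theorem R3_r2 : (rot 2 (rot 2 (base 1))).1 none = some 1 ∧
    (rot 2 (rot 2 (base 1))).1 (some 1) = none ∧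
    (rot 2 (rot 2 (base 1))).1 (some 0) = some 2 ∧
    (rot 2 (rot 2 (base 1))).1 (some 2) = some 0 := by
  obtain ⟨h1, h2, h3, h4⟩ := R3_r1
  rw [rot_val]
  simp only [Perm.mul_apply]
  refine ⟨?_, ?_, ?_, ?_⟩
  · rw [R3_rotVi_none, h1, R3_rotV_0]
  · rw [R3_rotVi_1, h2, R3_rotV_none]
  · rw [R3_rotVi_0, h4, R3_rotV_1]
  · rw [R3_rotVi_2, h3, R3_rotV_2]

/-- the three patterns of size 3 -/
theorem R3_pat3 (τ : Pat 3) : τ = base 1 ∨ τ = rot 2 (base 1) ∨ τ = rot 2 (rot 2 (base 1)) := by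
  rcases h : τ.1 none with _ | a
  · exact absurd h (τ.2.nofix none)
  · have ha : a = 0 ∨ a = 1 ∨ a = 2 := by
      revert a
      intro a _
      fin_cases a <;> simp
    rcases ha with rfl | rfl | rfl
    · right; left
      exact R3_pat3_eq _ _ (by rw [h, R3_r1.1])
    · right; right
      exact R3_pat3_eq _ _ (by rw [h, R3_r2.1])
    · left
      exact R3_pat3_eq _ _ (by rw [h, R3_base1_none])

theorem R3_ins (σ : Pat 1) : (ins σ).1 none = some 2 ∧ (ins σ).1 (some 2) = none ∧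
    (ins σ).1 (some 0) = some 1 ∧ (ins σ).1 (some 1) = some 0 := by
  obtain ⟨h1, h2⟩ := R3_pat1 σ
  refine ⟨?_, ?_, rfl, rfl⟩
  · show insFun σ.1 none = some 2
    rw [insFun_none, h1]
    rfl
  · show insFun σ.1 (some (Fin.succ (Fin.succ (0 : Fin 1)))) = none
    rw [insFun_ss, h2]
    rfl

theorem R3_all {P : Vx 3 → Prop} (hn : P none) (h0 : P (some 0)) (h1 : P (some 1))
    (h2 : P (some 2)) : ∀ v, P v := by
  intro v
  rcases v with _ | i
  · exact hn
  · fin_cases i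
    · exact h0
    · exact h1
    · exact h2

/-- a colouring of the four vertices -/
def R3_col (a b c d : Bool) : Vx 3 → Bool
  | none => a
  | some i => if i = 0 then b else if i = 1 then c else d

theorem R3_col_none (a b c d : Bool) : R3_col a b c d none = a := rfl
theorem R3_col_0 (a b c d : Bool) : R3_col a b c d (some 0) = b := rfl
theorem R3_col_1 (a b c d : Bool) : R3_col a b c d (some 1) = c := rfl
theorem R3_col_2 (a b c d : Bool) : R3_col a b c d (some 2) = d := rfl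

theorem R3_p0 (σ : Pat 1) : pr4 1 2 (ins σ) (base 1) = 0 := by
  obtain ⟨a1, a2, a3, a4⟩ := R3_ins σ
  unfold pr4
  rw [if_neg]
  rintro ⟨hc, -⟩
  have := hc (R3_col false true true false) (R3_all ?_ ?_ ?_ ?_) (R3_all ?_ ?_ ?_ ?_)
  · rw [R3_col_1, R3_col_none] at this
    cases this
  · rw [a1, R3_col_2, R3_col_none]
  · rw [a3, R3_col_1, R3_col_0]
  · rw [a4, R3_col_1, R3_col_0]
  · rw [a2, R3_col_2, R3_col_none]
  · rw [R3_base1_none, R3_col_2, R3_col_none]
  · rw [R3_base1_0, R3_col_1, R3_col_0]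
  · rw [R3_base1_1, R3_col_1, R3_col_0]
  · rw [R3_base1_2, R3_col_2, R3_col_none]

theorem R3_p1 (σ : Pat 1) : pr4 1 2 (ins σ) (rot 2 (base 1)) = 0 := by
  obtain ⟨a1, a2, a3, a4⟩ := R3_ins σ
  obtain ⟨b1, b2, b3, b4⟩ := R3_r1
  unfold pr4
  rw [if_neg]
  rintro ⟨-, hc⟩
  have := hc (R3_col true false true false) ⟨R3_all ?_ ?_ ?_ ?_, R3_all ?_ ?_ ?_ ?_⟩
  · rw [R3_col_1, R3_col_2] at this
    cases this
  · rw [a1, R3_col_2, R3_col_none]; rfl
  · rw [a3, R3_col_1, R3_col_0]; rfl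
  · rw [a4, R3_col_1, R3_col_0]; rfl
  · rw [a2, R3_col_2, R3_col_none]; rfl
  · rw [b1, R3_col_0, R3_col_none]; rfl
  · rw [b2, R3_col_0, R3_col_none]; rfl
  · rw [b3, R3_col_1, R3_col_2]; rfl
  · rw [b4, R3_col_1, R3_col_2]; rfl

theorem R3_p2 (σ : Pat 1) : pr4 1 2 (ins σ) (rot 2 (rot 2 (base 1))) = 1 := by
  obtain ⟨a1, a2, a3, a4⟩ := R3_ins σ
  obtain ⟨b1, b2, b3, b4⟩ := R3_r2
  unfold pr4
  rw [if_pos]
  refine ⟨?_, ?_⟩
  · intro h _ h2
    have := h2 (some 1)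
    rw [b2] at this
    exact this.symm
  · rintro h ⟨h1, h2⟩
    have e1 := h1 (some 0)
    rw [a3] at e1
    have e2 := h2 (some 0)
    rw [b3] at e2
    rw [e1, e2]

theorem R3_distinct : base 1 ≠ rot 2 (base 1) ∧ base 1 ≠ rot 2 (rot 2 (base 1)) ∧
    rot 2 (base 1) ≠ rot 2 (rot 2 (base 1)) := by
  refine ⟨fun h => ?_, fun h => ?_, fun h => ?_⟩
  · have := congrArg (fun τ : Pat 3 => τ.1 none) h
    simp only [R3_base1_none, R3_r1.1] at this
    exact absurd this (by decide)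
  · have := congrArg (fun τ : Pat 3 => τ.1 none) h
    simp only [R3_base1_none, R3_r2.1] at this
    exact absurd this (by decide)
  · have := congrArg (fun τ : Pat 3 => τ.1 none) h
    simp only [R3_r1.1, R3_r2.1] at this
    exact absurd this (by decide)

theorem R3_Psi1 (q : ℂ) (Ψ : Pat 1 → MvPolynomial (Fin 1) ℂ) (h : PsiSpec q 0 Ψ) (σ : Pat 1) :
    Ψ σ = 1 := by
  rw [R3_pat1_eq σ (base 0)]
  have := h.base
  rw [this]
  simp [Dl]

theorem R3_chain : chain 1 0 = 1 ∧ chain 1 1 = 2 ∧ chain 1 2 = 0 := ⟨rfl, rfl, rfl⟩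

theorem R3_Dl (p : ℂ) (w : Fin 3 → ℂ) :
    eval w (Dl p 1) = (p * w 2 - p ^ 2 * w 1) * ((p * w 0 - p ^ 2 * w 1) * (p * w 0 - p ^ 2 * w 2)) := by
  have e : Dl p 1 = ∏ j ∈ Finset.range 3, ∏ i ∈ Finset.range j,
      (C p * X (chain 1 j) - C (p ^ 2) * X (chain 1 i)) := rfl
  rw [e]
  simp only [Finset.prod_range_succ, Finset.prod_range_zero, one_mul]
  rw [R3_chain.1, R3_chain.2.1, R3_chain.2.2]
  simp only [map_mul, map_sub, eval_C, eval_X]

theorem S3_base (q : ℂ) (hq : q ^ 2 + q + 1 = 0)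
    (Ψ : Pat 1 → MvPolynomial (Fin 1) ℂ) (Ψ' : Pat 3 → MvPolynomial (Fin 3) ℂ)
    (h : PsiSpec q 0 Ψ) (h' : PsiSpec (q ^ 2) 1 Ψ') (x y1 y2 y3 : ℂ) (z : Fin 0 → ℂ) :
    S3 0 Ψ Ψ' x y1 y2 y3 z
      = (q ^ 2 * y2 - q * y1) * (q ^ 2 * y3 - q * y2) * (q ^ 2 * y3 - q * y1) := by
  unfold S3
  have hσ : ∀ F : Pat (2 * 0 + 1) → ℂ, ∑ σ : Pat (2 * 0 + 1), F σ = F (base 0) := by
    intro F
    rw [Finset.sum_eq_single_of_mem (base 0) (Finset.mem_univ _)]
    intro b _ hb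
    exact absurd (R3_pat1_eq b (base 0)) hb
  rw [hσ]
  rw [Finset.sum_eq_single_of_mem (rot 2 (rot 2 (base 1))) (Finset.mem_univ _)]
  · have e1 : pr4 1 2 (ins (base 0)) (rot 2 (rot 2 (base 1))) = 1 := R3_p2 (base 0)
    have e2 : Ψ (base 0) = 1 := R3_Psi1 q Ψ h (base 0)
    have e3 : Ψ' (rot 2 (rot 2 (base 1))) = rename (finRotate 3) (rename (finRotate 3) (Dl (q ^ 2) 1)) := by
      have r1 := h'.rot (rot 2 (base 1))
      have r2 := h'.rot (base 1)
      have r3 := h'.base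
      rw [r3] at r2
      rw [r2] at r1
      exact r1
    have e4 : eval (Fin.cons y1 (Fin.cons y2 (Fin.cons y3 z : Fin (2 * 0 + 1) → ℂ) :
        Fin (2 * 0 + 2) → ℂ) : Fin (2 * 0 + 3) → ℂ) (Ψ' (rot 2 (rot 2 (base 1))))
        = (q ^ 2 * y2 - q * y1) * (q ^ 2 * y3 - q * y2) * (q ^ 2 * y3 - q * y1) := by
      rw [e3, eval_rename, eval_rename]
      refine (R3_Dl (q ^ 2) _).trans ?_
      have w0 : ((((Fin.cons y1 (Fin.cons y2 (Fin.cons y3 z : Fin (2 * 0 + 1) → ℂ) :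
        Fin (2 * 0 + 2) → ℂ) : Fin (2 * 0 + 3) → ℂ) ∘ finRotate 3) ∘ finRotate 3) 0) = y3 := rfl
      have w1 : ((((Fin.cons y1 (Fin.cons y2 (Fin.cons y3 z : Fin (2 * 0 + 1) → ℂ) :
        Fin (2 * 0 + 2) → ℂ) : Fin (2 * 0 + 3) → ℂ) ∘ finRotate 3) ∘ finRotate 3) 1) = y1 := rfl
      have w2 : ((((Fin.cons y1 (Fin.cons y2 (Fin.cons y3 z : Fin (2 * 0 + 1) → ℂ) :
        Fin (2 * 0 + 2) → ℂ) : Fin (2 * 0 + 3) → ℂ) ∘ finRotate 3) ∘ finRotate 3) 2) = y2 := rfl
      rw [w0, w1, w2]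
      have q4 : (q ^ 2) ^ 2 = q := by
        have : q ^ 3 = 1 := by linear_combination (q - 1) * hq
        linear_combination q * this
      rw [q4]
      ring
    refine (congrArg₂ (· * ·) (congrArg₂ (· * ·) e1 (by rw [e2, map_one])) e4).trans ?_
    simp
  · intro τ _ hτ
    rcases R3_pat3 τ with rfl | rfl | rfl
    · have e1 : pr4 1 2 (ins (base 0)) (base 1) = 0 := R3_p0 (base 0)
      refine (congrArg₂ (· * ·) (congrArg₂ (· * ·) e1 rfl) rfl).trans ?_
      simp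
    · have e1 : pr4 1 2 (ins (base 0)) (rot 2 (base 1)) = 0 := R3_p1 (base 0)
      refine (congrArg₂ (· * ·) (congrArg₂ (· * ·) e1 rfl) rfl).trans ?_
      simp
    · exact absurd rfl hτ

end Pool.Agent.H988R3
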