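import Pool.Agent.H988R3.Defs4

/-!
# Degrees and continuity of the two bilinear forms
-/

namespace Pool.Agent.H988R3
open Equiv MvPolynomial Pool.Agent.H974R3

theorem Y3_eval_poly {N : ℕ} (P : MvPolynomial (Fin N) ℂ) (i : Fin N) (d : ℕ)
    (hd : P.degreeOf i ≤ d) (p : Fin N → ℂ) :
    ∃ Q : Polynomial ℂ, Q.natDegree ≤ d ∧ ∀ t, Q.eval t = eval (Function.update p i t) P := by
  classical
  refine ⟨∑ s ∈ P.support, Polynomial.C (P.coeff s * ∏ j ∈ Finset.univ.erase i, p j ^ s j)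
    * Polynomial.X ^ (s i), ?_, ?_⟩
  · refine Polynomial.natDegree_sum_le_of_forall_le _ _ fun s hs => ?_
    refine (Polynomial.natDegree_C_mul_X_pow_le _ _).trans ?_
    exact (MvPolynomial.monomial_le_degreeOf i hs).trans hd
  · intro t
    rw [Polynomial.eval_finsetSum, MvPolynomial.eval_eq']
    refine Finset.sum_congr rfl fun s _ => ?_
    rw [Polynomial.eval_mul, Polynomial.eval_C, Polynomial.eval_pow, Polynomial.eval_X,
      ← Finset.mul_prod_erase Finset.univ _ (Finset.mem_univ i), Function.update_self]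
    have h1 : ∏ j ∈ Finset.univ.erase i, Function.update p i t j ^ s j
        = ∏ j ∈ Finset.univ.erase i, p j ^ s j := by
      refine Finset.prod_congr rfl fun j hj => ?_
      rw [Function.update_of_ne (Finset.ne_of_mem_erase hj)]
    rw [h1]
    ring

theorem Y3_sum_poly {A B : Type*} [Fintype A] [Fintype B] {d : ℕ} (f : A → B → ℂ → ℂ)
    (h : ∀ a b, ∃ Q : Polynomial ℂ, Q.natDegree ≤ d ∧ ∀ t, Q.eval t = f a b t) :
    ∃ Q : Polynomial ℂ, Q.natDegree ≤ d ∧ ∀ t, Q.eval t = ∑ a, ∑ b, f a b t := by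
  choose Q hQ hQ' using h
  refine ⟨∑ a, ∑ b, Q a b, ?_, ?_⟩
  · exact Polynomial.natDegree_sum_le_of_forall_le _ _ fun a _ =>
      Polynomial.natDegree_sum_le_of_forall_le _ _ fun b _ => hQ a b
  · intro t
    rw [Polynomial.eval_finsetSum]
    refine Finset.sum_congr rfl fun a _ => ?_
    rw [Polynomial.eval_finsetSum]
    exact Finset.sum_congr rfl fun b _ => hQ' a b t

theorem Y3_mul_poly {d : ℕ} (c : ℂ) (f : ℂ → ℂ)
    (h : ∃ Q : Polynomial ℂ, Q.natDegree ≤ d ∧ ∀ t, Q.eval t = f t) :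
    ∃ Q : Polynomial ℂ, Q.natDegree ≤ d ∧ ∀ t, Q.eval t = c * f t := by
  obtain ⟨Q, h1, h2⟩ := h
  exact ⟨Polynomial.C c * Q, (Polynomial.natDegree_C_mul_le _ _).trans h1, fun t => by
    rw [Polynomial.eval_mul, Polynomial.eval_C, h2]⟩

section forms
variable (q : ℂ)

theorem S2_deg (n : ℕ) (Ψ Ψ' : Pat (2 * n + 3) → MvPolynomial (Fin (2 * n + 3)) ℂ)
    (h : PsiSpec q (n + 1) Ψ) (x2 y1 y2 : ℂ) (z : Fin (2 * n + 1) → ℂ) :
    ∃ P : Polynomial ℂ, P.natDegree ≤ 2 * n + 2 ∧ ∀ x, P.eval x = S2 n Ψ Ψ' x x2 y1 y2 z := by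
  unfold S2
  refine Y3_sum_poly _ fun σ τ => ?_
  have h1 := Y3_eval_poly (Ψ σ) 0 (2 * n + 2) (h.deg σ 0)
    (Fin.cons 0 (Fin.cons x2 z : Fin (2 * n + 2) → ℂ) : Fin (2 * n + 3) → ℂ)
  have h2 := Y3_mul_poly (pr4 0 1 σ τ * eval (Fin.cons y1 (Fin.cons y2 z : Fin (2 * n + 2) → ℂ) :
    Fin (2 * n + 3) → ℂ) (Ψ' τ)) _ h1
  obtain ⟨Q, hQ, hQ'⟩ := h2
  refine ⟨Q, hQ, fun t => ?_⟩
  rw [hQ', Fin.update_cons_zero]
  ring

theorem S3_deg (n : ℕ) (Ψ : Pat (2 * n + 1) → MvPolynomial (Fin (2 * n + 1)) ℂ)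
    (Ψ' : Pat (2 * n + 3) → MvPolynomial (Fin (2 * n + 3)) ℂ)
    (h' : PsiSpec (q ^ 2) (n + 1) Ψ') (x y1 y2 : ℂ) (z : Fin (2 * n) → ℂ) :
    ∃ P : Polynomial ℂ, P.natDegree ≤ 2 * n + 2 ∧ ∀ y, P.eval y = S3 n Ψ Ψ' x y1 y2 y z := by
  unfold S3
  refine Y3_sum_poly _ fun σ τ => ?_
  have h1 := Y3_eval_poly (Ψ' τ) (Fin.succ (Fin.succ (0 : Fin (2 * n + 1)))) (2 * n + 2)
    (h'.deg τ _) (Fin.cons y1 (Fin.cons y2 (Fin.cons 0 z : Fin (2 * n + 1) → ℂ) :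
        Fin (2 * n + 2) → ℂ) : Fin (2 * n + 3) → ℂ)
  have h2 := Y3_mul_poly (pr4 1 2 (ins σ) τ * eval (Fin.cons x z : Fin (2 * n + 1) → ℂ) (Ψ σ)) _ h1
  obtain ⟨Q, hQ, hQ'⟩ := h2
  refine ⟨Q, hQ, fun t => ?_⟩
  rw [hQ', ← Fin.cons_update, ← Fin.cons_update, Fin.update_cons_zero]

theorem S2_cont (n : ℕ) (Ψ Ψ' : Pat (2 * n + 3) → MvPolynomial (Fin (2 * n + 3)) ℂ) :
    Continuous (fun p : (Fin 4 → ℂ) × (Fin (2 * n + 1) → ℂ) =>
      S2 n Ψ Ψ' (p.1 0) (p.1 1) (p.1 2) (p.1 3) p.2) := by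
  unfold S2
  refine continuous_finsetSum _ fun σ _ => continuous_finsetSum _ fun τ _ => ?_
  have c : ∀ i : Fin 4, Continuous (fun p : (Fin 4 → ℂ) × (Fin (2 * n + 1) → ℂ) => p.1 i) :=
    fun i => (continuous_apply i).comp continuous_fst
  have e : ∀ i j : Fin 4, Continuous (fun p : (Fin 4 → ℂ) × (Fin (2 * n + 1) → ℂ) =>
      (Fin.cons (p.1 i) (Fin.cons (p.1 j) p.2 : Fin (2 * n + 2) → ℂ) : Fin (2 * n + 3) → ℂ)) :=
    fun i j => (c i).finCons ((c j).finCons continuous_snd)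
  exact (continuous_const.mul ((MvPolynomial.continuous_eval _).comp (e 0 1))).mul
    ((MvPolynomial.continuous_eval _).comp (e 2 3))

theorem S3_cont (n : ℕ) (Ψ : Pat (2 * n + 1) → MvPolynomial (Fin (2 * n + 1)) ℂ)
    (Ψ' : Pat (2 * n + 3) → MvPolynomial (Fin (2 * n + 3)) ℂ) :
    Continuous (fun p : (Fin 4 → ℂ) × (Fin (2 * n) → ℂ) =>
      S3 n Ψ Ψ' (p.1 0) (p.1 1) (p.1 2) (p.1 3) p.2) := by
  unfold S3
  refine continuous_finsetSum _ fun σ _ => continuous_finsetSum _ fun τ _ => ?_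
  have c : ∀ i : Fin 4, Continuous (fun p : (Fin 4 → ℂ) × (Fin (2 * n) → ℂ) => p.1 i) :=
    fun i => (continuous_apply i).comp continuous_fst
  exact (continuous_const.mul ((MvPolynomial.continuous_eval _).comp
      ((c 0).finCons continuous_snd))).mul
    ((MvPolynomial.continuous_eval _).comp
      ((c 1).finCons ((c 2).finCons ((c 3).finCons continuous_snd))))

end forms

end Pool.Agent.H988R3
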