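import Pool.Agent.H988R3.Defs4
import Pool.Agent.H974R3.Alt

/-!
# The four-leg function: bialternant formula, symmetry, continuity (task H1)
-/

namespace Pool.Agent.H988R3
open Equiv Pool.Agent.H974R3 Pool.Agent.H974R3.AltAux

theorem H1hsym_coeff (v : List ℂ) (k : ℕ) : hsym v k = PowerSeries.coeff k (Hs v) := by
  induction v generalizing k with
  | nil => simp [hsym, Hs, PowerSeries.coeff_one]
  | cons u v ih =>
    rw [Hs_cons, PowerSeries.coeff_mul, Finset.Nat.sum_antidiagonal_eq_sum_range_succ
      (fun x y => PowerSeries.coeff x (geo u) * PowerSeries.coeff y (Hs v))]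
    simp only [hsym]
    apply Finset.sum_congr rfl
    intro i _
    rw [ih]
    simp [geo]

theorem H1hsym_perm {v v' : List ℂ} (h : v.Perm v') (k : ℕ) : hsym v k = hsym v' k := by
  rw [H1hsym_coeff, H1hsym_coeff, Hs_perm h]

theorem H1hsym_zero (v : List ℂ) : hsym v 0 = 1 := by
  induction v with
  | nil => simp [hsym]
  | cons u v ih => simp [hsym, ih]

theorem HH_permv (v v' w : List ℂ) (h : v.Perm v') : HH v w = HH v' w := by
  unfold HH
  rw [h.length_eq]
  congr 1
  unfold HMat
  ext r e
  simp only [Matrix.of_apply]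
  rw [H1hsym_perm h]

theorem HH_permw (v w w' : List ℂ) (h : w.Perm w') : HH v w = HH v w' := by
  unfold HH
  rw [h.length_eq]
  congr 1
  unfold HMat
  ext r e
  simp only [Matrix.of_apply]
  rw [H1hsym_perm h]

theorem HH_nil (a b c d : ℂ) : HH [a, b, c, d] [] = 1 := by
  unfold HH HMat
  rw [Matrix.det_of_isUpperTriangular]
  · apply Finset.prod_eq_one
    intro k _
    have hk : (k : ℕ) < 4 := k.isLt
    simp only [Matrix.of_apply, List.length_cons, List.length_nil]
    rw [if_pos (by omega), if_pos (le_refl _), Nat.sub_self, H1hsym_zero]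
  · intro r e hre
    have h1 : (e : ℕ) < r := hre
    have hr : (r : ℕ) < 4 := r.isLt
    simp only [Matrix.of_apply, List.length_cons, List.length_nil]
    rw [if_pos (by omega), if_neg (by omega)]

theorem H1hsym_cont (N k : ℕ) : Continuous (fun z : Fin N → ℂ => hsym (List.ofFn z) k) := by
  induction N generalizing k with
  | zero => simp only [List.ofFn_zero]; exact continuous_const
  | succ N ih =>
    simp only [List.ofFn_succ, hsym]
    apply continuous_finsetSum
    intro i _
    apply Continuous.mul
    · exact (continuous_apply 0).pow i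
    · exact (ih (k - i)).comp (continuous_pi fun j => continuous_apply _)

theorem HH_cont (N M : ℕ) : Continuous (fun p : (Fin N → ℂ) × (Fin M → ℂ) =>
    HH (List.ofFn p.1) (List.ofFn p.2)) := by
  have h : (fun p : (Fin N → ℂ) × (Fin M → ℂ) => HH (List.ofFn p.1) (List.ofFn p.2))
      = fun p : (Fin N → ℂ) × (Fin M → ℂ) =>
        (HMat N M (List.ofFn p.1) (List.ofFn p.2)).det := by
    funext p
    unfold HH
    rw [List.length_ofFn, List.length_ofFn]
  rw [h]
  apply Continuous.matrix_det
  apply continuous_matrix
  intro r e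
  unfold HMat
  simp only [Matrix.of_apply]
  split_ifs
  · exact (H1hsym_cont N _).comp continuous_fst
  · exact continuous_const
  · exact (H1hsym_cont M _).comp continuous_snd
  · exact continuous_const

/-- row transformation matrix -/
theorem H1exists_A {N : ℕ} (v : Fin N → ℂ) : ∃ A : Matrix (Fin N) (Fin N) ℂ,
    A.det = (Matrix.vandermonde v).det ∧
    ∀ (i : Fin N) (n : ℕ), v i ^ n = ∑ k : Fin N, A i k *
      (if (k : ℕ) ≤ n then hsym (List.ofFn v) (n - k) else 0) := by
  classical
  set P : Fin N → Polynomial ℂ := fun i => ∏ j ∈ Finset.univ.erase i,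
    (1 - Polynomial.C (v j) * Polynomial.X) with hP
  have hPdeg : ∀ i, (P i).natDegree < N := by
    intro i
    have h1 : (P i).natDegree ≤ ∑ j ∈ Finset.univ.erase i, 1 := by
      refine (Polynomial.natDegree_prod_le _ _).trans (Finset.sum_le_sum ?_)
      intro j _
      compute_degree
    have h2 : ∑ j ∈ Finset.univ.erase i, 1 = N - 1 := by simp
    have h3 : 0 < N := i.pos
    omega
  have hH : Hs (List.ofFn v) = ∏ j, geo (v j) := by
    unfold Hs
    rw [List.map_ofFn, List.prod_ofFn]
    rfl
  have hPH : ∀ i, (P i : PowerSeries ℂ) * Hs (List.ofFn v) = geo (v i) := by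
    intro i
    rw [hH, ← Finset.mul_prod_erase _ _ (Finset.mem_univ i)]
    have h1 : (P i : PowerSeries ℂ) * ∏ j ∈ Finset.univ.erase i, geo (v j) = 1 := by
      have h2 : (P i : PowerSeries ℂ) = ∏ j ∈ Finset.univ.erase i,
          (1 - PowerSeries.C (v j) * PowerSeries.X) := by
        rw [hP]
        change Polynomial.coeToPowerSeries.ringHom (R := ℂ) (∏ j ∈ Finset.univ.erase i,
          (1 - Polynomial.C (v j) * Polynomial.X)) = _
        rw [map_prod]
        apply Finset.prod_congr rfl
        intro j _
        simp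
      rw [h2, ← Finset.prod_mul_distrib]
      apply Finset.prod_eq_one
      intro j _
      rw [mul_comm, geo_mul]
    calc (P i : PowerSeries ℂ) * (geo (v i) * ∏ j ∈ Finset.univ.erase i, geo (v j))
        = geo (v i) * ((P i : PowerSeries ℂ) * ∏ j ∈ Finset.univ.erase i, geo (v j)) := by ring
      _ = geo (v i) := by rw [h1, mul_one]
  have hent : ∀ (i : Fin N) (n : ℕ), v i ^ n = ∑ k : Fin N, (P i).coeff k *
      (if (k : ℕ) ≤ n then hsym (List.ofFn v) (n - k) else 0) := by
    intro i n
    simp only [H1hsym_coeff]
    have h1 : v i ^ n = PowerSeries.coeff n ((P i : PowerSeries ℂ) * Hs (List.ofFn v)) := by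
      rw [hPH]; simp [geo]
    rw [h1, PowerSeries.coeff_mul, Finset.Nat.sum_antidiagonal_eq_sum_range_succ
      (fun x y => PowerSeries.coeff x (P i : PowerSeries ℂ) *
        PowerSeries.coeff y (Hs (List.ofFn v)))]
    have h2 : ∑ k : Fin N, (P i).coeff k *
      (if (k : ℕ) ≤ n then PowerSeries.coeff (n - k) (Hs (List.ofFn v)) else 0)
      = ∑ k ∈ Finset.range N, (P i).coeff k *
      (if k ≤ n then PowerSeries.coeff (n - k) (Hs (List.ofFn v)) else 0) := by
      rw [Finset.sum_range]
    rw [h2]
    set T := max N (n + 1) with hT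
    have e1 : ∑ k ∈ Finset.range N, (P i).coeff k *
      (if k ≤ n then PowerSeries.coeff (n - k) (Hs (List.ofFn v)) else 0)
      = ∑ k ∈ Finset.range T, (P i).coeff k *
      (if k ≤ n then PowerSeries.coeff (n - k) (Hs (List.ofFn v)) else 0) := by
      apply Finset.sum_subset
      · intro k hk
        rw [Finset.mem_range] at hk ⊢
        omega
      · intro k _ hk
        rw [Finset.mem_range] at hk
        rw [Polynomial.coeff_eq_zero_of_natDegree_lt (by have := hPdeg i; omega), zero_mul]
    have e2 : ∑ k ∈ Finset.range n.succ, PowerSeries.coeff k (P i : PowerSeries ℂ) *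
        PowerSeries.coeff (n - k) (Hs (List.ofFn v))
      = ∑ k ∈ Finset.range T, (P i).coeff k *
      (if k ≤ n then PowerSeries.coeff (n - k) (Hs (List.ofFn v)) else 0) := by
      have e3 : ∑ k ∈ Finset.range n.succ, PowerSeries.coeff k (P i : PowerSeries ℂ) *
        PowerSeries.coeff (n - k) (Hs (List.ofFn v))
        = ∑ k ∈ Finset.range n.succ, (P i).coeff k *
      (if k ≤ n then PowerSeries.coeff (n - k) (Hs (List.ofFn v)) else 0) := by
        apply Finset.sum_congr rfl
        intro k hk
        rw [Finset.mem_range] at hk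
        rw [if_pos (by omega), Polynomial.coeff_coe]
      rw [e3]
      apply Finset.sum_subset
      · intro k hk
        rw [Finset.mem_range] at hk ⊢
        omega
      · intro k _ hk
        rw [Finset.mem_range] at hk
        rw [if_neg (by omega), mul_zero]
    rw [e1, e2]
  refine ⟨Matrix.of fun i k : Fin N => (P i).coeff k, ?_, ?_⟩
  · have hmat : (Matrix.vandermonde v) = (Matrix.of fun i k : Fin N => (P i).coeff k) *
        (Matrix.of fun k j : Fin N => if (k : ℕ) ≤ j then hsym (List.ofFn v) (j - k) else 0) := by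
      ext i j
      rw [Matrix.mul_apply, Matrix.vandermonde_apply]
      simp only [Matrix.of_apply]
      exact hent i j
    have h2 : (Matrix.of fun k j : Fin N =>
        if (k : ℕ) ≤ j then hsym (List.ofFn v) (j - k) else 0).det = 1 := by
      rw [Matrix.det_of_isUpperTriangular]
      · apply Finset.prod_eq_one
        intro k _
        simp only [Matrix.of_apply, le_refl, if_true, Nat.sub_self]
        exact H1hsym_zero _
      · intro k j hkj
        simp only [Matrix.of_apply]
        rw [if_neg]
        have : (j : ℕ) < k := hkj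
        omega
    rw [hmat, Matrix.det_mul, h2, mul_one]
  · intro i n
    simp only [Matrix.of_apply]
    exact hent i n

/-- generic bialternant formula -/
theorem HH_bialt (N M : ℕ) (v : Fin N → ℂ) (w s : Fin M → ℂ) (hs : ∀ j, s j ^ 3 = w j) :
    Matrix.det (Matrix.of fun r e : Fin (N + M) =>
        if h : r.val < N then v ⟨r.val, h⟩ ^ e.val
        else if e.val % 3 = 0 then s ⟨r.val - N, by omega⟩ ^ e.val else 0)
      = (Matrix.vandermonde v).det * (Matrix.vandermonde w).det
        * HH (List.ofFn v) (List.ofFn w) := by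
  classical
  obtain ⟨A, hA, hAe⟩ := H1exists_A v
  obtain ⟨B, hB, hBe⟩ := H1exists_A w
  have hHH : HH (List.ofFn v) (List.ofFn w) = (HMat N M (List.ofFn v) (List.ofFn w)).det := by
    unfold HH
    rw [List.length_ofFn, List.length_ofFn]
  rw [hHH, ← hA, ← hB]
  have hblock : (Matrix.reindex finSumFinEquiv finSumFinEquiv
      (Matrix.fromBlocks A 0 0 B)).det = A.det * B.det := by
    rw [Matrix.det_reindex_self, Matrix.det_fromBlocks_zero₂₁]
  rw [← hblock, ← Matrix.det_mul]
  congr 1
  ext r e
  rw [Matrix.mul_apply, ← finSumFinEquiv.sum_comp, Fintype.sum_sum_type]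
  obtain ⟨x, rfl⟩ := finSumFinEquiv.surjective r
  simp only [Matrix.reindex_apply, Matrix.submatrix_apply, Equiv.symm_apply_apply, Matrix.of_apply]
  rcases x with i | i
  · simp only [finSumFinEquiv_apply_left, finSumFinEquiv_apply_right, Matrix.fromBlocks_apply₁₁,
      Matrix.fromBlocks_apply₁₂, Matrix.zero_apply, zero_mul, Finset.sum_const_zero, add_zero]
    rw [dif_pos (by simp : (Fin.castAdd M i).val < N)]
    have : (⟨(Fin.castAdd M i).val, by simp⟩ : Fin N) = i := by ext; simp
    rw [this, hAe i e.val]
    apply Finset.sum_congr rfl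
    intro k _
    unfold HMat
    simp only [Matrix.of_apply, Fin.val_castAdd]
    rw [if_pos k.isLt]
  · simp only [finSumFinEquiv_apply_left, finSumFinEquiv_apply_right, Matrix.fromBlocks_apply₂₁,
      Matrix.fromBlocks_apply₂₂, Matrix.zero_apply, zero_mul, Finset.sum_const_zero, zero_add]
    rw [dif_neg (by simp : ¬ (Fin.natAdd N i).val < N)]
    have : (⟨(Fin.natAdd N i).val - N, by simp⟩ : Fin M) = i := by ext; simp
    rw [this]
    by_cases he : e.val % 3 = 0
    · rw [if_pos he]
      have h1 : s i ^ e.val = w i ^ (e.val / 3) := by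
        rw [← hs i, ← pow_mul]
        congr 1
        omega
      rw [h1, hBe i (e.val / 3)]
      apply Finset.sum_congr rfl
      intro k _
      unfold HMat
      simp only [Matrix.of_apply, Fin.val_natAdd]
      have h3 : ¬ (N + (k : ℕ) < N) := by omega
      rw [if_neg h3]
      congr 1
      have h2 : N + (k : ℕ) - N = k := by omega
      rw [h2]
      by_cases hk : (k : ℕ) ≤ e.val / 3
      · rw [if_pos hk, if_pos ⟨he, hk⟩]
      · rw [if_neg hk, if_neg (fun h => hk h.2)]
    · rw [if_neg he]
      symm
      apply Finset.sum_eq_zero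
      intro k _
      unfold HMat
      simp only [Matrix.of_apply, Fin.val_natAdd]
      have h3 : ¬ (N + (k : ℕ) < N) := by omega
      rw [if_neg h3, if_neg (fun h => he h.1), mul_zero]

end Pool.Agent.H988R3
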