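import Pool.Agent.H988R3.Defs4
import Pool.Agent.H974R3.Alt

/-!
# Task H2: degree of the four-leg function in one variable
-/

namespace Pool.Agent.H988R3
open Equiv MvPolynomial Pool.Agent.H974R3

lemma H2_hsym_zero (l : List ℂ) : hsym l 0 = 1 := by
  induction l with
  | nil => simp [hsym]
  | cons u v ih => simp [hsym, ih]

lemma H2_hsym_succ (u : ℂ) (v : List ℂ) (k : ℕ) :
    hsym (u :: v) (k + 1) = hsym v (k + 1) + u * hsym (u :: v) k := by
  rw [hsym, hsym, Finset.sum_range_succ', Finset.mul_sum]
  rw [add_comm]
  congr 1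
  · simp
  · refine Finset.sum_congr rfl fun i _ => ?_
    rw [pow_succ, Nat.add_sub_add_right]
    ring

theorem HH_deg (v w : List ℂ) (h : v.length = 2 * w.length + 3) :
    ∃ P : Polynomial ℂ, P.natDegree ≤ w.length ∧ ∀ x, P.eval x = HH (x :: v) w := by
  classical
  set N := v.length + 1 with hN
  set M := w.length with hM
  -- the entries of the second block
  let c : ℕ → ℕ → ℂ := fun r e =>
    if e % 3 = 0 ∧ r - N ≤ e / 3 then hsym w (e / 3 - (r - N)) else 0
  let Pm : Matrix (Fin (N + M)) (Fin (N + M)) (Polynomial ℂ) := Matrix.of fun r e =>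
    if r.val < N then Polynomial.C (if r.val ≤ e.val then hsym v (e.val - r.val) else 0)
    else Polynomial.C (c r.val e.val) -
      Polynomial.X * Polynomial.C (if 1 ≤ e.val then c r.val (e.val - 1) else 0)
  refine ⟨Pm.det, ?_, ?_⟩
  · rw [Matrix.det_apply]
    apply Polynomial.natDegree_sum_le_of_forall_le
    intro σ _
    refine (Polynomial.natDegree_smul_le _ _).trans ?_
    refine (Polynomial.natDegree_prod_le _ _).trans ?_
    have hterm : ∀ k ∈ (Finset.univ : Finset (Fin (N + M))),
        (Pm (σ k) k).natDegree ≤ if (σ k).val < N then 0 else 1 := by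
      intro k _
      simp only [Pm, Matrix.of_apply]
      by_cases hk : (σ k).val < N
      · rw [if_pos hk, if_pos hk, Polynomial.natDegree_C]
      · rw [if_neg hk, if_neg hk]
        refine (Polynomial.natDegree_sub_le _ _).trans ?_
        rw [Polynomial.natDegree_C]
        refine max_le (Nat.zero_le _) ?_
        refine (Polynomial.natDegree_mul_le).trans ?_
        rw [Polynomial.natDegree_C, Polynomial.natDegree_X]
    refine (Finset.sum_le_sum hterm).trans ?_
    rw [Equiv.sum_comp σ (fun r : Fin (N + M) => if r.val < N then 0 else 1)]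
    rw [Fin.sum_univ_add]
    have h1 : ∀ i : Fin N, (if (Fin.castAdd M i).val < N then 0 else 1) = 0 := fun i => by
      rw [if_pos]; simp
    have h2 : ∀ i : Fin M, (if (Fin.natAdd N i).val < N then 0 else 1) = 1 := fun i => by
      rw [if_neg]; simp
    simp only [h1, h2]
    simp
  · intro x
    have hHH : HH (x :: v) w = (HMat N M (x :: v) w * AltAux.Us (N + M) 1 x).det := by
      rw [Matrix.det_mul, AltAux.Us_det _ _ le_rfl, mul_one]
      rfl
    rw [hHH, ← Polynomial.coe_evalRingHom, RingHom.map_det]
    congr 1
    ext r e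
    rw [AltAux.mul_Us _ _ le_rfl, RingHom.mapMatrix_apply, Matrix.map_apply,
      Polynomial.coe_evalRingHom]
    simp only [Pm, HMat, Matrix.of_apply]
    by_cases hr : r.val < N
    · rw [if_pos hr, if_pos hr, Polynomial.eval_C]
      rcases lt_trichotomy r.val e.val with hlt | heq | hgt
      · rw [dif_pos (by omega), if_pos hlt.le, if_pos hlt.le, if_pos (by omega : r.val < N),
          if_pos (by omega : r.val ≤ e.val - 1)]
        obtain ⟨k, hk⟩ : ∃ k, e.val - r.val = k + 1 := ⟨e.val - r.val - 1, by omega⟩
        have hk2 : e.val - 1 - r.val = k := by omega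
        rw [hk, hk2, H2_hsym_succ]
        ring
      · rw [if_pos heq.le, if_pos heq.le, heq, Nat.sub_self, H2_hsym_zero, H2_hsym_zero]
        split_ifs <;> first | (exfalso; omega) | simp
      · rw [if_neg (by omega), if_neg (by omega)]
        split_ifs <;> first | (exfalso; omega) | simp
    · rw [if_neg hr, if_neg hr, Polynomial.eval_sub, Polynomial.eval_mul, Polynomial.eval_X,
        Polynomial.eval_C, Polynomial.eval_C]
      congr 2
      by_cases he : 1 ≤ e.val
      · rw [if_pos he, dif_pos he, if_neg hr]
      · rw [if_neg he, dif_neg he]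

end Pool.Agent.H988R3
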