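import Pool.Agent.H988R3.Defs4
import Pool.Agent.H974R3.Alt

/-!
# The recursion of the four-leg function (helper357)

Direct proof, without any genericity: the rows of `HMat` are (truncated) power series
`X^r * H_v` and `X^(3k) * G_w(X^3)`; multiplication of all rows by a power series with constant
term `1` does not change the determinant.
-/

set_option autoImplicit false
set_option maxHeartbeats 400000

namespace Pool.Agent.H988R3
open Equiv Pool.Agent.H974R3 Pool.Agent.H974R3.AltAux

noncomputable section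

namespace H3Aux

/-- determinant of the matrix whose rows are the truncations of the power series `r i` -/
def DD (n : ℕ) (r : ℕ → PowerSeries ℂ) : ℂ :=
  Matrix.det (Matrix.of fun i e : Fin n => PowerSeries.coeff (e : ℕ) (r (i : ℕ)))

lemma DD_congr (n : ℕ) (r r' : ℕ → PowerSeries ℂ)
    (h : ∀ i < n, ∀ e < n, PowerSeries.coeff e (r i) = PowerSeries.coeff e (r' i)) :
    DD n r = DD n r' := by
  unfold DD
  congr 1
  ext i e
  exact h i i.isLt e e.isLt

lemma DD_mul (n : ℕ) (r : ℕ → PowerSeries ℂ) (U : PowerSeries ℂ) (hU : PowerSeries.coeff 0 U = 1) :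
    DD n (fun i => r i * U) = DD n r := by
  classical
  let T : Matrix (Fin n) (Fin n) ℂ := Matrix.of fun k e : Fin n =>
    if (k : ℕ) ≤ e then PowerSeries.coeff ((e : ℕ) - k) U else 0
  have hT : T.det = 1 := by
    rw [Matrix.det_of_isUpperTriangular]
    · apply Finset.prod_eq_one
      intro k _
      simp only [T, Matrix.of_apply, le_refl, if_true, Nat.sub_self]
      exact hU
    · intro k j hkj
      have : (j : ℕ) < k := hkj
      simp only [T, Matrix.of_apply]
      rw [if_neg (by omega)]
  have : (Matrix.of fun i e : Fin n => PowerSeries.coeff (e : ℕ) (r (i : ℕ) * U))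
      = (Matrix.of fun i e : Fin n => PowerSeries.coeff (e : ℕ) (r (i : ℕ))) * T := by
    ext i e
    rw [Matrix.mul_apply]
    simp only [T, Matrix.of_apply]
    rw [PowerSeries.coeff_mul, Finset.Nat.sum_antidiagonal_eq_sum_range_succ
      (fun x y => PowerSeries.coeff x (r (i : ℕ)) * PowerSeries.coeff y U)]
    have h1 := Finset.sum_range (n := n) (fun k => PowerSeries.coeff k (r (i : ℕ)) *
        (if k ≤ (e : ℕ) then PowerSeries.coeff ((e : ℕ) - k) U else 0))
    rw [← h1]
    have h2 : Finset.range (e : ℕ).succ ⊆ Finset.range n := by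
      intro x hx
      rw [Finset.mem_range] at *
      have := e.isLt
      omega
    rw [← Finset.sum_subset h2]
    · apply Finset.sum_congr rfl
      intro k hk
      rw [Finset.mem_range] at hk
      rw [if_pos (by omega)]
    · intro k _ hk
      rw [Finset.mem_range] at hk
      rw [if_neg (by omega), mul_zero]
  unfold DD
  rw [this, Matrix.det_mul, hT, mul_one]

/-- block triangular -/
lemma DD_block (a b : ℕ) (r : ℕ → PowerSeries ℂ)
    (h : ∀ i < a, ∀ e, a ≤ e → PowerSeries.coeff e (r i) = 0) :
    DD (a + b) r = DD a r *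
      Matrix.det (Matrix.of fun i e : Fin b => PowerSeries.coeff (a + (e : ℕ)) (r (a + (i : ℕ)))) := by
  classical
  unfold DD
  rw [← Matrix.det_submatrix_equiv_self (finSumFinEquiv (m := a) (n := b))]
  have : (Matrix.of fun i e : Fin (a + b) => PowerSeries.coeff (e : ℕ) (r (i : ℕ))).submatrix
      (finSumFinEquiv (m := a) (n := b)) (finSumFinEquiv (m := a) (n := b))
      = Matrix.fromBlocks
        (Matrix.of fun i e : Fin a => PowerSeries.coeff (e : ℕ) (r (i : ℕ)))
        0
        (Matrix.of fun (i : Fin b) (e : Fin a) => PowerSeries.coeff (e : ℕ) (r (a + (i : ℕ))))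
        (Matrix.of fun i e : Fin b => PowerSeries.coeff (a + (e : ℕ)) (r (a + (i : ℕ)))) := by
    ext i e
    rcases i with i | i <;> rcases e with e | e
    · simp
    · simp only [Matrix.submatrix_apply, finSumFinEquiv_apply_left, finSumFinEquiv_apply_right,
        Matrix.of_apply, Matrix.fromBlocks_apply₁₂, Matrix.zero_apply, Fin.val_castAdd,
        Fin.val_natAdd]
      exact h i i.isLt _ (by omega)
    · simp
    · simp
  rw [this, Matrix.det_fromBlocks_zero₁₂]

/-- row operation -/
lemma DD_row (n p : ℕ) (hp : p < n) (r : ℕ → PowerSeries ℂ) (c : ℕ → ℂ) (hc : c p = 1) :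
    DD n (fun i => if i = p then ∑ k ∈ Finset.range n, PowerSeries.C (c k) * r k else r i)
      = DD n r := by
  classical
  unfold DD
  set A : Matrix (Fin n) (Fin n) ℂ :=
    Matrix.of fun i e : Fin n => PowerSeries.coeff (e : ℕ) (r (i : ℕ)) with hA
  have h1 := Matrix.det_updateRow_sum A ⟨p, hp⟩ (fun k => c k)
  simp only [hc, one_smul] at h1
  rw [← h1]
  congr 1
  ext i e
  rw [Matrix.updateRow_apply]
  simp only [Matrix.of_apply]
  by_cases hi : i = ⟨p, hp⟩
  · rw [if_pos hi, if_pos (by rw [hi])]
    rw [map_sum]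
    simp only [PowerSeries.coeff_C_mul]
    rw [Finset.sum_range, Finset.sum_apply]
    apply Finset.sum_congr rfl
    intro k _
    simp [hA]
  · rw [if_neg hi, if_neg (fun h => hi (Fin.ext h))]
    rfl

/-! ### the elementary factors -/

/-- `∏ (1 - u X)` -/
def Ev (v : List ℂ) : PowerSeries ℂ := (v.map fun u => 1 - PowerSeries.C u * PowerSeries.X).prod

lemma Ev_cons (u : ℂ) (v : List ℂ) : Ev (u :: v) = (1 - PowerSeries.C u * PowerSeries.X) * Ev v := by
  simp [Ev]

lemma Hs_mul_Ev (v : List ℂ) : Hs v * Ev v = 1 := by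
  induction v with
  | nil => simp [Hs, Ev]
  | cons u v ih =>
    rw [Hs_cons, Ev_cons]
    calc geo u * Hs v * ((1 - PowerSeries.C u * PowerSeries.X) * Ev v)
        = (geo u * (1 - PowerSeries.C u * PowerSeries.X)) * (Hs v * Ev v) := by ring
      _ = 1 := by rw [geo_mul, ih, one_mul]

lemma coeff_lin_mul (u : ℂ) (F : PowerSeries ℂ) (m : ℕ) :
    PowerSeries.coeff (m + 1) ((1 - PowerSeries.C u * PowerSeries.X) * F)
      = PowerSeries.coeff (m + 1) F - u * PowerSeries.coeff m F := by
  have : (1 - PowerSeries.C u * PowerSeries.X) * F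
      = F - PowerSeries.C u * F * PowerSeries.X := by ring
  rw [this, map_sub, PowerSeries.coeff_succ_mul_X, PowerSeries.coeff_C_mul]

lemma coeff_zero_lin_mul (u : ℂ) (F : PowerSeries ℂ) :
    PowerSeries.coeff 0 ((1 - PowerSeries.C u * PowerSeries.X) * F)
      = PowerSeries.coeff 0 F := by
  have : (1 - PowerSeries.C u * PowerSeries.X) * F
      = F - PowerSeries.C u * F * PowerSeries.X := by ring
  rw [this, map_sub, PowerSeries.coeff_zero_mul_X, sub_zero]

lemma Ev_coeff_zero (v : List ℂ) : PowerSeries.coeff 0 (Ev v) = 1 := by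
  induction v with
  | nil => simp [Ev]
  | cons u v ih => rw [Ev_cons, coeff_zero_lin_mul, ih]

lemma Ev_coeff_large (v : List ℂ) : ∀ m, v.length < m → PowerSeries.coeff m (Ev v) = 0 := by
  induction v with
  | nil =>
    intro m hm
    simp only [Ev, List.map_nil, List.prod_nil]
    rw [PowerSeries.coeff_one, if_neg (by simp at hm; omega)]
  | cons u v ih =>
    intro m hm
    simp only [List.length_cons] at hm
    obtain ⟨k, rfl⟩ : ∃ k, m = k + 1 := ⟨m - 1, by omega⟩
    rw [Ev_cons, coeff_lin_mul, ih _ (by omega), ih _ (by omega)]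
    ring

lemma Ev_geo (x : ℂ) (v : List ℂ) : ∀ d, PowerSeries.coeff (v.length + d) (Ev v * geo x)
    = x ^ d * (v.map fun u => x - u).prod := by
  induction v with
  | nil =>
    intro d
    simp [Ev, geo]
  | cons u v ih =>
    intro d
    have h1 : (u :: v).length + d = (v.length + d) + 1 := by simp; omega
    rw [h1, Ev_cons, mul_assoc, coeff_lin_mul, add_assoc, ih, ih, List.map_cons, List.prod_cons]
    ring

/-! ### the complete symmetric functions -/

lemma hsym_zero (v : List ℂ) : hsym v 0 = 1 := by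
  induction v with
  | nil => simp [hsym]
  | cons u v ih => simp [hsym, ih]

lemma hsym_succ (u : ℂ) (v : List ℂ) (k : ℕ) :
    hsym (u :: v) (k + 1) = hsym v (k + 1) + u * hsym (u :: v) k := by
  simp only [hsym]
  rw [Finset.sum_range_succ', Finset.mul_sum]
  simp only [pow_zero, one_mul, Nat.sub_zero]
  rw [add_comm]
  congr 1
  apply Finset.sum_congr rfl
  intro i _
  rw [pow_succ]
  have : k + 1 - (i + 1) = k - i := by omega
  rw [this]
  ring

lemma coeff_Hs (v : List ℂ) : ∀ k, PowerSeries.coeff k (Hs v) = hsym v k := by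
  induction v with
  | nil =>
    intro k
    simp only [Hs, List.map_nil, List.prod_nil, hsym]
    rw [PowerSeries.coeff_one]
  | cons u v ih =>
    have h0 : (1 - PowerSeries.C u * PowerSeries.X) * Hs (u :: v) = Hs v := by
      rw [Hs_cons]
      calc (1 - PowerSeries.C u * PowerSeries.X) * (geo u * Hs v)
          = (geo u * (1 - PowerSeries.C u * PowerSeries.X)) * Hs v := by ring
        _ = Hs v := by rw [geo_mul, one_mul]
    intro k
    induction k with
    | zero =>
      have h1 := coeff_zero_lin_mul u (Hs (u :: v))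
      rw [h0, ih, hsym_zero] at h1
      rw [← h1, hsym_zero]
    | succ k ihk =>
      have h1 := coeff_lin_mul u (Hs (u :: v)) k
      rw [h0, ih, ihk] at h1
      rw [hsym_succ]
      linear_combination -h1

/-- `∏ 1/(1 - c X^3)` -/
def Gs (w : List ℂ) : PowerSeries ℂ :=
  PowerSeries.mk fun e => if e % 3 = 0 then hsym w (e / 3) else 0

/-- `1 - c X^3` -/
def cf (c : ℂ) : PowerSeries ℂ := 1 - PowerSeries.C c * PowerSeries.X ^ 3

lemma cf_mul_Gs (c : ℂ) (w : List ℂ) : cf c * Gs (c :: w) = Gs w := by
  ext e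
  have : cf c * Gs (c :: w) = Gs (c :: w) - PowerSeries.C c * (PowerSeries.X ^ 3 * Gs (c :: w)) := by
    unfold cf; ring
  rw [this, map_sub, PowerSeries.coeff_C_mul, PowerSeries.coeff_X_pow_mul']
  simp only [Gs, PowerSeries.coeff_mk]
  by_cases h3 : 3 ≤ e
  · rw [if_pos h3]
    by_cases he : e % 3 = 0
    · rw [if_pos he, if_pos he, if_pos (by omega)]
      obtain ⟨k, hk⟩ : ∃ k, e / 3 = k + 1 := ⟨e / 3 - 1, by omega⟩
      have hk' : (e - 3) / 3 = k := by omega
      rw [hk, hk', hsym_succ]
      ring
    · rw [if_neg he, if_neg he, if_neg (by omega)]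
      ring
  · rw [if_neg h3]
    by_cases he : e % 3 = 0
    · rw [if_pos he, if_pos he]
      have : e / 3 = 0 := by omega
      rw [this, hsym_zero, hsym_zero]
      ring
    · rw [if_neg he, if_neg he]
      ring

/-- `∏ (1 - c X^3)` -/
def Ew (w : List ℂ) : PowerSeries ℂ := (w.map cf).prod

lemma Ew_mul_Gs (w : List ℂ) : Ew w * Gs w = 1 := by
  induction w with
  | nil =>
    ext e
    simp only [Ew, List.map_nil, List.prod_nil, one_mul, Gs, PowerSeries.coeff_mk, hsym,
      PowerSeries.coeff_one]
    by_cases he : e = 0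
    · subst he; simp
    · by_cases h3 : e % 3 = 0
      · rw [if_pos h3, if_neg (by omega), if_neg he]
      · rw [if_neg h3, if_neg he]
  | cons c w ih =>
    have : Ew (c :: w) = cf c * Ew w := by simp [Ew]
    rw [this]
    calc cf c * Ew w * Gs (c :: w) = Ew w * (cf c * Gs (c :: w)) := by ring
      _ = 1 := by rw [cf_mul_Gs, ih]

lemma Ew_sum (w : List ℂ) : ∃ a : ℕ → ℂ, a 0 = 1 ∧
    Ew w = ∑ k ∈ Finset.range (w.length + 1), PowerSeries.C (a k) * PowerSeries.X ^ (3 * k) := by
  induction w with
  | nil => exact ⟨fun _ => 1, rfl, by simp [Ew]⟩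
  | cons c w ih =>
    obtain ⟨a, ha, hE⟩ := ih
    refine ⟨fun k => (if k ≤ w.length then a k else 0) - (if 1 ≤ k then c * a (k - 1) else 0),
      by simp [ha], ?_⟩
    have h1 : Ew (c :: w) = cf c * Ew w := by simp [Ew]
    rw [h1, hE]
    simp only [map_sub, sub_mul, Finset.sum_sub_distrib]
    have h2 : ∑ k ∈ Finset.range ((c :: w).length + 1),
        PowerSeries.C (if k ≤ w.length then a k else 0) * PowerSeries.X ^ (3 * k)
        = ∑ k ∈ Finset.range (w.length + 1), PowerSeries.C (a k) * PowerSeries.X ^ (3 * k) := by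
      rw [List.length_cons, Finset.sum_range_succ, if_neg (by omega)]
      simp only [map_zero, zero_mul, add_zero]
      apply Finset.sum_congr rfl
      intro k hk
      rw [Finset.mem_range] at hk
      rw [if_pos (by omega)]
    have h3 : ∑ k ∈ Finset.range ((c :: w).length + 1),
        PowerSeries.C (if 1 ≤ k then c * a (k - 1) else 0) * PowerSeries.X ^ (3 * k)
        = PowerSeries.C c * PowerSeries.X ^ 3 *
          ∑ k ∈ Finset.range (w.length + 1), PowerSeries.C (a k) * PowerSeries.X ^ (3 * k) := by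
      rw [List.length_cons, Finset.sum_range_succ']
      rw [if_neg (show ¬ (1 ≤ 0) by omega)]
      simp only [Nat.le_add_left, if_true, Nat.add_sub_cancel,
        map_zero, zero_mul, add_zero, map_mul]
      rw [Finset.mul_sum]
      apply Finset.sum_congr rfl
      intro k _
      have : 3 * (k + 1) = 3 + 3 * k := by ring
      rw [this, pow_add]
      ring
    rw [h2, h3]
    unfold cf
    ring

/-! ### the rows of `HMat` -/

/-- rows of `HMat` as power series -/
def rowsH (N : ℕ) (F G : PowerSeries ℂ) (i : ℕ) : PowerSeries ℂ :=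
  if i < N then PowerSeries.X ^ i * F else PowerSeries.X ^ (3 * (i - N)) * G

lemma HH_eq (v w : List ℂ) : HH v w = DD (v.length + w.length) (rowsH v.length (Hs v) (Gs w)) := by
  unfold HH HMat DD
  congr 1
  ext r e
  simp only [Matrix.of_apply, rowsH]
  by_cases hr : (r : ℕ) < v.length
  · rw [if_pos hr, if_pos hr, PowerSeries.coeff_X_pow_mul']
    by_cases h : (r : ℕ) ≤ e
    · rw [if_pos h, if_pos h, coeff_Hs]
    · rw [if_neg h, if_neg h]
  · rw [if_neg hr, if_neg hr, PowerSeries.coeff_X_pow_mul']
    simp only [Gs, PowerSeries.coeff_mk]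
    by_cases h : (e : ℕ) % 3 = 0 ∧ (r : ℕ) - v.length ≤ (e : ℕ) / 3
    · rw [if_pos h, if_pos (by omega), if_pos (by omega)]
      congr 1
      omega
    · rw [if_neg h]
      by_cases h2 : 3 * ((r : ℕ) - v.length) ≤ e
      · rw [if_pos h2, if_neg (by omega)]
      · rw [if_neg h2]

lemma rowsH_mul (N : ℕ) (F G U : PowerSeries ℂ) (i : ℕ) :
    rowsH N F G i * U = rowsH N (F * U) (G * U) i := by
  unfold rowsH
  split_ifs
  · ring
  · ring

lemma DD_lower (n : ℕ) (r : ℕ → PowerSeries ℂ)
    (h : ∀ i < n, ∀ e < n, i < e → PowerSeries.coeff e (r i) = 0) :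
    DD n r = ∏ i ∈ Finset.range n, PowerSeries.coeff i (r i) := by
  unfold DD
  rw [← Matrix.det_transpose, Matrix.det_of_isUpperTriangular]
  · rw [Finset.prod_range]
    rfl
  · intro k j hkj
    have hjk : (j : ℕ) < k := hkj
    simp only [Matrix.transpose_apply, Matrix.of_apply]
    exact h j j.isLt k k.isLt hjk

lemma coeff_X_lin (i : ℕ) (x : ℂ) (e : ℕ) (h : i + 1 < e) :
    PowerSeries.coeff e (PowerSeries.X ^ i * (1 - PowerSeries.C x * PowerSeries.X)) = 0 := by
  rw [PowerSeries.coeff_X_pow_mul', if_pos (by omega)]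
  obtain ⟨k, hk⟩ : ∃ k, e - i = k + 2 := ⟨e - i - 2, by omega⟩
  rw [hk, map_sub, PowerSeries.coeff_succ_mul_X, PowerSeries.coeff_C, PowerSeries.coeff_one]
  simp

/-- the lower right block -/
def Bl (N M : ℕ) (G : PowerSeries ℂ) : ℂ :=
  Matrix.det (Matrix.of fun i e : Fin M =>
    PowerSeries.coeff (N + (e : ℕ)) (PowerSeries.X ^ (3 * (i : ℕ)) * G))

lemma HH_block (v w : List ℂ) : HH v w = Bl v.length w.length (Gs w * Ev v) := by
  rw [HH_eq, ← DD_mul _ _ (Ev v) (Ev_coeff_zero v)]
  simp only [rowsH_mul, Hs_mul_Ev]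
  rw [DD_block]
  · rw [DD_lower]
    · rw [Finset.prod_eq_one]
      · rw [one_mul]
        unfold Bl
        congr 1
        ext i e
        simp only [Matrix.of_apply, rowsH]
        rw [if_neg (by omega), Nat.add_sub_cancel_left]
      · intro i hi
        rw [Finset.mem_range] at hi
        simp only [rowsH]
        rw [if_pos hi, mul_one, PowerSeries.coeff_X_pow, if_pos rfl]
    · intro i hi e _ hie
      simp only [rowsH]
      rw [if_pos hi, mul_one, PowerSeries.coeff_X_pow, if_neg (by omega)]
  · intro i hi e he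
    simp only [rowsH]
    rw [if_pos hi, mul_one, PowerSeries.coeff_X_pow, if_neg (by omega)]

/-- the new rows after the row operation -/
def rowsN (N : ℕ) (x : ℂ) (E G : PowerSeries ℂ) (i : ℕ) : PowerSeries ℂ :=
  if i = N + 2 then E else rowsH (N + 2) (1 - PowerSeries.C x * PowerSeries.X) G i

lemma DD_top (v : List ℂ) (x : ℂ) (G : PowerSeries ℂ) :
    DD (v.length + 3) (rowsN v.length x (Ev v) G)
      = x ^ 2 * (v.map fun u => x - u).prod := by
  rw [← DD_mul _ _ (geo x) (by simp [geo]), DD_lower]
  · rw [Finset.prod_range_succ, Finset.prod_eq_one]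
    · rw [one_mul]
      simp only [rowsN, if_true]
      exact Ev_geo x v 2
    · intro i hi
      rw [Finset.mem_range] at hi
      simp only [rowsN, rowsH]
      rw [if_neg (by omega), if_pos hi, mul_assoc]
      have : (1 - PowerSeries.C x * PowerSeries.X) * geo x = 1 := by
        rw [mul_comm]; exact geo_mul x
      rw [this, mul_one, PowerSeries.coeff_X_pow, if_pos rfl]
  · intro i hi e he hie
    simp only [rowsN, rowsH]
    rw [if_neg (by omega), if_pos (by omega), mul_assoc]
    have : (1 - PowerSeries.C x * PowerSeries.X) * geo x = 1 := by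
      rw [mul_comm]; exact geo_mul x
    rw [this, mul_one, PowerSeries.coeff_X_pow, if_neg (by omega)]

end H3Aux

open H3Aux

theorem HH_recur (q : ℂ) (hq : q ^ 2 + q + 1 = 0) (t : ℂ) (v w : List ℂ)
    (hl : v.length = 2 * w.length + 4) :
    HH (q ^ 2 * t :: t :: v) (t ^ 3 :: w)
      = q ^ 2 * t ^ 2 * (v.map (fun u => u - q * t)).prod * HH v w := by
  have hq3 : q ^ 3 = 1 := by linear_combination (q - 1) * hq
  set N := v.length with hN
  set M := w.length with hM
  have hU : PowerSeries.coeff 0 (Ev v * cf (t ^ 3)) = 1 := by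
    rw [PowerSeries.coeff_zero_eq_constantCoeff_apply, map_mul,
      ← PowerSeries.coeff_zero_eq_constantCoeff_apply, Ev_coeff_zero]
    simp [cf]
  have hF : Hs (q ^ 2 * t :: t :: v) * (Ev v * cf (t ^ 3))
      = 1 - PowerSeries.C (q * t) * PowerSeries.X := by
    rw [Hs_cons, Hs_cons]
    have h1 : cf (t ^ 3) = (1 - PowerSeries.C (q ^ 2 * t) * PowerSeries.X) *
        (1 - PowerSeries.C t * PowerSeries.X) * (1 - PowerSeries.C (q * t) * PowerSeries.X) := by
      unfold cf
      have hqC : (PowerSeries.C q : PowerSeries ℂ) ^ 2 + PowerSeries.C q + 1 = 0 := by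
        have := congrArg (PowerSeries.C (R := ℂ)) hq
        simpa using this
      simp only [map_mul, map_pow]
      linear_combination (PowerSeries.C t * PowerSeries.X
        - (PowerSeries.C q) * (PowerSeries.C t) ^ 2 * PowerSeries.X ^ 2
        + (PowerSeries.C q - 1) * (PowerSeries.C t) ^ 3 * PowerSeries.X ^ 3) * hqC
    rw [h1]
    calc geo (q ^ 2 * t) * (geo t * Hs v) * (Ev v * ((1 - PowerSeries.C (q ^ 2 * t) * PowerSeries.X) *
        (1 - PowerSeries.C t * PowerSeries.X) * (1 - PowerSeries.C (q * t) * PowerSeries.X)))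
        = (geo (q ^ 2 * t) * (1 - PowerSeries.C (q ^ 2 * t) * PowerSeries.X))
          * (geo t * (1 - PowerSeries.C t * PowerSeries.X)) * (Hs v * Ev v)
          * (1 - PowerSeries.C (q * t) * PowerSeries.X) := by ring
      _ = 1 - PowerSeries.C (q * t) * PowerSeries.X := by
          rw [geo_mul, geo_mul, Hs_mul_Ev]; ring
  have hG : Gs (t ^ 3 :: w) * (Ev v * cf (t ^ 3)) = Gs w * Ev v := by
    rw [← cf_mul_Gs (t ^ 3) w]; ring
  have h1 : HH (q ^ 2 * t :: t :: v) (t ^ 3 :: w)
      = DD (N + 3 + M) (rowsH (N + 2) (1 - PowerSeries.C (q * t) * PowerSeries.X) (Gs w * Ev v)) := by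
    rw [HH_eq, ← DD_mul _ _ _ hU]
    simp only [rowsH_mul, hF, hG, List.length_cons]
    congr 1
    omega
  obtain ⟨a, ha, hE⟩ := Ew_sum w
  have h2 : DD (N + 3 + M) (rowsH (N + 2) (1 - PowerSeries.C (q * t) * PowerSeries.X) (Gs w * Ev v))
      = DD (N + 3 + M) (rowsN N (q * t) (Ev v) (Gs w * Ev v)) := by
    rw [← DD_row (N + 3 + M) (N + 2) (by omega) _
      (fun k => if k < N + 2 then 0 else a (k - (N + 2))) (by simp [ha])]
    congr 1
    funext i
    unfold rowsN
    by_cases hi : i = N + 2
    · rw [if_pos hi, if_pos hi]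
      have h3 : N + 3 + M = (N + 2) + (M + 1) := by omega
      rw [h3, Finset.sum_range_add, Finset.sum_eq_zero, zero_add]
      · have h4 : ∀ k ∈ Finset.range (M + 1),
            PowerSeries.C (if N + 2 + k < N + 2 then 0 else a (N + 2 + k - (N + 2))) *
              rowsH (N + 2) (1 - PowerSeries.C (q * t) * PowerSeries.X) (Gs w * Ev v) (N + 2 + k)
            = (PowerSeries.C (a k) * PowerSeries.X ^ (3 * k)) * (Gs w * Ev v) := by
          intro k _
          unfold rowsH
          rw [if_neg (by omega), if_neg (by omega), Nat.add_sub_cancel_left]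
          ring
        rw [Finset.sum_congr rfl h4, ← Finset.sum_mul, ← hE, ← mul_assoc, Ew_mul_Gs, one_mul]
      · intro k hk
        rw [Finset.mem_range] at hk
        rw [if_pos hk, map_zero, zero_mul]
    · rw [if_neg hi, if_neg hi]
  have h3 : DD (N + 3 + M) (rowsN N (q * t) (Ev v) (Gs w * Ev v))
      = DD (N + 3) (rowsN N (q * t) (Ev v) (Gs w * Ev v)) * Bl N M (Gs w * Ev v) := by
    rw [DD_block]
    · congr 1
      unfold Bl
      congr 1
      ext i e
      simp only [Matrix.of_apply, rowsN, rowsH]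
      rw [if_neg (by omega), if_neg (by omega)]
      have e1 : 3 * (N + 3 + (i : ℕ) - (N + 2)) = 3 * (i : ℕ) + 3 := by omega
      rw [e1, PowerSeries.coeff_X_pow_mul', PowerSeries.coeff_X_pow_mul']
      by_cases hc : 3 * (i : ℕ) ≤ N + e
      · rw [if_pos (by omega), if_pos hc]
        have e2 : N + 3 + (e : ℕ) - (3 * (i : ℕ) + 3) = N + (e : ℕ) - 3 * (i : ℕ) := by omega
        rw [e2]
      · rw [if_neg (by omega), if_neg hc]
    · intro i hi e he
      unfold rowsN
      by_cases hi2 : i = N + 2
      · rw [if_pos hi2]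
        exact Ev_coeff_large v e (by omega)
      · rw [if_neg hi2]
        unfold rowsH
        rw [if_pos (by omega)]
        exact coeff_X_lin i _ e (by omega)
  rw [h1, h2, h3, DD_top, HH_block v w]
  have h5 : (v.map fun u => q * t - u).prod = (v.map fun u => u - q * t).prod := by
    have : (v.map fun u => q * t - u) = (v.map fun u => u - q * t).map (fun y => -y) := by
      rw [List.map_map]
      apply List.map_congr_left
      intro u _
      simp
    rw [this, List.prod_map_neg, List.length_map]
    have heven : (-1 : ℂ) ^ v.length = 1 := by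
      rw [← hN, hl]
      exact Even.neg_one_pow ⟨w.length + 2, by omega⟩
    rw [heven, one_mul]
  rw [h5]
  ring

end
end Pool.Agent.H988R3
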