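import Pool.Agent.H988R3.Defs4
import Pool.Agent.H974R3.Pair2

/-!
# Moving a free strand across a small arc (module P4Tri)
-/

set_option maxHeartbeats 400000

namespace Pool.Agent.H988R3
open Equiv Pool.Agent.H974R3

/-- two fixed point free involutions admit an alternating function -/
theorem K2_exists_alt {V : Type*} (s t : Perm V) (hs : ∀ v, s (s v) = v)
    (hsf : ∀ v, s v ≠ v) (ht : ∀ v, t (t v) = v) (htf : ∀ v, t v ≠ v) :
    ∃ h : V → Bool, Alt s t h := by
  classical
  set r : Perm V := s * t with hr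
  have hss : s * s = 1 := by ext v; simp [hs]
  have htt : t * t = 1 := by ext v; simp [ht]
  have hsinv : s⁻¹ = s := inv_eq_of_mul_eq_one_left hss
  have htinv : t⁻¹ = t := inv_eq_of_mul_eq_one_left htt
  have hsemi : SemiconjBy s r r⁻¹ := by
    show s * r = r⁻¹ * s
    rw [hr, mul_inv_rev, hsinv, htinv, ← mul_assoc, hss, one_mul, mul_assoc, hss, mul_one]
  have hz : ∀ (j : ℤ) (x : V), s ((r ^ j) x) = (r ^ (-j)) (s x) := by
    intro j x
    have h1 : s * r ^ j = (r⁻¹) ^ j * s := (hsemi.zpow_right j).eq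
    have h2 := congrArg (fun p : Perm V => p x) h1
    simp only [Perm.mul_apply] at h2
    rw [h2, inv_zpow']
  have hadd : ∀ (i j : ℤ) (x : V), (r ^ i) ((r ^ j) x) = (r ^ (i + j)) x := by
    intro i j x
    rw [zpow_add, Perm.mul_apply]
  have hno : ∀ x : V, ¬ r.SameCycle (s x) x := by
    rintro x ⟨k', hk'⟩
    have hk : s x = (r ^ (-k')) x := by
      have h0 : (r ^ (-k')) ((r ^ k') (s x)) = s x := by
        rw [hadd, neg_add_cancel, zpow_zero, Perm.one_apply]
      rw [hk'] at h0
      exact h0.symm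
    obtain ⟨j, hj | hj⟩ := Int.even_or_odd' (-k')
    · apply hsf ((r ^ j) x)
      rw [hz, hk, hj, hadd]
      congr 2
      ring
    · have h1 : s ((r ^ j) x) = r ((r ^ j) x) := by
        rw [hz, hk, hj, hadd]
        have : r ((r ^ j) x) = (r ^ (1 + j)) x := by rw [← hadd, zpow_one]
        rw [this]
        congr 2
        ring
      have h2 : r ((r ^ j) x) = s (t ((r ^ j) x)) := rfl
      rw [h2] at h1
      exact htf _ (s.injective h1.symm)
  set Q := Quotient (Equiv.Perm.SameCycle.setoid r) with hQ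
  set c : V → Q := fun v => Quotient.mk _ v with hc
  have hcs : ∀ v, c (s v) ≠ c v := fun v h => hno v (Quotient.exact h)
  have hct : ∀ v, c (t v) = c (s v) := by
    intro v
    apply Quotient.sound
    -- s v = r^k (t v) : s v = (s t) (t v) = r (t v)
    refine ⟨1, ?_⟩
    rw [zpow_one]
    show s (t (t v)) = s v
    rw [ht]
  have hcr : ∀ v, c (s (t v)) = c v := by
    intro v
    apply Quotient.sound
    refine ⟨-1, ?_⟩
    show (r ^ (-1 : ℤ)) (r v) = v
    have : r v = (r ^ (1 : ℤ)) v := by rw [zpow_one]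
    rw [this, hadd]; simp
  have hasym : ∀ x y : Q, WellOrderingRel x y → ¬ WellOrderingRel y x := fun x y => asymm
  have htri : ∀ x y : Q, x ≠ y → (WellOrderingRel x y ∨ WellOrderingRel y x) := by
    intro x y hxy
    rcases trichotomous_of WellOrderingRel x y with h | h | h
    · exact Or.inl h
    · exact absurd h hxy
    · exact Or.inr h
  have key : ∀ x y : Q, x ≠ y → decide (WellOrderingRel y x) = !decide (WellOrderingRel x y) := by
    intro x y hxy
    rcases htri x y hxy with h | h
    · simp [h, hasym x y h]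
    · simp [h, hasym y x h]
  refine ⟨fun v => decide (WellOrderingRel (c v) (c (s v))), ?_, ?_⟩
  · intro v
    simp only [hs]
    exact key _ _ (hcs v).symm
  · intro v
    simp only [hcr, hct]
    exact key _ _ (hcs v).symm

/-- strands with equal orientation lie on the same component -/
theorem K2_inv_of_same {V : Type*} {s t : Perm V} (hs : ∀ v, s (s v) = v)
    (hsf : ∀ v, s v ≠ v) (ht : ∀ v, t (t v) = v) (htf : ∀ v, t v ≠ v) {a b : V}
    (h : Same s t a b) (g : V → Bool) (hgs : ∀ v, g (s v) = g v) (hgt : ∀ v, g (t v) = g v) :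
    g a = g b := by
  obtain ⟨f, hf1, hf2⟩ := K2_exists_alt s t hs hsf ht htf
  have h1 := h f ⟨hf1, hf2⟩
  have h2 := h (fun v => xor (f v) (g v)) ⟨fun v => by
    show xor (f (s v)) (g (s v)) = !(xor (f v) (g v))
    rw [hf1, hgs]; cases f v <;> cases g v <;> rfl, fun v => by
    show xor (f (t v)) (g (t v)) = !(xor (f v) (g v))
    rw [hf2, hgt]; cases f v <;> cases g v <;> rfl⟩
  have h3 : xor (f a) (g a) = xor (f b) (g b) := h2
  rw [h1] at h3
  revert h3
  cases f b <;> cases g a <;> cases g b <;> simp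

theorem K2_abs {V : Type*} {sA sB t : Perm V} {a b c P n : V} (hB : ∀ v, sB (sB v) = v)
    (hBf : ∀ v, sB v ≠ v) (ht : ∀ v, t (t v) = v) (htf : ∀ v, t v ≠ v)
    (hAa : sA a = b) (hAb : sA b = a) (hAc : sA c = P) (hAP : sA P = c)
    (hBb : sB b = c) (hBc : sB c = b) (hBa : sB a = P) (hBP : sB P = a)
    (heq : ∀ v, v ≠ a → v ≠ b → v ≠ c → v ≠ P → sA v = sB v)
    (hconn : Conn sA t b n) (hsame : Same sA t b c) : Conn sB t b n ∧ Same sB t b a := by
  have key : Same sB t b a := by
    rintro f ⟨hf1, hf2⟩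
    by_contra hne
    have e1 : f c = !f b := by rw [← hBb, hf1]
    have e2 : f P = !f a := by rw [← hBa, hf1]
    have hA : Alt sA t f := by
      refine ⟨fun v => ?_, hf2⟩
      by_cases h1 : v = a
      · subst h1; rw [hAa]; revert hne; cases f b <;> cases f v <;> simp
      by_cases h2 : v = b
      · subst h2; rw [hAb]; revert hne; cases f a <;> cases f v <;> simp
      by_cases h3 : v = c
      · subst h3; rw [hAc, e1, e2]; revert hne; cases f a <;> cases f b <;> simp
      by_cases h4 : v = P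
      · subst h4; rw [hAP, e1, e2]; revert hne; cases f a <;> cases f b <;> simp
      · rw [heq v h1 h2 h3 h4, hf1]
    have := hsame f hA
    rw [e1] at this
    revert this
    cases f b <;> simp
  refine ⟨?_, key⟩
  intro g hg1 hg2
  have hgb : g b = g a := K2_inv_of_same hB hBf ht htf key g hg1 hg2
  have e1 : g c = g b := by rw [← hBb, hg1]
  have e2 : g P = g a := by rw [← hBa, hg1]
  refine hconn g (fun v => ?_) hg2
  by_cases h1 : v = a
  · subst h1; rw [hAa, hgb]
  by_cases h2 : v = b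
  · subst h2; rw [hAb, hgb]
  by_cases h3 : v = c
  · subst h3; rw [hAc, e1, e2, hgb]
  by_cases h4 : v = P
  · subst h4; rw [hAP, e1, e2, hgb]
  · rw [heq v h1 h2 h3 h4, hg1]

theorem pr4_tri {m : ℕ} (σ : Pat (m + 1)) (τ : Pat (m + 3)) :
    pr4 0 1 (rot (m + 2) (ins (rotInv m σ))) τ = pr4 1 2 (ins σ) τ := by
  have key : P4 0 1 (rot (m + 2) (ins (rotInv m σ))) τ ↔ P4 1 2 (ins σ) τ := by
    unfold P4
    have hBi := (rot (m + 2) (ins (rotInv m σ))).2.inv
    have hBf := (rot (m + 2) (ins (rotInv m σ))).2.nofix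
    have hAi := (ins σ).2.inv
    have hAf := (ins σ).2.nofix
    have hτi := τ.2.inv
    have hτf := τ.2.nofix
    have h2 : (some (2 : Fin (m + 3)) : Vx (m + 3)) = shiftV (m + 1) (some 0) := rfl
    rw [h2]
    have hBv : (rot (m + 2) (ins (rotInv m σ))).1 =
        rotV (m + 2) * insPerm (rotInv m σ) * (rotV (m + 2))⁻¹ := by
      rw [rot_val, P2_ins_val]
    have hAv : (ins σ).1 = insPerm σ := P2_ins_val σ
    set B : Perm (Vx (m + 3)) := (rot (m + 2) (ins (rotInv m σ))).1 with hBdef
    set A : Perm (Vx (m + 3)) := (ins σ).1 with hAdef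
    have hA0 : A (some 0) = some 1 := by rw [hAv]; exact P2_insPerm_zero σ
    have hA1 : A (some 1) = some 0 := by rw [hAv]; exact P2_insPerm_one σ
    have hAs : ∀ w, A (shiftV (m + 1) w) = shiftV (m + 1) (σ.1 w) := by
      intro w; rw [hAv]; exact P2_insPerm_shift σ w
    have hB1 : B (some 1) = shiftV (m + 1) (some 0) := by
      rw [hBv, Perm.mul_apply, Perm.mul_apply, ← P2_rotV_zero, P2_inv_self, P2_insPerm_zero,
        P2_rotV_one]
    have hB2 : B (shiftV (m + 1) (some 0)) = some 1 := by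
      rw [← hB1, hBi]
    have hBs : ∀ u, B (rotV (m + 2) (shiftV (m + 1) u)) =
        rotV (m + 2) (shiftV (m + 1) ((rotV m)⁻¹ (σ.1 (rotV m u)))) := by
      intro u
      rw [hBv, Perm.mul_apply, Perm.mul_apply, P2_inv_self, P2_insPerm_shift, rotInv_val,
        Perm.mul_apply, Perm.mul_apply]
    have hup : ∀ w, w ≠ some 0 → rotV (m + 2) (shiftV (m + 1) ((rotV m)⁻¹ w)) =
        shiftV (m + 1) w := by
      intro w hw
      rcases P2_rot_shift ((rotV m)⁻¹ w) with ⟨h, _⟩ | ⟨_, h⟩
      · rw [h, P2_self_inv]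
      · rw [P2_self_inv] at h; exact absurd h hw
    have hBw : ∀ w, w ≠ some 0 → σ.1 w ≠ some 0 → B (shiftV (m + 1) w) =
        shiftV (m + 1) (σ.1 w) := by
      intro w hw hw2
      rw [← hup w hw, hBs, P2_self_inv, hup _ hw2]
    have hB0 : B (some 0) = shiftV (m + 1) (σ.1 (some 0)) := by
      have h3 : (rotV m)⁻¹ (some 0) = some (Fin.last m) := by
        rw [Perm.inv_eq_iff_eq, P2_rotV_last]
      have h4 : (some 0 : Vx (m + 3)) = rotV (m + 2) (shiftV (m + 1) ((rotV m)⁻¹ (some 0))) := by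
        rw [h3, shiftV_some, Fin.succ_last, Fin.succ_last, P2_rotV_last]
      rw [h4, hBs, P2_self_inv, hup _ (σ.2.nofix _)]
    have hBP : B (shiftV (m + 1) (σ.1 (some 0))) = some 0 := by rw [← hB0, hBi]
    have hAc : A (shiftV (m + 1) (some 0)) = shiftV (m + 1) (σ.1 (some 0)) := hAs _
    have hAP : A (shiftV (m + 1) (σ.1 (some 0))) = shiftV (m + 1) (some 0) := by
      rw [hAs, σ.2.inv]
    have heq : ∀ v, v ≠ some 0 → v ≠ some 1 → v ≠ shiftV (m + 1) (some 0) →
        v ≠ shiftV (m + 1) (σ.1 (some 0)) → A v = B v := by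
      intro v h0 h1 h3 h4
      rcases Vx_cases v with h | h | ⟨w, rfl⟩
      · exact absurd h h0
      · exact absurd h h1
      · have hw : w ≠ some 0 := fun h => h3 (by rw [h])
        have hw2 : σ.1 w ≠ some 0 := by
          intro h
          apply h4
          rw [← h, σ.2.inv]
        rw [hAs, hBw w hw hw2]
    constructor
    · rintro ⟨hc, hsm⟩
      have hsm' : Same B τ.1 (some 1) (some 0) := fun f hf => (hsm f hf).symm
      have hc' : Conn B τ.1 (some 1) none := by
        intro g hg1 hg2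
        rw [← hc g hg1 hg2]
        exact K2_inv_of_same hBi hBf hτi hτf hsm' g hg1 hg2
      exact K2_abs (sA := B) (sB := A) (a := shiftV (m + 1) (some 0)) (b := some 1)
        (c := some 0) (P := shiftV (m + 1) (σ.1 (some 0))) hAi hAf hτi hτf hB2 hB1 hB0 hBP
        hA1 hA0 hAc hAP (fun v h1 h2 h3 h4 => (heq v h3 h2 h1 h4).symm) hc' hsm'
    · rintro ⟨hc, hsm⟩
      have := K2_abs (sA := A) (sB := B) (a := some 0) (b := some 1)
        (c := shiftV (m + 1) (some 0)) (P := shiftV (m + 1) (σ.1 (some 0))) hBi hBf hτi hτf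
        hA0 hA1 hAc hAP hB1 hB2 hB0 hBP heq hc hsm
      refine ⟨?_, fun f hf => (this.2 f hf).symm⟩
      intro g hg1 hg2
      rw [← this.1 g hg1 hg2]
      exact (K2_inv_of_same hBi hBf hτi hτf this.2 g hg1 hg2).symm
  classical
  unfold pr4
  exact if_congr key rfl rfl

end Pool.Agent.H988R3
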