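import Pool.Agent.H988R3.Defs4
import Pool.Agent.H974R3.Rel
import Pool.Agent.H974R3.Pair2
import Pool.Agent.H988R3.P4Tri

/-!
# Straightening of zigzags for the four-arm indicator (task K3)
-/

set_option maxHeartbeats 400000

namespace Pool.Agent.H988R3
open Equiv MvPolynomial Pool.Agent.H974R3

/-- common generalisation of `Conn` (`c = false`) and `Same` (`c = true`) -/
def K3R {V : Type*} (c : Bool) (s t : V → V) (a b : V) : Prop :=
  ∀ h : V → Bool, (∀ v, h (s v) = xor c (h v)) → (∀ v, h (t v) = xor c (h v)) → h a = h b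

theorem K3R_false {V : Type*} (s t : V → V) (a b : V) : K3R false s t a b ↔ Conn s t a b := by
  unfold K3R Conn
  simp only [Bool.false_xor]

theorem K3R_true {V : Type*} (s t : V → V) (a b : V) : K3R true s t a b ↔ Same s t a b := by
  unfold K3R Same Alt
  simp only [Bool.true_xor]
  constructor
  · intro h g hg
    exact h g hg.1 hg.2
  · intro h g h1 h2
    exact h g ⟨h1, h2⟩

theorem K3R_iff {V W : Type*} {a b : V → V} {s t : W → W} (c : Bool) (ρ : V → W) (ε : V → Bool)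
    (α β : W → V)
    (h1 : ∀ w, ρ (α w) = w) (h1' : ∀ w, ε (α w) = false)
    (h2 : ∀ w, ρ (β w) = w) (h2' : ∀ w, ε (β w) = false)
    (h3 : ∀ w, a (α w) = α (s w)) (h4 : ∀ w, b (β w) = β (t w))
    (h5 : ∀ v, (∃ w, v = α w) ∨ (ρ (a v) = ρ v ∧ ε (a v) = !ε v))
    (h6 : ∀ v, (∃ w, v = β w) ∨ (ρ (b v) = ρ v ∧ ε (b v) = !ε v))
    (h7 : ∀ h : V → Bool, (∀ v, h (a v) = xor c (h v)) → (∀ v, h (b v) = xor c (h v)) →
      ∀ w, h (α w) = h (β w))
    (x y : W) (x' y' : V)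
    (hx : ρ x' = x) (hy : ρ y' = y) (hex : ε x' = false) (hey : ε y' = false)
    (hx' : x' = α x ∨ x' = β x) (hy' : y' = α y ∨ y' = β y) :
    K3R c a b x' y' ↔ K3R c s t x y := by
  constructor
  · intro hc h hs ht
    have := hc (fun v => xor (h (ρ v)) (c && ε v)) (fun v => ?_) (fun v => ?_)
    · simpa only [hx, hy, hex, hey, Bool.and_false, Bool.xor_false] using this
    · rcases h5 v with ⟨w, rfl⟩ | ⟨h, h'⟩
      · simp only [h3, h1, h1', hs, Bool.and_false, Bool.xor_false]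
      · simp only [h, h']
        cases c <;> simp
    · rcases h6 v with ⟨w, rfl⟩ | ⟨h, h'⟩
      · simp only [h4, h2, h2', ht, Bool.and_false, Bool.xor_false]
      · simp only [h, h']
        cases c <;> simp
  · intro hc h ha hb
    have e1 : h x' = h (α x) := by
      rcases hx' with e | e
      · rw [e]
      · rw [e, h7 h ha hb]
    have e2 : h y' = h (α y) := by
      rcases hy' with e | e
      · rw [e]
      · rw [e, h7 h ha hb]
    have := hc (fun w => h (α w)) (fun w => ?_) (fun w => ?_)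
    · rw [e1, e2]
      exact this
    · rw [← h3, ha]
    · rw [h7 h ha hb, h7 h ha hb, ← h4, hb]

/-- conclusion for the indicators -/
theorem K3_pr4 {L L' : ℕ} {a b : Fin L} {a' b' : Fin L'} {σ τ : Pat L} {σ' τ' : Pat L'}
    (h1 : K3R false σ.1 τ.1 (some a) none ↔ K3R false σ'.1 τ'.1 (some a') none)
    (h2 : K3R true σ.1 τ.1 (some a) (some b) ↔ K3R true σ'.1 τ'.1 (some a') (some b')) :
    pr4 a b σ τ = pr4 a' b' σ' τ' := by
  rw [K3R_false, K3R_false] at h1
  rw [K3R_true, K3R_true] at h2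
  have key : P4 a b σ τ ↔ P4 a' b' σ' τ' := and_congr h1 h2
  unfold pr4
  by_cases hc : P4 a b σ τ
  · rw [if_pos hc, if_pos (key.1 hc)]
  · rw [if_neg hc, if_neg (fun h' => hc (key.2 h'))]

/-- embedding for the pattern rotated once -/
def K3g1 (m : ℕ) (w : Vx (m + 2)) : Vx (m + 4) :=
  rotV (m + 3) (shiftV (m + 2) ((rotV (m + 1))⁻¹ w))

/-- embedding for the pattern rotated twice -/
def K3g2 (m : ℕ) (w : Vx (m + 2)) : Vx (m + 4) :=
  rotV (m + 3) (rotV (m + 3) (shiftV (m + 2) ((rotV (m + 1))⁻¹ ((rotV (m + 1))⁻¹ w))))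

theorem K3_inv_none (m : ℕ) : (rotV m)⁻¹ none = none := by
  rw [Perm.inv_eq_iff_eq]; rfl

theorem K3_inv_zero (m : ℕ) : (rotV m)⁻¹ (some 0) = some (Fin.last m) := by
  rw [Perm.inv_eq_iff_eq, P2_rotV_last]

theorem K3_inv_succ (m : ℕ) (j : Fin m) : (rotV m)⁻¹ (some j.succ) = some j.castSucc := by
  rw [Perm.inv_eq_iff_eq, P2_rotV_cast]

theorem K3g1_none (m : ℕ) : K3g1 m none = none := by
  unfold K3g1
  rw [K3_inv_none]; rfl

theorem K3g1_zero (m : ℕ) : K3g1 m (some 0) = some 0 := by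
  unfold K3g1
  rw [K3_inv_zero, shiftV_some, Fin.succ_last, Fin.succ_last, P2_rotV_last]

theorem K3g1_succ (m : ℕ) (k : Fin (m + 1)) : K3g1 m (some k.succ) = some k.succ.succ.succ := by
  unfold K3g1
  rw [K3_inv_succ, shiftV_some, Fin.succ_castSucc, Fin.succ_castSucc, P2_rotV_cast]

theorem K3g2_none (m : ℕ) : K3g2 m none = none := by
  unfold K3g2
  rw [K3_inv_none, K3_inv_none]; rfl

theorem K3g2_zero (m : ℕ) : K3g2 m (some 0) = some 0 := by
  unfold K3g2
  rw [K3_inv_zero, ← Fin.succ_last, K3_inv_succ, shiftV_some, Fin.succ_castSucc, Fin.succ_castSucc,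
    P2_rotV_cast, Fin.succ_last, Fin.succ_last, Fin.succ_last, P2_rotV_last]

theorem K3g2_one (m : ℕ) : K3g2 m (some 1) = some 1 := by
  unfold K3g2
  have h1 : (1 : Fin (m + 2)) = (0 : Fin (m + 1)).succ := rfl
  have h2 : (0 : Fin (m + 1)).castSucc = (0 : Fin (m + 2)) := rfl
  rw [h1, K3_inv_succ, h2, K3_inv_zero, shiftV_some, Fin.succ_last, Fin.succ_last, P2_rotV_last]
  exact P2_rotV_cast (m + 3) 0

theorem K3g2_ss (m : ℕ) (k : Fin m) :
    K3g2 m (some k.succ.succ) = some k.succ.succ.succ.succ := by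
  unfold K3g2
  rw [K3_inv_succ, ← Fin.succ_castSucc, K3_inv_succ, shiftV_some]
  rw [Fin.succ_castSucc, Fin.succ_castSucc, Fin.succ_castSucc, Fin.succ_castSucc, P2_rotV_cast,
    Fin.succ_castSucc, P2_rotV_cast]

/-- the pattern rotated once -/
theorem K3_A_val {m : ℕ} (σ : Pat (m + 2)) :
    (rot (m + 3) (ins (rotInv (m + 1) σ))).1
      = rotV (m + 3) * insPerm (rotInv (m + 1) σ) * (rotV (m + 3))⁻¹ := by
  rw [rot_val]; rfl

theorem K3_A_g {m : ℕ} (σ : Pat (m + 2)) (w : Vx (m + 2)) :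
    (rot (m + 3) (ins (rotInv (m + 1) σ))).1 (K3g1 m w) = K3g1 m (σ.1 w) := by
  rw [K3_A_val]
  unfold K3g1
  rw [Perm.mul_apply, Perm.mul_apply, P2_inv_self, P2_insPerm_shift, rotInv_val,
    Perm.mul_apply, Perm.mul_apply, P2_self_inv]

theorem K3_A_one {m : ℕ} (σ : Pat (m + 2)) :
    (rot (m + 3) (ins (rotInv (m + 1) σ))).1 (some 1) = some 2 := by
  rw [K3_A_val, Perm.mul_apply, Perm.mul_apply, ← P2_rotV_zero, P2_inv_self, P2_insPerm_zero,
    P2_rotV_one]
  rfl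

theorem K3_A_two {m : ℕ} (σ : Pat (m + 2)) :
    (rot (m + 3) (ins (rotInv (m + 1) σ))).1 (some 2) = some 1 := by
  rw [← K3_A_one σ]
  exact (rot (m + 3) (ins (rotInv (m + 1) σ))).2.inv _

/-- the pattern rotated twice -/
theorem K3_C_val {m : ℕ} (τ : Pat (m + 2)) :
    (rot (m + 3) (rot (m + 3) (ins (rotInv (m + 1) (rotInv (m + 1) τ))))).1
      = rotV (m + 3) * (rotV (m + 3) * insPerm (rotInv (m + 1) (rotInv (m + 1) τ))
          * (rotV (m + 3))⁻¹) * (rotV (m + 3))⁻¹ := by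
  rw [rot_val, rot_val]; rfl

theorem K3_C_g {m : ℕ} (τ : Pat (m + 2)) (w : Vx (m + 2)) :
    (rot (m + 3) (rot (m + 3) (ins (rotInv (m + 1) (rotInv (m + 1) τ))))).1 (K3g2 m w)
      = K3g2 m (τ.1 w) := by
  rw [K3_C_val]
  unfold K3g2
  rw [Perm.mul_apply, Perm.mul_apply, P2_inv_self, Perm.mul_apply, Perm.mul_apply, P2_inv_self,
    P2_insPerm_shift, rotInv_val, rotInv_val]
  simp only [Perm.mul_apply, P2_self_inv]

theorem K3_C_two {m : ℕ} (τ : Pat (m + 2)) :
    (rot (m + 3) (rot (m + 3) (ins (rotInv (m + 1) (rotInv (m + 1) τ))))).1 (some 2)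
      = some 3 := by
  have e1 : (some 2 : Vx (m + 4)) = rotV (m + 3) (rotV (m + 3) (some 0)) := by
    rw [P2_rotV_zero, P2_rotV_one]; rfl
  have e2 : rotV (m + 3) (rotV (m + 3) (some 1)) = (some 3 : Vx (m + 4)) := by
    rw [P2_rotV_one]
    exact P2_rotV_cast (m + 3) 2
  rw [K3_C_val, e1, Perm.mul_apply, Perm.mul_apply, P2_inv_self, Perm.mul_apply, Perm.mul_apply,
    P2_inv_self, P2_insPerm_zero, e2]

theorem K3_C_three {m : ℕ} (τ : Pat (m + 2)) :
    (rot (m + 3) (rot (m + 3) (ins (rotInv (m + 1) (rotInv (m + 1) τ))))).1 (some 3)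
      = some 2 := by
  rw [← K3_C_two τ]
  exact (rot (m + 3) (rot (m + 3) (ins (rotInv (m + 1) (rotInv (m + 1) τ))))).2.inv _

/-- cases for the small vertices -/
theorem K3_casesW {m : ℕ} (w : Vx (m + 2)) :
    w = none ∨ w = some 0 ∨ w = some 1 ∨ ∃ k : Fin m, w = some k.succ.succ := by
  rcases w with _ | i
  · exact Or.inl rfl
  · refine Fin.cases ?_ (fun i' => ?_) i
    · exact Or.inr (Or.inl rfl)
    · refine Fin.cases ?_ (fun j => ?_) i'
      · exact Or.inr (Or.inr (Or.inl rfl))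
      · exact Or.inr (Or.inr (Or.inr ⟨j, rfl⟩))

/-- cases for the big vertices -/
theorem K3_casesV {m : ℕ} (v : Vx (m + 4)) :
    v = none ∨ v = some 0 ∨ v = some 1 ∨ v = some 2 ∨ v = some 3 ∨
      ∃ k : Fin m, v = some k.succ.succ.succ.succ := by
  rcases v with _ | i
  · exact Or.inl rfl
  · refine Fin.cases ?_ (fun i' => ?_) i
    · exact Or.inr (Or.inl rfl)
    · refine Fin.cases ?_ (fun j => ?_) i'
      · exact Or.inr (Or.inr (Or.inl rfl))
      · refine Fin.cases ?_ (fun j' => ?_) j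
        · exact Or.inr (Or.inr (Or.inr (Or.inl rfl)))
        · refine Fin.cases ?_ (fun k => ?_) j'
          · exact Or.inr (Or.inr (Or.inr (Or.inr (Or.inl rfl))))
          · exact Or.inr (Or.inr (Or.inr (Or.inr (Or.inr ⟨k, rfl⟩))))

theorem K3g1_one (m : ℕ) : K3g1 m (some 1) = some 3 := K3g1_succ m 0

theorem K3g1_ss (m : ℕ) (k : Fin m) : K3g1 m (some k.succ.succ) = some k.succ.succ.succ.succ :=
  K3g1_succ m k.succ

/-- the sign function for the first zigzag -/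
def K3e1 (m : ℕ) : Vx (m + 4) → Bool
  | none => false
  | some i => Fin.cases (motive := fun _ => Bool) false
      (fun i' => Fin.cases (motive := fun _ => Bool) true (fun _ => false) i') i

/-- the sign function for the second zigzag -/
def K3e2 (m : ℕ) : Vx (m + 4) → Bool
  | none => false
  | some i => Fin.cases (motive := fun _ => Bool) false
      (fun i' => Fin.cases (motive := fun _ => Bool) false
        (fun i'' => Fin.cases (motive := fun _ => Bool) true (fun _ => false) i'') i') i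

/-- the retraction for the second zigzag -/
def K3r2 (m : ℕ) : Vx (m + 4) → Vx (m + 2)
  | none => none
  | some i => Fin.cases (motive := fun _ => Vx (m + 2)) (some 0)
      (fun i' => Fin.cases (motive := fun _ => Vx (m + 2)) (some 1)
        (fun i'' => Fin.cases (motive := fun _ => Vx (m + 2)) (some 1)
          (fun i3 => Fin.cases (motive := fun _ => Vx (m + 2)) (some 1)
            (fun k => some k.succ.succ) i3) i'') i') i

theorem K3_zig1_key {m : ℕ} (c : Bool) (σ τ : Pat (m + 2)) (x y : Vx (m + 2)) :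
    K3R c (rot (m + 3) (ins (rotInv (m + 1) σ))).1 (ins τ).1 (shiftV (m + 2) x)
      (shiftV (m + 2) y) ↔ K3R c σ.1 τ.1 x y := by
  have hA1 := K3_A_one σ
  have hA2 := K3_A_two σ
  have hAg := K3_A_g σ
  generalize (rot (m + 3) (ins (rotInv (m + 1) σ))).1 = A at hA1 hA2 hAg
  have hB0 : (ins τ).1 (some 0) = some 1 := rfl
  have hB1 : (ins τ).1 (some 1) = some 0 := rfl
  have hBg : ∀ w, (ins τ).1 (shiftV (m + 2) w) = shiftV (m + 2) (τ.1 w) := P2_insPerm_shift τ
  generalize (ins τ).1 = B at hB0 hB1 hBg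
  refine K3R_iff c (P2_rho (m + 1)) (K3e1 m) (K3g1 m) (shiftV (m + 2)) ?_ ?_ ?_ ?_ hAg hBg
    ?_ ?_ ?_ x y _ _ ?_ ?_ ?_ ?_ (Or.inr rfl) (Or.inr rfl)
  · intro w
    rcases K3_casesW w with rfl | rfl | rfl | ⟨k, rfl⟩
    · rw [K3g1_none]; rfl
    · rw [K3g1_zero]; rfl
    · rw [K3g1_one]; rfl
    · rw [K3g1_ss]; rfl
  · intro w
    rcases K3_casesW w with rfl | rfl | rfl | ⟨k, rfl⟩
    · rw [K3g1_none]; rfl
    · rw [K3g1_zero]; rfl
    · rw [K3g1_one]; rfl
    · rw [K3g1_ss]; rfl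
  · exact P2_rho_shift
  · intro w
    rcases w with _ | j <;> rfl
  · intro v
    rcases K3_casesV v with rfl | rfl | rfl | rfl | rfl | ⟨k, rfl⟩
    · exact Or.inl ⟨none, (K3g1_none m).symm⟩
    · exact Or.inl ⟨some 0, (K3g1_zero m).symm⟩
    · right; rw [hA1]; exact ⟨rfl, rfl⟩
    · right; rw [hA2]; exact ⟨rfl, rfl⟩
    · exact Or.inl ⟨some 1, (K3g1_one m).symm⟩
    · exact Or.inl ⟨some k.succ.succ, (K3g1_ss m k).symm⟩
  · intro v
    rcases Vx_cases v with rfl | rfl | ⟨w, rfl⟩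
    · right; rw [hB0]; exact ⟨rfl, rfl⟩
    · right; rw [hB1]; exact ⟨rfl, rfl⟩
    · exact Or.inl ⟨w, rfl⟩
  · intro h ha hb w
    rcases K3_casesW w with rfl | rfl | rfl | ⟨k, rfl⟩
    · rw [K3g1_none]; rfl
    · rw [K3g1_zero]
      have e1 := ha (some 1)
      have e2 := hb (some 0)
      rw [hA1] at e1
      rw [hB0] at e2
      have e3 : shiftV (m + 2) (some 0) = some 2 := rfl
      rw [e3, e1, e2]
      cases c <;> cases h (some 0) <;> rfl
    · rw [K3g1_one]; rfl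
    · rw [K3g1_ss]; rfl
  · exact P2_rho_shift x
  · exact P2_rho_shift y
  · rcases x with _ | j <;> rfl
  · rcases y with _ | j <;> rfl

theorem pr4_zig1 {m : ℕ} (σ τ : Pat (m + 2)) :
    pr4 2 3 (rot (m + 3) (ins (rotInv (m + 1) σ))) (ins τ) = pr4 0 1 σ τ := by
  apply K3_pr4
  · exact K3_zig1_key false σ τ (some 0) none
  · exact K3_zig1_key true σ τ (some 0) (some 1)

theorem K3_zig2_key {m : ℕ} (c : Bool) (σ τ : Pat (m + 2)) (x y : Vx (m + 2)) :
    K3R c (rot (m + 3) (ins (rotInv (m + 1) σ))).1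
      (rot (m + 3) (rot (m + 3) (ins (rotInv (m + 1) (rotInv (m + 1) τ))))).1 (K3g2 m x)
      (K3g2 m y) ↔ K3R c σ.1 τ.1 x y := by
  have hA1 := K3_A_one σ
  have hA2 := K3_A_two σ
  have hAg := K3_A_g σ
  generalize (rot (m + 3) (ins (rotInv (m + 1) σ))).1 = A at hA1 hA2 hAg
  have hC2 := K3_C_two τ
  have hC3 := K3_C_three τ
  have hCg := K3_C_g τ
  generalize (rot (m + 3) (rot (m + 3) (ins (rotInv (m + 1) (rotInv (m + 1) τ))))).1 = B
    at hC2 hC3 hCg
  have q1 : ∀ w, K3r2 m (K3g2 m w) = w := by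
    intro w
    rcases K3_casesW w with rfl | rfl | rfl | ⟨k, rfl⟩
    · rw [K3g2_none]; rfl
    · rw [K3g2_zero]; rfl
    · rw [K3g2_one]; rfl
    · rw [K3g2_ss]; rfl
  have q2 : ∀ w, K3e2 m (K3g2 m w) = false := by
    intro w
    rcases K3_casesW w with rfl | rfl | rfl | ⟨k, rfl⟩
    · rw [K3g2_none]; rfl
    · rw [K3g2_zero]; rfl
    · rw [K3g2_one]; rfl
    · rw [K3g2_ss]; rfl
  refine K3R_iff c (K3r2 m) (K3e2 m) (K3g1 m) (K3g2 m) ?_ ?_ q1 q2 hAg hCg
    ?_ ?_ ?_ x y _ _ (q1 x) (q1 y) (q2 x) (q2 y) (Or.inr rfl) (Or.inr rfl)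
  · intro w
    rcases K3_casesW w with rfl | rfl | rfl | ⟨k, rfl⟩
    · rw [K3g1_none]; rfl
    · rw [K3g1_zero]; rfl
    · rw [K3g1_one]; rfl
    · rw [K3g1_ss]; rfl
  · intro w
    rcases K3_casesW w with rfl | rfl | rfl | ⟨k, rfl⟩
    · rw [K3g1_none]; rfl
    · rw [K3g1_zero]; rfl
    · rw [K3g1_one]; rfl
    · rw [K3g1_ss]; rfl
  · intro v
    rcases K3_casesV v with rfl | rfl | rfl | rfl | rfl | ⟨k, rfl⟩
    · exact Or.inl ⟨none, (K3g1_none m).symm⟩
    · exact Or.inl ⟨some 0, (K3g1_zero m).symm⟩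
    · right; rw [hA1]; exact ⟨rfl, rfl⟩
    · right; rw [hA2]; exact ⟨rfl, rfl⟩
    · exact Or.inl ⟨some 1, (K3g1_one m).symm⟩
    · exact Or.inl ⟨some k.succ.succ, (K3g1_ss m k).symm⟩
  · intro v
    rcases K3_casesV v with rfl | rfl | rfl | rfl | rfl | ⟨k, rfl⟩
    · exact Or.inl ⟨none, (K3g2_none m).symm⟩
    · exact Or.inl ⟨some 0, (K3g2_zero m).symm⟩
    · exact Or.inl ⟨some 1, (K3g2_one m).symm⟩
    · right; rw [hC2]; exact ⟨rfl, rfl⟩
    · right; rw [hC3]; exact ⟨rfl, rfl⟩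
    · exact Or.inl ⟨some k.succ.succ, (K3g2_ss m k).symm⟩
  · intro h ha hb w
    rcases K3_casesW w with rfl | rfl | rfl | ⟨k, rfl⟩
    · rw [K3g1_none, K3g2_none]
    · rw [K3g1_zero, K3g2_zero]
    · rw [K3g1_one, K3g2_one]
      have e1 := ha (some 1)
      have e2 := hb (some 2)
      rw [hA1] at e1
      rw [hC2] at e2
      rw [e2, e1]
      cases c <;> cases h (some 1) <;> rfl
    · rw [K3g1_ss, K3g2_ss]

theorem pr4_zig2 {m : ℕ} (σ τ : Pat (m + 2)) :
    pr4 0 1 (rot (m + 3) (ins (rotInv (m + 1) σ)))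
      (rot (m + 3) (rot (m + 3) (ins (rotInv (m + 1) (rotInv (m + 1) τ))))) = pr4 0 1 σ τ := by
  apply K3_pr4
  · have h := K3_zig2_key false σ τ (some 0) none
    rw [K3g2_zero, K3g2_none] at h
    exact h
  · have h := K3_zig2_key true σ τ (some 0) (some 1)
    rw [K3g2_zero, K3g2_one] at h
    exact h

theorem pr4_flip {m : ℕ} (σ τ : Pat (m + 2)) :
    pr4 1 2 (ins σ)
      (rot (m + 3) (rot (m + 3) (ins (rotInv (m + 1) (rotInv (m + 1) τ))))) = pr4 0 1 σ τ := by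
  rw [← pr4_tri (m := m + 1) σ]
  exact pr4_zig2 σ τ

end Pool.Agent.H988R3
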