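import Pool.Agent.H988R3.Defs4
import Pool.Agent.H988R3.P4Base
import Pool.Agent.H988R3.P4Zig
import Pool.Agent.H974R3.PairFormula

/-!
# Task R2 of the four-arm formula: the recursions of `S3` (helper943)
-/

namespace Pool.Agent.H988R3
open Equiv MvPolynomial Pool.Agent.H974R3

theorem R2_fac {N : ℕ} (q x : ℂ) (z : Fin N → ℂ) : Fac4 q x z = Fac q x z := rfl

theorem R2_fac_snoc {N : ℕ} (q x y1 y2 : ℂ) (z : Fin N → ℂ) :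
    Fac q x (Fin.snoc (Fin.snoc z y1 : Fin (N + 1) → ℂ) y2 : Fin (N + 2) → ℂ)
      = Fac4 q x (Fin.cons y1 (Fin.cons y2 z : Fin (N + 1) → ℂ) : Fin (N + 2) → ℂ) := by
  unfold Fac Fac4
  rw [Fin.prod_univ_castSucc, Fin.prod_univ_castSucc, Fin.prod_univ_succ, Fin.prod_univ_succ]
  simp only [Fin.snoc_last, Fin.snoc_castSucc, Fin.cons_zero, Fin.cons_succ]
  ring

/-- rotating two entries to the end -/
theorem R2_rot2 {N : ℕ} (a b : ℂ) (v : Fin N → ℂ) :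
    ((Fin.cons a (Fin.cons b v : Fin (N + 1) → ℂ) : Fin (N + 2) → ℂ) ∘ finRotate (N + 2))
      ∘ finRotate (N + 2) = Fin.snoc (Fin.snoc v a : Fin (N + 1) → ℂ) b := by
  rw [cons_comp_rotate (N := N + 1)]
  rw [← Fin.cons_snoc_eq_snoc_cons, cons_comp_rotate (N := N + 1)]

section forms
variable (q : ℂ) (hq : q ^ 2 + q + 1 = 0)
include hq

theorem S3_rec1 (n : ℕ) (Ψ Ψ' : Pat (2 * n + 3) → MvPolynomial (Fin (2 * n + 3)) ℂ)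
    (Ψ2 : Pat (2 * n + 5) → MvPolynomial (Fin (2 * n + 5)) ℂ) (h : PsiSpec q (n + 1) Ψ)
    (h' : PsiSpec (q ^ 2) (n + 1) Ψ') (h2 : PsiSpec (q ^ 2) (n + 2) Ψ2) (x y1 y2 y3 : ℂ)
    (z : Fin (2 * n + 1) → ℂ) :
    S3 (n + 1) Ψ Ψ2 x y1 y2 y3 (Fin.cons (q ^ 2 * y3) z : Fin (2 * n + 2) → ℂ)
      = Fac4 (q ^ 2) y3 (Fin.cons y1 (Fin.cons y2 z : Fin (2 * n + 2) → ℂ) : Fin (2 * n + 3) → ℂ)
        * S2 n Ψ Ψ' x (q ^ 2 * y3) y1 y2 z := by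
  have hq2 : (q ^ 2) ^ 2 + q ^ 2 + 1 = 0 := by linear_combination (q ^ 2 - q + 1) * hq
  have hr := psi_rec (q ^ 2) hq2 (n + 1) Ψ' h' Ψ2 h2 y3
    (Fin.snoc (Fin.snoc z y1 : Fin (2 * n + 2) → ℂ) y2 : Fin (2 * n + 3) → ℂ)
  have key : ∀ t : Pat (2 * n + 5), eval (Fin.cons y1 (Fin.cons y2 (Fin.cons y3
      (Fin.cons (q ^ 2 * y3) z : Fin (2 * n + 2) → ℂ) : Fin (2 * n + 3) → ℂ) :
      Fin (2 * n + 4) → ℂ) : Fin (2 * n + 5) → ℂ)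
        (Ψ2 (rot (2 * n + 4) (rot (2 * n + 4) t))) =
      eval (Fin.cons y3 (Fin.cons (q ^ 2 * y3) (Fin.snoc (Fin.snoc z y1 : Fin (2 * n + 2) → ℂ) y2 :
        Fin (2 * n + 3) → ℂ) : Fin (2 * n + 4) → ℂ) : Fin (2 * n + 5) → ℂ) (Ψ2 t) := by
    intro t
    have e1 := ev_rot h2 (Fin.cons y1 (Fin.cons y2 (Fin.cons y3
      (Fin.cons (q ^ 2 * y3) z : Fin (2 * n + 2) → ℂ) : Fin (2 * n + 3) → ℂ) :
      Fin (2 * n + 4) → ℂ) : Fin (2 * n + 5) → ℂ) (rot (2 * n + 4) t)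
    have e2 := ev_rot h2 ((Fin.cons y1 (Fin.cons y2 (Fin.cons y3
      (Fin.cons (q ^ 2 * y3) z : Fin (2 * n + 2) → ℂ) : Fin (2 * n + 3) → ℂ) :
      Fin (2 * n + 4) → ℂ) : Fin (2 * n + 5) → ℂ) ∘ finRotate (2 * n + 5)) t
    refine e1.trans (e2.trans ?_)
    congr 2
    refine (R2_rot2 (N := 2 * n + 3) _ _ _).trans ?_
    rw [← Fin.cons_snoc_eq_snoc_cons, ← Fin.cons_snoc_eq_snoc_cons,
      ← Fin.cons_snoc_eq_snoc_cons, ← Fin.cons_snoc_eq_snoc_cons]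
  have key' : ∀ t : Pat (2 * n + 3), eval (Fin.cons y1 (Fin.cons y2 z : Fin (2 * n + 2) → ℂ) :
        Fin (2 * n + 3) → ℂ) (Ψ' (rot (2 * n + 2) (rot (2 * n + 2) t))) =
      eval (Fin.snoc (Fin.snoc z y1 : Fin (2 * n + 2) → ℂ) y2 : Fin (2 * n + 3) → ℂ) (Ψ' t) := by
    intro t
    have e1 := ev_rot h' (Fin.cons y1 (Fin.cons y2 z : Fin (2 * n + 2) → ℂ) :
        Fin (2 * n + 3) → ℂ) (rot (2 * n + 2) t)
    have e2 := ev_rot h' ((Fin.cons y1 (Fin.cons y2 z : Fin (2 * n + 2) → ℂ) :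
        Fin (2 * n + 3) → ℂ) ∘ finRotate (2 * n + 3)) t
    refine e1.trans (e2.trans ?_)
    congr 2
    exact R2_rot2 (N := 2 * n + 1) _ _ _
  unfold S3 S2
  have s1 : ∀ σ : Pat (2 * n + 3), ∑ τ : Pat (2 * n + 5), pr4 1 2 (ins σ) τ *
      eval (Fin.cons x (Fin.cons (q ^ 2 * y3) z : Fin (2 * n + 2) → ℂ) : Fin (2 * n + 3) → ℂ) (Ψ σ) *
      eval (Fin.cons y1 (Fin.cons y2 (Fin.cons y3
      (Fin.cons (q ^ 2 * y3) z : Fin (2 * n + 2) → ℂ) : Fin (2 * n + 3) → ℂ) :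
      Fin (2 * n + 4) → ℂ) : Fin (2 * n + 5) → ℂ) (Ψ2 τ) =
      ∑ τ : Pat (2 * n + 3), Fac4 (q ^ 2) y3 (Fin.cons y1 (Fin.cons y2 z : Fin (2 * n + 2) → ℂ) :
        Fin (2 * n + 3) → ℂ) * (pr4 0 1 σ τ *
      eval (Fin.cons x (Fin.cons (q ^ 2 * y3) z : Fin (2 * n + 2) → ℂ) : Fin (2 * n + 3) → ℂ) (Ψ σ) *
      eval (Fin.cons y1 (Fin.cons y2 z : Fin (2 * n + 2) → ℂ) : Fin (2 * n + 3) → ℂ) (Ψ' τ)) := by
    intro σ
    rw [← sum_rot (m := 2 * n + 4), ← sum_rot (m := 2 * n + 4)]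
    simp_rw [key]
    rw [sum_ins (L := 2 * n + 3)]
    · rw [← sum_rot (m := 2 * n + 2) (fun τ => Fac4 (q ^ 2) y3 (Fin.cons y1 (Fin.cons y2 z :
        Fin (2 * n + 2) → ℂ) : Fin (2 * n + 3) → ℂ) * (pr4 0 1 σ τ *
        eval (Fin.cons x (Fin.cons (q ^ 2 * y3) z : Fin (2 * n + 2) → ℂ) :
          Fin (2 * n + 3) → ℂ) (Ψ σ) *
        eval (Fin.cons y1 (Fin.cons y2 z : Fin (2 * n + 2) → ℂ) : Fin (2 * n + 3) → ℂ) (Ψ' τ)))]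
      conv_rhs => rw [← sum_rot (m := 2 * n + 2)]
      apply Finset.sum_congr rfl
      intro τ _
      have e1 := hr.1 τ
      have e2 := pr4_flip (m := 2 * n + 1) σ (rot (2 * n + 2) (rot (2 * n + 2) τ))
      have e3 : rotInv (2 * n + 1 + 1) (rot (2 * n + 2) (rot (2 * n + 2) τ)) = rot (2 * n + 2) τ :=
        rotInv_rot _ _
      have e4 : rotInv (2 * n + 1 + 1) (rot (2 * n + 2) τ) = τ := rotInv_rot _ _
      rw [e3, e4] at e2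
      rw [R2_fac_snoc] at e1
      rw [key', ← e2]
      refine Eq.trans (congrArg (fun u => _ * u) e1) ?_
      ring
    · intro τ hτ
      have e1 := hr.2 τ hτ
      refine Eq.trans (congrArg (fun u => _ * u) e1) ?_
      ring
  have s2 : ∀ σ : Pat (2 * (n + 1) + 1), ∑ τ : Pat (2 * (n + 1) + 3), pr4 1 2 (ins σ) τ *
      eval (Fin.cons x (Fin.cons (q ^ 2 * y3) z : Fin (2 * n + 2) → ℂ) :
        Fin (2 * (n + 1) + 1) → ℂ) (Ψ σ) *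
      eval (Fin.cons y1 (Fin.cons y2 (Fin.cons y3
      (Fin.cons (q ^ 2 * y3) z : Fin (2 * n + 2) → ℂ) : Fin (2 * (n + 1) + 1) → ℂ) :
      Fin (2 * (n + 1) + 2) → ℂ) : Fin (2 * (n + 1) + 3) → ℂ) (Ψ2 τ) = _ := s1
  rw [Finset.mul_sum]
  refine Finset.sum_congr rfl fun σ _ => ?_
  rw [s2, Finset.mul_sum]

theorem S3_rec2 (n : ℕ) (Ψ Ψ' : Pat (2 * n + 3) → MvPolynomial (Fin (2 * n + 3)) ℂ)
    (Ψ2 : Pat (2 * n + 5) → MvPolynomial (Fin (2 * n + 5)) ℂ) (h : PsiSpec q (n + 1) Ψ)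
    (h' : PsiSpec (q ^ 2) (n + 1) Ψ') (h2 : PsiSpec (q ^ 2) (n + 2) Ψ2) (x t y2 y3 : ℂ)
    (z : Fin (2 * n + 1) → ℂ) :
    S3 (n + 1) Ψ Ψ2 x (q ^ 2 * t) y2 y3 (Fin.snoc z t : Fin (2 * n + 2) → ℂ)
      = Fac4 (q ^ 2) t (Fin.cons y2 (Fin.cons y3 z : Fin (2 * n + 2) → ℂ) : Fin (2 * n + 3) → ℂ)
        * S2 n Ψ Ψ' t x y2 y3 z := by
  have hq2 : (q ^ 2) ^ 2 + q ^ 2 + 1 = 0 := by linear_combination (q ^ 2 - q + 1) * hq
  have hr := psi_rec (q ^ 2) hq2 (n + 1) Ψ' h' Ψ2 h2 t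
    (Fin.cons y2 (Fin.cons y3 z : Fin (2 * n + 2) → ℂ) : Fin (2 * n + 3) → ℂ)
  have key1 : ∀ s : Pat (2 * n + 3), eval (Fin.cons x (Fin.snoc z t : Fin (2 * n + 2) → ℂ) :
        Fin (2 * n + 3) → ℂ) (Ψ s) =
      eval (Fin.cons t (Fin.cons x z : Fin (2 * n + 2) → ℂ) : Fin (2 * n + 3) → ℂ)
        (Ψ (rot (2 * n + 2) s)) := by
    intro s
    have := ev_rot h (Fin.cons t (Fin.cons x z : Fin (2 * n + 2) → ℂ) : Fin (2 * n + 3) → ℂ) s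
    refine Eq.trans ?_ this.symm
    congr 2
    refine Eq.trans ?_ (cons_comp_rotate (N := 2 * n + 2) _ _).symm
    rw [← Fin.cons_snoc_eq_snoc_cons]
  have key2 : ∀ s : Pat (2 * n + 5), eval (Fin.cons (q ^ 2 * t) (Fin.cons y2 (Fin.cons y3
      (Fin.snoc z t : Fin (2 * n + 2) → ℂ) : Fin (2 * n + 3) → ℂ) :
      Fin (2 * n + 4) → ℂ) : Fin (2 * n + 5) → ℂ) (Ψ2 s) =
      eval (Fin.cons t (Fin.cons (q ^ 2 * t) (Fin.cons y2 (Fin.cons y3 z : Fin (2 * n + 2) → ℂ) :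
        Fin (2 * n + 3) → ℂ) : Fin (2 * n + 4) → ℂ) : Fin (2 * n + 5) → ℂ)
        (Ψ2 (rot (2 * n + 4) s)) := by
    intro s
    have := ev_rot h2 (Fin.cons t (Fin.cons (q ^ 2 * t) (Fin.cons y2 (Fin.cons y3 z :
      Fin (2 * n + 2) → ℂ) : Fin (2 * n + 3) → ℂ) : Fin (2 * n + 4) → ℂ) : Fin (2 * n + 5) → ℂ) s
    refine Eq.trans ?_ this.symm
    congr 2
    refine Eq.trans ?_ (cons_comp_rotate (N := 2 * n + 4) _ _).symm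
    rw [← Fin.cons_snoc_eq_snoc_cons, ← Fin.cons_snoc_eq_snoc_cons, ← Fin.cons_snoc_eq_snoc_cons]
  have key3 : ∀ (σ : Pat (2 * n + 3)) (τ : Pat (2 * n + 5)), pr4 1 2 (ins σ) τ =
      pr4 2 3 (rot (2 * n + 4) (ins σ)) (rot (2 * n + 4) τ) := by
    intro σ τ
    have e := pr4_rot (m := 2 * n + 4) 1 2 (ins σ) τ
    rw [← e]
    rfl
  unfold S3 S2
  have s1 : ∀ σ : Pat (2 * n + 3), ∑ τ : Pat (2 * n + 5), pr4 1 2 (ins σ) τ *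
      eval (Fin.cons x (Fin.snoc z t : Fin (2 * n + 2) → ℂ) : Fin (2 * n + 3) → ℂ) (Ψ σ) *
      eval (Fin.cons (q ^ 2 * t) (Fin.cons y2 (Fin.cons y3
      (Fin.snoc z t : Fin (2 * n + 2) → ℂ) : Fin (2 * n + 3) → ℂ) :
      Fin (2 * n + 4) → ℂ) : Fin (2 * n + 5) → ℂ) (Ψ2 τ) =
      ∑ τ : Pat (2 * n + 3), Fac4 (q ^ 2) t (Fin.cons y2 (Fin.cons y3 z : Fin (2 * n + 2) → ℂ) :
        Fin (2 * n + 3) → ℂ) * (pr4 0 1 (rot (2 * n + 2) σ) τ *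
      eval (Fin.cons t (Fin.cons x z : Fin (2 * n + 2) → ℂ) : Fin (2 * n + 3) → ℂ)
        (Ψ (rot (2 * n + 2) σ)) *
      eval (Fin.cons y2 (Fin.cons y3 z : Fin (2 * n + 2) → ℂ) : Fin (2 * n + 3) → ℂ) (Ψ' τ)) := by
    intro σ
    simp_rw [key1, key2, key3]
    rw [← sum_rotInv (m := 2 * n + 4)]
    simp_rw [rot_rotInv]
    rw [sum_ins (L := 2 * n + 3)]
    · apply Finset.sum_congr rfl
      intro τ _
      have e1 := hr.1 τ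
      have e2 := pr4_zig1 (m := 2 * n + 1) (rot (2 * n + 2) σ) τ
      have e3 : rotInv (2 * n + 1 + 1) (rot (2 * n + 2) σ) = σ := rotInv_rot _ _
      rw [e3] at e2
      rw [← e2]
      refine Eq.trans (congrArg (fun u => _ * u) e1) ?_
      rw [R2_fac]
      ring
    · intro τ hτ
      have e1 := hr.2 τ hτ
      refine Eq.trans (congrArg (fun u => _ * u) e1) ?_
      ring
  have s2 : ∀ σ : Pat (2 * (n + 1) + 1), ∑ τ : Pat (2 * (n + 1) + 3), pr4 1 2 (ins σ) τ *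
      eval (Fin.cons x (Fin.snoc z t : Fin (2 * n + 2) → ℂ) :
        Fin (2 * (n + 1) + 1) → ℂ) (Ψ σ) *
      eval (Fin.cons (q ^ 2 * t) (Fin.cons y2 (Fin.cons y3
      (Fin.snoc z t : Fin (2 * n + 2) → ℂ) : Fin (2 * (n + 1) + 1) → ℂ) :
      Fin (2 * (n + 1) + 2) → ℂ) : Fin (2 * (n + 1) + 3) → ℂ) (Ψ2 τ) = _ := s1
  rw [Finset.mul_sum]
  refine Eq.trans (Finset.sum_congr rfl fun σ _ => s2 σ) ?_
  refine Eq.trans (sum_rot (m := 2 * n + 2) (fun σ => ∑ τ : Pat (2 * n + 3),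
      Fac4 (q ^ 2) t (Fin.cons y2 (Fin.cons y3 z : Fin (2 * n + 2) → ℂ) :
        Fin (2 * n + 3) → ℂ) * (pr4 0 1 σ τ *
      eval (Fin.cons t (Fin.cons x z : Fin (2 * n + 2) → ℂ) : Fin (2 * n + 3) → ℂ) (Ψ σ) *
      eval (Fin.cons y2 (Fin.cons y3 z : Fin (2 * n + 2) → ℂ) : Fin (2 * n + 3) → ℂ) (Ψ' τ)))) ?_
  refine Finset.sum_congr rfl fun σ _ => ?_
  rw [Finset.mul_sum]

end forms

end Pool.Agent.H988R3
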