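import Pool.Agent.H988R3.Defs4
import Pool.Agent.H988R3.P4Base
import Pool.Agent.H974R3.PairFormula

/-!
# Four-arm formula on the odd cylinder: exchange relations of `S3` (task Y2)
-/

namespace Pool.Agent.H988R3
open Equiv MvPolynomial Pool.Agent.H974R3

/-- `S3` as a bilinear form -/
theorem Y2_S3_KK (n : ℕ) (Ψ : Pat (2 * n + 1) → MvPolynomial (Fin (2 * n + 1)) ℂ)
    (Ψ' : Pat (2 * n + 3) → MvPolynomial (Fin (2 * n + 3)) ℂ)
    (x y1 y2 y3 : ℂ) (z : Fin (2 * n) → ℂ) :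
    S3 n Ψ Ψ' x y1 y2 y3 z =
      KK (fun (σ : Pat (2 * n + 1)) (τ : Pat (2 * n + 3)) => pr4 1 2 (ins σ) τ)
        (fun σ => eval (Fin.cons x z : Fin (2 * n + 1) → ℂ) (Ψ σ))
        (fun τ => eval (Fin.cons y1 (Fin.cons y2 (Fin.cons y3 z : Fin (2 * n + 1) → ℂ) :
          Fin (2 * n + 2) → ℂ) : Fin (2 * n + 3) → ℂ) (Ψ' τ)) := rfl

/-- an abstract form of the exchange argument: if the kernel kills the range of `g`, then the form
is proportional to the one with the exchanged argument -/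
theorem Y2_KK_anti {X Y : Type*} [Fintype X] [Fintype Y] [DecidableEq Y]
    (k : X → Y → ℂ) (g : Y → Y) (hk : ∀ σ τ, k σ (g τ) = 0) (A B C : ℂ) (u : X → ℂ)
    (w w' : Y → ℂ) (h : ∀ τ, A * w τ + B * push g w τ = C * w' τ) :
    A * KK k u w = C * KK k u w' := by
  classical
  have e0 : KK k u (push g w) = 0 := by
    rw [KK_push_right]
    unfold KK
    apply Finset.sum_eq_zero
    intro σ _
    apply Finset.sum_eq_zero
    intro τ _
    show k σ (g τ) * _ * _ = 0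
    rw [hk]
    ring
  have e2 := KK_lin_right k A B u w (push g w)
  rw [e0, mul_zero, add_zero] at e2
  rw [← e2]
  simp_rw [h]
  rw [KK_smul_right]

/-- `S3` at generic points is invariant under adjacent transpositions -/
theorem Y2_adj {q : ℂ} (hq : q ^ 2 + q + 1 = 0) {n : ℕ}
    {Ψ : Pat (2 * n + 1) → MvPolynomial (Fin (2 * n + 1)) ℂ} (h : PsiSpec q n Ψ)
    {Ψ' : Pat (2 * n + 3) → MvPolynomial (Fin (2 * n + 3)) ℂ}
    (h' : PsiSpec (q ^ 2) (n + 1) Ψ') (x y1 y2 y3 : ℂ) (z : Fin (2 * n) → ℂ) (i : ℕ)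
    (hi : i + 1 < 2 * n) (hz : z ⟨i, by omega⟩ ^ 3 ≠ z ⟨i + 1, hi⟩ ^ 3) :
    S3 n Ψ Ψ' x y1 y2 y3 (z ∘ swap ⟨i, by omega⟩ ⟨i + 1, hi⟩) = S3 n Ψ Ψ' x y1 y2 y3 z := by
  have i1 : ix (2 * n) (i + 1) = (⟨i, by omega⟩ : Fin (2 * n)).succ := ix_succ _
  have i2 : ix (2 * n) (i + 1 + 1) = (⟨i + 1, hi⟩ : Fin (2 * n)).succ := ix_succ _
  have j1 : ix (2 * (n + 1)) (i + 3) = (⟨i, by omega⟩ : Fin (2 * n)).succ.succ.succ := by
    ext; simp [ix]; omega
  have j2 : ix (2 * (n + 1)) (i + 3 + 1) = (⟨i + 1, hi⟩ : Fin (2 * n)).succ.succ.succ := by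
    ext; simp [ix]; omega
  rw [Y2_S3_KK, Y2_S3_KK]
  apply KK_symm (fun (σ : Pat (2 * n + 1)) (τ : Pat (2 * n + 3)) => pr4 1 2 (ins σ) τ)
    (E (2 * n) (i + 1)) (E (2 * n + 2) (i + 3)) ?_ (E_idem _ _) q hq (z ⟨i, by omega⟩)
    (z ⟨i + 1, hi⟩) hz
  · intro σ
    have := ev_exch h (i + 1) hi (Fin.cons x z : Fin (2 * n + 1) → ℂ) σ
    rw [i1, i2, cons_swap, Fin.cons_succ, Fin.cons_succ] at this
    exact this
  · intro τ
    have := ev_exch h' (i + 3) (by omega)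
      (Fin.cons y1 (Fin.cons y2 (Fin.cons y3 z : Fin (2 * n + 1) → ℂ) :
        Fin (2 * n + 2) → ℂ) : Fin (2 * n + 3) → ℂ) τ
    rw [j1, j2, cons_swap, cons_swap, cons_swap, Fin.cons_succ, Fin.cons_succ, Fin.cons_succ,
      Fin.cons_succ, Fin.cons_succ, Fin.cons_succ] at this
    exact this
  · intro σ τ
    show pr4 1 2 (ins (E (2 * n) (i + 1) σ)) τ = pr4 1 2 (ins σ) (E (2 * n + 2) (i + 3) τ)
    have hE : E (2 * n + 2) (i + 3) (ins σ) = ins (E (2 * n) (i + 1) σ) := ins_E hi σ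
    rw [← hE]
    have v1 : (ix (2 * n + 2) (i + 3)).val = i + 3 := Nat.mod_eq_of_lt (by omega)
    have v2 : (ix (2 * n + 2) (i + 3 + 1)).val = i + 4 := Nat.mod_eq_of_lt (by omega)
    have w1 : ((1 : Fin (2 * n + 2 + 1))).val = 1 := rfl
    have w2 : ((2 : Fin (2 * n + 2 + 1))).val = 2 := rfl
    apply pr4_E
    · intro hh
      have := congrArg Fin.val hh
      omega
    · intro hh
      have := congrArg Fin.val hh
      omega
    · intro hh
      have := congrArg Fin.val hh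
      omega
    · intro hh
      have := congrArg Fin.val hh
      omega

/-- `S3` is continuous in `z` -/
theorem Y2_cont (n : ℕ) (Ψ : Pat (2 * n + 1) → MvPolynomial (Fin (2 * n + 1)) ℂ)
    (Ψ' : Pat (2 * n + 3) → MvPolynomial (Fin (2 * n + 3)) ℂ) (x y1 y2 y3 : ℂ) :
    Continuous (fun z : Fin (2 * n) → ℂ => S3 n Ψ Ψ' x y1 y2 y3 z) := by
  unfold S3
  refine continuous_finsetSum _ fun σ _ => continuous_finsetSum _ fun τ _ => ?_
  refine ((continuous_const).mul ?_).mul ?_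
  · refine (MvPolynomial.continuous_eval (Ψ σ)).comp ?_
    refine continuous_pi fun j => ?_
    refine Fin.cases ?_ (fun j => ?_) j
    · exact continuous_const
    · exact continuous_apply _
  · refine (MvPolynomial.continuous_eval (Ψ' τ)).comp ?_
    refine continuous_pi fun j => ?_
    refine Fin.cases ?_ (fun j => ?_) j
    · exact continuous_const
    · refine Fin.cases ?_ (fun j => ?_) j
      · exact continuous_const
      · refine Fin.cases ?_ (fun j => ?_) j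
        · exact continuous_const
        · exact continuous_apply _

section forms
variable (q : ℂ) (hq : q ^ 2 + q + 1 = 0)
include hq

theorem S3_swap12 (n : ℕ) (Ψ : Pat (2 * n + 1) → MvPolynomial (Fin (2 * n + 1)) ℂ)
    (Ψ' : Pat (2 * n + 3) → MvPolynomial (Fin (2 * n + 3)) ℂ)
    (h' : PsiSpec (q ^ 2) (n + 1) Ψ') (x y1 y2 y3 : ℂ) (z : Fin (2 * n) → ℂ) :
    (q ^ 2 * y1 - q * y2) * S3 n Ψ Ψ' x y1 y2 y3 z
      = (q ^ 2 * y2 - q * y1) * S3 n Ψ Ψ' x y2 y1 y3 z := by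
  have hq3 : q ^ 3 = 1 := by linear_combination (q - 1) * hq
  have hq4 : (q ^ 2) ^ 2 = q := by linear_combination q * hq3
  rw [Y2_S3_KK, Y2_S3_KK]
  apply Y2_KK_anti (fun (σ : Pat (2 * n + 1)) (τ : Pat (2 * n + 3)) => pr4 1 2 (ins σ) τ)
    (E (2 * n + 2) 0) (fun σ τ => pr4_ins_E0 σ τ) _ (y1 - y2)
  intro τ
  have := ev_exch h' 0 (by omega)
    (Fin.cons y1 (Fin.cons y2 (Fin.cons y3 z : Fin (2 * n + 1) → ℂ) :
        Fin (2 * n + 2) → ℂ) : Fin (2 * n + 3) → ℂ) τ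
  have i0 : ix (2 * (n + 1)) 0 = (0 : Fin (2 * n + 3)) := rfl
  have i1 : ix (2 * (n + 1)) (0 + 1) = (1 : Fin (2 * n + 3)) := by
    ext; simp [ix]
  rw [i0, i1, cons_cons_swap, hq4] at this
  exact this

theorem S3_swap23 (n : ℕ) (Ψ : Pat (2 * n + 1) → MvPolynomial (Fin (2 * n + 1)) ℂ)
    (Ψ' : Pat (2 * n + 3) → MvPolynomial (Fin (2 * n + 3)) ℂ)
    (h' : PsiSpec (q ^ 2) (n + 1) Ψ') (x y1 y2 y3 : ℂ) (z : Fin (2 * n) → ℂ) :
    (q ^ 2 * y2 - q * y3) * S3 n Ψ Ψ' x y1 y2 y3 z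
      = (q ^ 2 * y3 - q * y2) * S3 n Ψ Ψ' x y1 y3 y2 z := by
  have hq3 : q ^ 3 = 1 := by linear_combination (q - 1) * hq
  have hq4 : (q ^ 2) ^ 2 = q := by linear_combination q * hq3
  rw [Y2_S3_KK, Y2_S3_KK]
  have k1 : ix (2 * n + 2) 1 = (1 : Fin (2 * n + 2 + 1)) := by
    ext; simp [ix]
  have k2 : ix (2 * n + 2) (1 + 1) = (2 : Fin (2 * n + 2 + 1)) := by
    ext
    show (1 + 1) % (2 * n + 2 + 1) = 2 % (2 * n + 2 + 1)
    rfl
  apply Y2_KK_anti (fun (σ : Pat (2 * n + 1)) (τ : Pat (2 * n + 3)) => pr4 1 2 (ins σ) τ)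
    (E (2 * n + 2) 1) (fun σ τ => by
      have := pr4_E_right (m := 2 * n + 2) (by omega) 1 (ins σ) τ
      rw [k1, k2] at this
      exact this) _ (y2 - y3)
  intro τ
  have := ev_exch h' 1 (by omega)
    (Fin.cons y1 (Fin.cons y2 (Fin.cons y3 z : Fin (2 * n + 1) → ℂ) :
        Fin (2 * n + 2) → ℂ) : Fin (2 * n + 3) → ℂ) τ
  have i0 : ix (2 * (n + 1)) 1 = (0 : Fin (2 * n + 2)).succ := by
    ext; simp [ix]
  have i1 : ix (2 * (n + 1)) (1 + 1) = (1 : Fin (2 * n + 2)).succ := by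
    ext; simp [ix]
  rw [i0, i1, cons_swap, cons_cons_swap, hq4] at this
  exact this

theorem S3_perm (n : ℕ) (Ψ : Pat (2 * n + 1) → MvPolynomial (Fin (2 * n + 1)) ℂ)
    (Ψ' : Pat (2 * n + 3) → MvPolynomial (Fin (2 * n + 3)) ℂ) (h : PsiSpec q n Ψ)
    (h' : PsiSpec (q ^ 2) (n + 1) Ψ') (x y1 y2 y3 : ℂ) (z : Fin (2 * n) → ℂ)
    (π : Perm (Fin (2 * n))) :
    S3 n Ψ Ψ' x y1 y2 y3 (z ∘ π) = S3 n Ψ Ψ' x y1 y2 y3 z := by
  have key : (fun z : Fin (2 * n) → ℂ => S3 n Ψ Ψ' x y1 y2 y3 (z ∘ π)) =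
      (fun z : Fin (2 * n) → ℂ => S3 n Ψ Ψ' x y1 y2 y3 z) := by
    apply dense_agree (Dsc (2 * n)) (Dsc_ne _) _ _ ?_ (Y2_cont n Ψ Ψ' x y1 y2 y3)
    · intro v hv
      have hG : Gn v := Dsc_gn v hv
      rcases n with _ | n
      · have : v ∘ π = v := by
          funext j
          exact j.elim0
        rw [this]
      · apply sym_of_adj (N := 2 * n + 1)
          (fun z : Fin (2 * n + 1 + 1) → ℂ => S3 (n + 1) Ψ Ψ' x y1 y2 y3 z) ?_ v hG π
        intro z hz i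
        exact Y2_adj hq h h' x y1 y2 y3 z i.val (by have := i.2; omega) (hz.2 _ _ (by
          intro h
          have := congrArg Fin.val h
          simp at this))
    · exact (Y2_cont n Ψ Ψ' x y1 y2 y3).comp (continuous_pi fun j => continuous_apply _)
  exact congrFun key z

end forms

end Pool.Agent.H988R3
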