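import Pool.Agent.H988R3.Int2
import Pool.Agent.H988R3.Sym3
import Pool.Agent.H988R3.Deg4
import Pool.Agent.H988R3.Rec3
import Pool.Agent.H988R3.Base3
import Pool.Agent.H974R3.Gen
import Pool.Agent.H974R3.Psi

/-!
# Task I2: interpolation, from `S2` to `S3`, and the conclusion
-/

namespace Pool.Agent.H988R3
open Equiv MvPolynomial Pool.Agent.H974R3

/-! ### the root of unity -/

lemma I2_q3 {q : ℂ} (hq : q ^ 2 + q + 1 = 0) : q ^ 3 = 1 := by
  have : q ^ 3 - 1 = (q - 1) * (q ^ 2 + q + 1) := by ring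
  rw [hq, mul_zero, sub_eq_zero] at this
  exact this

lemma I2_q0 {q : ℂ} (hq : q ^ 2 + q + 1 = 0) : q ≠ 0 := by
  rintro rfl
  norm_num at hq

lemma I2_q1 {q : ℂ} (hq : q ^ 2 + q + 1 = 0) : q ≠ 1 := by
  rintro rfl
  norm_num at hq

lemma I2_q21 {q : ℂ} (hq : q ^ 2 + q + 1 = 0) : q ^ 2 ≠ 1 := by
  intro h
  have h1 := I2_q3 hq
  have h2 : q = 1 := by
    calc q = q ^ 3 / q ^ 2 := by
          have := I2_q0 hq
          field_simp
      _ = 1 := by rw [h1, h, div_one]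
  exact I2_q1 hq h2

lemma I2_qq {q : ℂ} (hq : q ^ 2 + q + 1 = 0) : (q ^ 2) ^ 2 + q ^ 2 + 1 = 0 := by
  have h1 := I2_q3 hq
  have : (q ^ 2) ^ 2 = q ^ 3 * q := by ring
  rw [this, h1, one_mul]
  linear_combination hq

/-! ### permutations -/

lemma I2_g4_perm {H : List ℂ → List ℂ → ℂ} (hH : HSpec H) (a b c d : ℂ) {l l' : List ℂ}
    (h : l.Perm l') : g4 H a b c d l = g4 H a b c d l' := by
  unfold g4
  rw [hH.permv _ (a :: b :: c :: d :: (l' ++ l'))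
    _ ((((h.append h).cons d).cons c).cons b |>.cons a)]
  exact hH.permw _ _ _ (h.map _)

lemma I2_g4_cont {H : List ℂ → List ℂ → ℂ} (hH : HSpec H) (N : ℕ) :
    Continuous (fun p : (Fin 4 → ℂ) × (Fin N → ℂ) =>
      g4 H (p.1 0) (p.1 1) (p.1 2) (p.1 3) (List.ofFn p.2)) := by
  have h1 := hH.cont (4 + (N + N)) N
  have h2 : (fun p : (Fin 4 → ℂ) × (Fin N → ℂ) =>
      g4 H (p.1 0) (p.1 1) (p.1 2) (p.1 3) (List.ofFn p.2)) =
      (fun p : (Fin (4 + (N + N)) → ℂ) × (Fin N → ℂ) => H (List.ofFn p.1) (List.ofFn p.2)) ∘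
      (fun p : (Fin 4 → ℂ) × (Fin N → ℂ) =>
        ((Fin.append p.1 (Fin.append p.2 p.2), fun k => p.2 k ^ 3) :
          (Fin (4 + (N + N)) → ℂ) × (Fin N → ℂ))) := by
    funext p
    simp only [Function.comp_apply]
    unfold g4
    congr 1
    · rw [List.ofFn_fin_append, List.ofFn_fin_append]
      simp [List.ofFn_succ]
    · rw [List.map_ofFn]
      rfl
  rw [h2]
  refine h1.comp ?_
  refine Continuous.prodMk ?_ ?_
  · refine continuous_pi fun i => ?_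
    refine Fin.addCases (fun j => ?_) (fun j => ?_) i
    · simp only [Fin.append_left]
      exact (continuous_apply j).comp continuous_fst
    · simp only [Fin.append_right]
      refine Fin.addCases (fun k => ?_) (fun k => ?_) j
      · simp only [Fin.append_left]
        exact (continuous_apply k).comp continuous_snd
      · simp only [Fin.append_right]
        exact (continuous_apply k).comp continuous_snd
  · exact continuous_pi fun i => ((continuous_apply i).comp continuous_snd).pow 3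

/-! ### the closed formula at one point -/

/-- the closed formula for `S3` at level `n+1`, at one point -/
def I2_T (q : ℂ) (H : List ℂ → List ℂ → ℂ) (n : ℕ)
    (Ψ : Pat (2 * n + 3) → MvPolynomial (Fin (2 * n + 3)) ℂ)
    (Ψ2 : Pat (2 * n + 5) → MvPolynomial (Fin (2 * n + 5)) ℂ)
    (x y1 y2 y3 : ℂ) (z : Fin (2 * n + 2) → ℂ) : Prop :=
  S3 (n + 1) Ψ Ψ2 x y1 y2 y3 z * ∏ k, z k ^ 2
      = ((q ^ 2 * y2 - q * y1) * (q ^ 2 * y3 - q * y2) * (q ^ 2 * y3 - q * y1))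
        * g4 H x y1 y2 y3 (List.ofFn z)

section forms
variable (q : ℂ) (hq : q ^ 2 + q + 1 = 0)
include hq

lemma I2_T_perm {H : List ℂ → List ℂ → ℂ} (hH : HSpec H) (n : ℕ)
    (Ψ : Pat (2 * n + 3) → MvPolynomial (Fin (2 * n + 3)) ℂ)
    (Ψ2 : Pat (2 * n + 5) → MvPolynomial (Fin (2 * n + 5)) ℂ) (h : PsiSpec q (n + 1) Ψ)
    (h2 : PsiSpec (q ^ 2) (n + 2) Ψ2) (x y1 y2 y3 : ℂ) (z : Fin (2 * n + 2) → ℂ)
    (π : Perm (Fin (2 * n + 2))) (hT : I2_T q H n Ψ Ψ2 x y1 y2 y3 (z ∘ π)) :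
    I2_T q H n Ψ Ψ2 x y1 y2 y3 z := by
  unfold I2_T at hT ⊢
  have e1 : S3 (n + 1) Ψ Ψ2 x y1 y2 y3 (z ∘ π) = S3 (n + 1) Ψ Ψ2 x y1 y2 y3 z :=
    S3_perm q hq (n + 1) Ψ Ψ2 h h2 x y1 y2 y3 z π
  have e2 : ∏ k, (z ∘ π) k ^ 2 = ∏ k, z k ^ 2 := Equiv.prod_comp π (fun k => z k ^ 2)
  have e3 : g4 H x y1 y2 y3 (List.ofFn (z ∘ π)) = g4 H x y1 y2 y3 (List.ofFn z) :=
    I2_g4_perm hH _ _ _ _ (Equiv.Perm.ofFn_comp_perm π z)
  rw [e1, e2, e3] at hT
  exact hT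

lemma I2_b {H : List ℂ → List ℂ → ℂ} (hH : HSpec H) (n : ℕ) (hF : F2 q H n)
    (Ψ : Pat (2 * n + 3) → MvPolynomial (Fin (2 * n + 3)) ℂ)
    (Ψ2 : Pat (2 * n + 5) → MvPolynomial (Fin (2 * n + 5)) ℂ) (h : PsiSpec q (n + 1) Ψ)
    (h2 : PsiSpec (q ^ 2) (n + 2) Ψ2) (x y1 y2 s : ℂ) (z : Fin (2 * n + 1) → ℂ) :
    I2_T q H n Ψ Ψ2 x y1 y2 (q * s) (Fin.cons s z : Fin (2 * n + 2) → ℂ) := by
  classical
  have h3 := I2_q3 hq
  obtain ⟨Ψ', h'⟩ := exists_psi (q ^ 2) (I2_qq hq) (n + 1)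
  have e1 : q ^ 2 * (q * s) = s := by linear_combination s * h3
  have e2 : (q ^ 2) ^ 2 * (q * s) = q ^ 2 * s := by linear_combination (q ^ 2 * s) * h3
  have e4 : (q ^ 2) ^ 2 * s = q * s := by linear_combination (q * s) * h3
  have hr := S3_rec1 q hq n Ψ Ψ' Ψ2 h h' h2 x y1 y2 (q * s) z
  rw [e1] at hr
  have hf := hF Ψ Ψ' h h' x s y1 y2 z
  unfold I2_T
  -- the four-leg function
  set L := List.ofFn z with hL
  have hofn : List.ofFn (Fin.cons s z : Fin (2 * n + 2) → ℂ) = s :: L := by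
    rw [List.ofFn_succ]
    simp [hL]
  have hg : g4 H x y1 y2 (q * s) (s :: L) =
      (q ^ 2) ^ 2 * s ^ 2 * ((x - q ^ 2 * s) * (s - q ^ 2 * s) * (y1 - q ^ 2 * s) *
        (y2 - q ^ 2 * s) * (∏ j, (z j - q ^ 2 * s)) ^ 2) * g4 H x s y1 y2 L := by
    have hrec := hH.recur (q ^ 2) (I2_qq hq) s (x :: s :: y1 :: y2 :: (L ++ L))
      (L.map (fun u => u ^ 3)) (by simp [hL]; ring)
    unfold g4
    rw [List.map_cons, hH.permv (x :: y1 :: y2 :: (q * s) :: ((s :: L) ++ (s :: L)))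
      ((q ^ 2) ^ 2 * s :: s :: x :: s :: y1 :: y2 :: (L ++ L)), hrec]
    · congr 1
      congr 1
      have hp : (L.map (fun u => u - q ^ 2 * s)).prod = ∏ j, (z j - q ^ 2 * s) := by
        rw [hL, List.map_ofFn, List.prod_ofFn]
        rfl
      simp only [List.map_cons, List.map_append, List.prod_cons, List.prod_append, hp]
      ring
    · rw [e4]
      rw [List.perm_iff_count]
      intro u
      simp only [List.count_cons, List.count_append, List.cons_append]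
      ring
  rw [hofn, hg]
  have hpz : ∏ k, (Fin.cons s z : Fin (2 * n + 2) → ℂ) k ^ 2 = s ^ 2 * ∏ k, z k ^ 2 := by
    rw [Fin.prod_univ_succ]
    simp
  rw [hpz]
  have hS : S3 (n + 1) Ψ Ψ2 x y1 y2 (q * s) (Fin.cons s z : Fin (2 * n + 2) → ℂ) =
      (-(q ^ 2 - 1) * (q * s) * ((y1 - q ^ 2 * s) ^ 2 * ((y2 - q ^ 2 * s) ^ 2 *
        (∏ j, (z j - q ^ 2 * s)) ^ 2))) * S2 n Ψ Ψ' x s y1 y2 z := by
    rw [hr]
    congr 1
    unfold Fac4
    rw [e2, Fin.prod_univ_succ, Fin.prod_univ_succ]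
    simp [Finset.prod_pow]
  rw [hS]
  have hkey : (-(q ^ 2 - 1) * (q * s) * ((y1 - q ^ 2 * s) ^ 2 * ((y2 - q ^ 2 * s) ^ 2 *
        (∏ j, (z j - q ^ 2 * s)) ^ 2))) * S2 n Ψ Ψ' x s y1 y2 z * (s ^ 2 * ∏ k, z k ^ 2) =
      (-(q ^ 2 - 1) * (q * s) * ((y1 - q ^ 2 * s) ^ 2 * ((y2 - q ^ 2 * s) ^ 2 *
        (∏ j, (z j - q ^ 2 * s)) ^ 2))) * s ^ 2 *
        (-((q * s - q ^ 2 * x) * (q ^ 2 * y2 - q * y1)) * g4 H x s y1 y2 L) := by
    rw [← hf]; ring
  rw [hkey, e1]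
  set P := ∏ j, (z j - q ^ 2 * s) with hP
  set G := g4 H x s y1 y2 L with hG
  have c1 : s - q * y2 = -q * (y2 - q ^ 2 * s) := by linear_combination (-s) * h3
  have c2 : s - q * y1 = -q * (y1 - q ^ 2 * s) := by linear_combination (-s) * h3
  rw [c1, c2]
  set B1 := y1 - q ^ 2 * s
  set B2 := y2 - q ^ 2 * s
  linear_combination ((q ^ 2 - 1) * s * (B1 ^ 2 * B2 ^ 2 * P ^ 2 * s ^ 2 *
    (q ^ 2 * y2 - q * y1) * G) * (q ^ 3 * x - q ^ 2 * s * (q ^ 3 + 1))) * h3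

lemma I2_c {H : List ℂ → List ℂ → ℂ} (hH : HSpec H) (n : ℕ) (hF : F2 q H n)
    (Ψ : Pat (2 * n + 3) → MvPolynomial (Fin (2 * n + 3)) ℂ)
    (Ψ2 : Pat (2 * n + 5) → MvPolynomial (Fin (2 * n + 5)) ℂ) (h : PsiSpec q (n + 1) Ψ)
    (h2 : PsiSpec (q ^ 2) (n + 2) Ψ2) (x y1 y2 t : ℂ) (z : Fin (2 * n + 1) → ℂ)
    (ht1 : q ^ 2 * y1 - t ≠ 0) (ht2 : q ^ 2 * y2 - t ≠ 0) :
    I2_T q H n Ψ Ψ2 x y1 y2 (q ^ 2 * t) (Fin.snoc z t : Fin (2 * n + 2) → ℂ) := by
  classical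
  have h3 := I2_q3 hq
  obtain ⟨Ψ', h'⟩ := exists_psi (q ^ 2) (I2_qq hq) (n + 1)
  have e1 : q * (q ^ 2 * t) = t := by linear_combination t * h3
  have e2 : q ^ 2 * (q ^ 2 * t) = q * t := by linear_combination (q * t) * h3
  have e4 : (q ^ 2) ^ 2 * t = q * t := by linear_combination (q * t) * h3
  have hr := S3_rec2 q hq n Ψ Ψ' Ψ2 h h' h2 x t y1 y2 z
  have hf := hF Ψ Ψ' h h' t x y1 y2 z
  have s1 : (q ^ 2 * y2 - q * (q ^ 2 * t)) * S3 (n + 1) Ψ Ψ2 x y1 y2 (q ^ 2 * t)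
      (Fin.snoc z t : Fin (2 * n + 2) → ℂ) = (q ^ 2 * (q ^ 2 * t) - q * y2) *
      S3 (n + 1) Ψ Ψ2 x y1 (q ^ 2 * t) y2 (Fin.snoc z t : Fin (2 * n + 2) → ℂ) :=
    S3_swap23 q hq (n + 1) Ψ Ψ2 h2 x y1 y2 (q ^ 2 * t) (Fin.snoc z t : Fin (2 * n + 2) → ℂ)
  have s2 : (q ^ 2 * y1 - q * (q ^ 2 * t)) * S3 (n + 1) Ψ Ψ2 x y1 (q ^ 2 * t) y2
      (Fin.snoc z t : Fin (2 * n + 2) → ℂ) = (q ^ 2 * (q ^ 2 * t) - q * y1) *
      S3 (n + 1) Ψ Ψ2 x (q ^ 2 * t) y1 y2 (Fin.snoc z t : Fin (2 * n + 2) → ℂ) :=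
    S3_swap12 q hq (n + 1) Ψ Ψ2 h2 x y1 (q ^ 2 * t) y2 (Fin.snoc z t : Fin (2 * n + 2) → ℂ)
  rw [e1, e2] at s1 s2
  unfold I2_T
  set L := List.ofFn z with hL
  have hofn : List.ofFn (Fin.snoc z t : Fin (2 * n + 2) → ℂ) = L ++ [t] := by
    rw [List.ofFn_succ']
    simp [hL]
  have hg : g4 H x y1 y2 (q ^ 2 * t) (L ++ [t]) =
      q ^ 2 * t ^ 2 * ((t - q * t) * (x - q * t) * (y1 - q * t) *
        (y2 - q * t) * (∏ j, (z j - q * t)) ^ 2) * g4 H t x y1 y2 L := by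
    have hrec := hH.recur q hq t (t :: x :: y1 :: y2 :: (L ++ L))
      (L.map (fun u => u ^ 3)) (by simp [hL]; ring)
    unfold g4
    rw [hH.permv (x :: y1 :: y2 :: (q ^ 2 * t) :: ((L ++ [t]) ++ (L ++ [t])))
      (q ^ 2 * t :: t :: t :: x :: y1 :: y2 :: (L ++ L)),
      hH.permw _ ((L ++ [t]).map (fun u => u ^ 3)) (t ^ 3 :: L.map (fun u => u ^ 3)), hrec]
    · congr 1
      congr 1
      have hp : (L.map (fun u => u - q * t)).prod = ∏ j, (z j - q * t) := by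
        rw [hL, List.map_ofFn, List.prod_ofFn]
        rfl
      simp only [List.map_cons, List.map_append, List.prod_cons, List.prod_append, hp]
      ring
    · rw [List.map_append]
      exact List.perm_append_comm
    · rw [List.perm_iff_count]
      intro u
      simp only [List.count_cons, List.count_append, List.count_nil]
      ring
  rw [hofn, hg]
  have hpz : ∏ k, (Fin.snoc z t : Fin (2 * n + 2) → ℂ) k ^ 2 = t ^ 2 * ∏ k, z k ^ 2 := by
    rw [Fin.prod_univ_castSucc]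
    simp [mul_comm]
  rw [hpz]
  have hS : S3 (n + 1) Ψ Ψ2 x (q ^ 2 * t) y1 y2 (Fin.snoc z t : Fin (2 * n + 2) → ℂ) =
      (-(q ^ 2 - 1) * t * ((y1 - q * t) ^ 2 * ((y2 - q * t) ^ 2 *
        (∏ j, (z j - q * t)) ^ 2))) * S2 n Ψ Ψ' t x y1 y2 z := by
    rw [hr]
    congr 1
    unfold Fac4
    rw [e4, Fin.prod_univ_succ, Fin.prod_univ_succ]
    simp [Finset.prod_pow]
  rw [hS] at s2
  have hne : (q ^ 2 * y2 - t) * (q ^ 2 * y1 - t) ≠ 0 := mul_ne_zero ht2 ht1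
  apply mul_left_cancel₀ hne
  set S := S3 (n + 1) Ψ Ψ2 x y1 y2 (q ^ 2 * t) (Fin.snoc z t : Fin (2 * n + 2) → ℂ) with hSdef
  set S' := S3 (n + 1) Ψ Ψ2 x y1 (q ^ 2 * t) y2 (Fin.snoc z t : Fin (2 * n + 2) → ℂ)
  set P := ∏ j, (z j - q * t) with hP
  set G := g4 H t x y1 y2 L with hG
  set Z := ∏ k, z k ^ 2 with hZ
  set D := S2 n Ψ Ψ' t x y1 y2 z with hD
  have hA : (q ^ 2 * y2 - t) * (q ^ 2 * y1 - t) * (S * (t ^ 2 * Z)) =
      (q * t - q * y2) * (q * t - q * y1) * (-(q ^ 2 - 1) * t * ((y1 - q * t) ^ 2 *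
        ((y2 - q * t) ^ 2 * P ^ 2))) * t ^ 2 * (D * Z) := by
    calc (q ^ 2 * y2 - t) * (q ^ 2 * y1 - t) * (S * (t ^ 2 * Z))
        = ((q ^ 2 * y2 - t) * S) * (q ^ 2 * y1 - t) * (t ^ 2 * Z) := by ring
      _ = ((q * t - q * y2) * ((q ^ 2 * y1 - t) * S')) * (t ^ 2 * Z) := by rw [s1]; ring
      _ = _ := by rw [s2]; ring
  rw [hA, hf, e2]
  have c1 : q ^ 2 * y2 - t = q ^ 2 * (y2 - q * t) := by linear_combination t * h3
  have c2 : q ^ 2 * y1 - t = q ^ 2 * (y1 - q * t) := by linear_combination t * h3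
  rw [c1, c2]
  set C1 := y1 - q * t
  set C2 := y2 - q * t
  linear_combination ((t - y2) * (t - y1) * t ^ 3 * P ^ 2 * (q ^ 2 * y2 - q * y1) *
    (x - q * t) * G * C1 ^ 2 * C2 ^ 2 * (q ^ 6 + q ^ 3 - q ^ 5)) * h3

lemma I2_a {H : List ℂ → List ℂ → ℂ} (n : ℕ)
    (Ψ : Pat (2 * n + 3) → MvPolynomial (Fin (2 * n + 3)) ℂ)
    (Ψ2 : Pat (2 * n + 5) → MvPolynomial (Fin (2 * n + 5)) ℂ)
    (h2 : PsiSpec (q ^ 2) (n + 2) Ψ2) (x y1 y2 : ℂ) (z : Fin (2 * n + 2) → ℂ) (hy : y2 ≠ 0) :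
    I2_T q H n Ψ Ψ2 x y1 y2 (q ^ 2 * y2) z := by
  have h3 := I2_q3 hq
  have e1 : q * (q ^ 2 * y2) = y2 := by linear_combination y2 * h3
  have e2 : q ^ 2 * (q ^ 2 * y2) = q * y2 := by linear_combination (q * y2) * h3
  have s1 : (q ^ 2 * y2 - q * (q ^ 2 * y2)) * S3 (n + 1) Ψ Ψ2 x y1 y2 (q ^ 2 * y2) z =
      (q ^ 2 * (q ^ 2 * y2) - q * y2) * S3 (n + 1) Ψ Ψ2 x y1 (q ^ 2 * y2) y2 z :=
    S3_swap23 q hq (n + 1) Ψ Ψ2 h2 x y1 y2 (q ^ 2 * y2) z
  rw [e1, e2, sub_self, zero_mul] at s1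
  have hne : q ^ 2 * y2 - y2 ≠ 0 := by
    have : q ^ 2 * y2 - y2 = (q ^ 2 - 1) * y2 := by ring
    rw [this]
    exact mul_ne_zero (sub_ne_zero.2 (I2_q21 hq)) hy
  have hS := (mul_eq_zero.1 s1).resolve_left hne
  unfold I2_T
  rw [hS, e2, sub_self]
  ring

lemma I2_at1 {H : List ℂ → List ℂ → ℂ} (hH : HSpec H) (n : ℕ) (hF : F2 q H n)
    (Ψ : Pat (2 * n + 3) → MvPolynomial (Fin (2 * n + 3)) ℂ)
    (Ψ2 : Pat (2 * n + 5) → MvPolynomial (Fin (2 * n + 5)) ℂ) (h : PsiSpec q (n + 1) Ψ)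
    (h2 : PsiSpec (q ^ 2) (n + 2) Ψ2) (x y1 y2 : ℂ) (z : Fin (2 * n + 2) → ℂ)
    (k : Fin (2 * n + 2)) : I2_T q H n Ψ Ψ2 x y1 y2 (q * z k) z := by
  apply I2_T_perm q hq hH n Ψ Ψ2 h h2 x y1 y2 (q * z k) z (swap 0 k)
  have e : z ∘ (swap 0 k) = (Fin.cons (z k) (Fin.tail (z ∘ (swap 0 k))) :
      Fin (2 * n + 2) → ℂ) := by
    have : z k = (z ∘ (swap 0 k)) 0 := by simp
    rw [this, Fin.cons_self_tail]
  rw [e]
  exact I2_b q hq hH n hF Ψ Ψ2 h h2 x y1 y2 (z k) _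

lemma I2_at2 {H : List ℂ → List ℂ → ℂ} (hH : HSpec H) (n : ℕ) (hF : F2 q H n)
    (Ψ : Pat (2 * n + 3) → MvPolynomial (Fin (2 * n + 3)) ℂ)
    (Ψ2 : Pat (2 * n + 5) → MvPolynomial (Fin (2 * n + 5)) ℂ) (h : PsiSpec q (n + 1) Ψ)
    (h2 : PsiSpec (q ^ 2) (n + 2) Ψ2) (x y1 y2 : ℂ) (z : Fin (2 * n + 2) → ℂ)
    (k : Fin (2 * n + 2)) (h4 : q ^ 2 * y1 - z k ≠ 0) (h5 : q ^ 2 * y2 - z k ≠ 0) :
    I2_T q H n Ψ Ψ2 x y1 y2 (q ^ 2 * z k) z := by
  apply I2_T_perm q hq hH n Ψ Ψ2 h h2 x y1 y2 (q ^ 2 * z k) z (swap (Fin.last _) k)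
  have e : z ∘ (swap (Fin.last _) k) = (Fin.snoc (Fin.init (z ∘ (swap (Fin.last _) k))) (z k) :
      Fin (2 * n + 2) → ℂ) := by
    have : z k = (z ∘ (swap (Fin.last _) k)) (Fin.last _) := by simp
    rw [this, Fin.snoc_init_self]
  rw [e]
  exact I2_c q hq hH n hF Ψ Ψ2 h h2 x y1 y2 (z k) _ h4 h5

lemma I2_generic {H : List ℂ → List ℂ → ℂ} (hH : HSpec H) (n : ℕ) (hF : F2 q H n)
    (Ψ : Pat (2 * n + 3) → MvPolynomial (Fin (2 * n + 3)) ℂ)
    (Ψ2 : Pat (2 * n + 5) → MvPolynomial (Fin (2 * n + 5)) ℂ) (h : PsiSpec q (n + 1) Ψ)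
    (h2 : PsiSpec (q ^ 2) (n + 2) Ψ2) (x y1 y2 : ℂ) (z : Fin (2 * n + 2) → ℂ) (hy : y2 ≠ 0)
    (hzz : ∀ k l, k ≠ l → z k ≠ z l) (hz2 : ∀ k l, z k ≠ q * z l) (hzy : ∀ k, z k ≠ y2)
    (hzy' : ∀ k, z k ≠ q * y2) (h1z : ∀ k, y1 ≠ q * z k) (h2z : ∀ k, y2 ≠ q * z k) (y3 : ℂ) :
    I2_T q H n Ψ Ψ2 x y1 y2 y3 z := by
  classical
  have hq0 := I2_q0 hq
  have h3 := I2_q3 hq
  obtain ⟨P1, hd1, he1⟩ := S3_deg q (n + 1) Ψ Ψ2 h2 x y1 y2 z
  set L := List.ofFn z with hL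
  obtain ⟨P2, hd2, he2⟩ := hH.deg (x :: y1 :: y2 :: (L ++ L)) (L.map (fun u => u ^ 3))
    (by simp [hL]; ring)
  have hd2' : P2.natDegree ≤ 2 * n + 2 := by simpa [hL] using hd2
  set P : Polynomial ℂ := P1 * Polynomial.C (∏ k, z k ^ 2) - Polynomial.C (q ^ 2 * y2 - q * y1) *
    ((Polynomial.C (q ^ 2) * Polynomial.X - Polynomial.C (q * y2)) * (Polynomial.C (q ^ 2) * Polynomial.X - Polynomial.C (q * y1))) * P2 with hP
  have hPe : ∀ y, P.eval y = 0 ↔ I2_T q H n Ψ Ψ2 x y1 y2 y z := by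
    intro y
    have e2 : P2.eval y = g4 H x y1 y2 y L := by
      rw [he2]
      unfold g4
      apply hH.permv
      rw [List.perm_iff_count]
      intro u
      simp only [List.count_cons, List.count_append]
      ring
    unfold I2_T
    rw [hP]
    simp only [Polynomial.eval_sub, Polynomial.eval_mul, Polynomial.eval_C, Polynomial.eval_X, he1, e2]
    rw [sub_eq_zero]
    constructor
    · intro hh
      rw [hh]
      ring
    · intro hh
      have : S3 (n + 1) Ψ Ψ2 x y1 y2 y z * ∏ k, z k ^ 2 = ((q ^ 2 * y2 - q * y1) *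
        (q ^ 2 * y - q * y2) * (q ^ 2 * y - q * y1)) * g4 H x y1 y2 y L := hh
      refine Eq.trans this ?_
      ring
  have hPd : P.natDegree ≤ 2 * n + 4 := by
    rw [hP]
    refine (Polynomial.natDegree_sub_le _ _).trans (max_le ?_ ?_)
    · refine Polynomial.natDegree_mul_le.trans ?_
      rw [Polynomial.natDegree_C]
      omega
    · refine Polynomial.natDegree_mul_le.trans ?_
      have hl : ∀ b : ℂ, (Polynomial.C (q ^ 2) * Polynomial.X - Polynomial.C b : Polynomial ℂ).natDegree ≤ 1 := by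
        intro b
        refine (Polynomial.natDegree_sub_le _ _).trans (max_le ?_ ?_)
        · refine Polynomial.natDegree_mul_le.trans ?_
          rw [Polynomial.natDegree_C, Polynomial.natDegree_X]
        · rw [Polynomial.natDegree_C]; exact Nat.zero_le _
      have hl2 : (Polynomial.C (q ^ 2 * y2 - q * y1) * ((Polynomial.C (q ^ 2) * Polynomial.X - Polynomial.C (q * y2)) *
          (Polynomial.C (q ^ 2) * Polynomial.X - Polynomial.C (q * y1))) : Polynomial ℂ).natDegree ≤ 2 := by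
        refine Polynomial.natDegree_mul_le.trans ?_
        rw [Polynomial.natDegree_C, zero_add]
        refine Polynomial.natDegree_mul_le.trans ?_
        have := hl (q * y2)
        have := hl (q * y1)
        omega
      omega
  let f : Option (Fin (2 * n + 2) ⊕ Fin (2 * n + 2)) → ℂ := fun o => match o with
    | none => q ^ 2 * y2
    | some (Sum.inl k) => q * z k
    | some (Sum.inr k) => q ^ 2 * z k
  have hq2 : ∀ {a b : ℂ}, q ^ 2 * a = q ^ 2 * b → a = b := fun h =>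
    mul_left_cancel₀ (pow_ne_zero 2 hq0) h
  have hq1' : ∀ {a b : ℂ}, q * a = q * b → a = b := fun h => mul_left_cancel₀ hq0 h
  have hq12 : ∀ {a b : ℂ}, q * a = q ^ 2 * b → a = q * b := fun h => by
    apply mul_left_cancel₀ hq0
    rw [h]; ring
  have hf : Function.Injective f := by
    intro a b hab
    match a, b, hab with
    | none, none, _ => rfl
    | none, some (Sum.inl k), hab => exact absurd (hq12 hab.symm) (hzy' k)
    | none, some (Sum.inr k), hab => exact absurd (hq2 hab.symm) (hzy k)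
    | some (Sum.inl k), none, hab => exact absurd (hq12 hab) (hzy' k)
    | some (Sum.inr k), none, hab => exact absurd (hq2 hab) (hzy k)
    | some (Sum.inl k), some (Sum.inl l), hab =>
      have h1 : z k = z l := hq1' hab
      by_contra hc
      exact hzz k l (fun h => hc (by rw [h])) h1
    | some (Sum.inl k), some (Sum.inr l), hab => exact absurd (hq12 hab) (hz2 k l)
    | some (Sum.inr k), some (Sum.inl l), hab => exact absurd (hq12 hab.symm) (hz2 l k)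
    | some (Sum.inr k), some (Sum.inr l), hab =>
      have h1 : z k = z l := hq2 hab
      by_contra hc
      exact hzz k l (fun h => hc (by rw [h])) h1
  have hP0 : P = 0 := by
    refine Polynomial.eq_zero_of_natDegree_lt_card_of_eval_eq_zero P hf ?_ ?_
    · intro o
      rw [hPe]
      match o with
      | none => exact I2_a q hq n Ψ Ψ2 h2 x y1 y2 z hy
      | some (Sum.inl k) => exact I2_at1 q hq hH n hF Ψ Ψ2 h h2 x y1 y2 z k
      | some (Sum.inr k) =>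
        refine I2_at2 q hq hH n hF Ψ Ψ2 h h2 x y1 y2 z k ?_ ?_
        · intro hc
          apply h1z k
          have : q ^ 2 * y1 = z k := sub_eq_zero.1 hc
          rw [← this]
          linear_combination (-y1) * h3
        · intro hc
          apply h2z k
          have : q ^ 2 * y2 = z k := sub_eq_zero.1 hc
          rw [← this]
          linear_combination (-y2) * h3
    · simp only [Fintype.card_option, Fintype.card_sum, Fintype.card_fin]
      omega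
  rw [← hPe, hP0, Polynomial.eval_zero]

/-- `q` is not real -/
lemma I2_real (a b : ℕ) : ((a + 1 : ℕ) : ℂ) ≠ q * ((b + 1 : ℕ) : ℂ) := by
  intro hc
  have hb : ((b + 1 : ℕ) : ℂ) ≠ 0 := Nat.cast_ne_zero.2 (Nat.succ_ne_zero b)
  have h1 : ((a + 1 : ℕ) : ℂ) ^ 2 + ((a + 1 : ℕ) : ℂ) * ((b + 1 : ℕ) : ℂ) +
      ((b + 1 : ℕ) : ℂ) ^ 2 = 0 := by
    rw [hc]
    linear_combination (((b + 1 : ℕ) : ℂ) ^ 2) * hq
  have h2 : ((((a + 1) ^ 2 + (a + 1) * (b + 1) + (b + 1) ^ 2 : ℕ)) : ℂ) = 0 := by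
    push_cast
    push_cast at h1
    linear_combination h1
  have h3 : (a + 1) ^ 2 + (a + 1) * (b + 1) + (b + 1) ^ 2 = 0 := by exact_mod_cast h2
  have h4 : 0 < (a + 1) ^ 2 := by positivity
  omega

omit hq in
lemma I2_map (N : ℕ) (x y3 : ℂ) : Continuous (fun p : Fin (N + 2) → ℂ =>
      ((![x, p 0, p 1, y3], fun k : Fin N => p k.succ.succ) :
        (Fin 4 → ℂ) × (Fin N → ℂ))) := by
  refine Continuous.prodMk ?_ ?_
  · refine continuous_pi fun i => ?_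
    fin_cases i
    · exact continuous_const
    · exact continuous_apply _
    · exact continuous_apply _
    · exact continuous_const
  · exact continuous_pi fun i => continuous_apply _

omit hq in
lemma I2_comp4 (N : ℕ) (F : ℂ → ℂ → ℂ → ℂ → (Fin N → ℂ) → ℂ)
    (hF : Continuous (fun p : (Fin 4 → ℂ) × (Fin N → ℂ) => F (p.1 0) (p.1 1) (p.1 2) (p.1 3) p.2))
    (x y3 : ℂ) : Continuous (fun p : Fin (N + 2) → ℂ =>
      F x (p 0) (p 1) y3 (fun k : Fin N => p k.succ.succ)) :=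
  hF.comp (I2_map N x y3)

theorem F3_of_F2 (H : List ℂ → List ℂ → ℂ) (hH : HSpec H) (n : ℕ) (h : F2 q H n) :
    F3 q H (n + 1) := by
  classical
  intro Ψ Ψ2 hΨ hΨ2 x y1 y2 y3 z
  let N := 2 * n + 4
  let D : MvPolynomial (Fin N) ℂ := (∏ i, X i) * ((∏ i, ∏ j, if i = j then 1 else (X i - X j)) *
    ∏ i, ∏ j, (X i - C q * X j))
  have hDe : ∀ p : Fin N → ℂ, eval p D = (∏ i, p i) * ((∏ i, ∏ j, if i = j then 1 else (p i - p j)) *
      ∏ i, ∏ j, (p i - q * p j)) := by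
    intro p
    simp only [D, map_mul, map_prod, eval_X, map_sub, eval_C]
    congr 2
    refine Finset.prod_congr rfl fun i _ => Finset.prod_congr rfl fun j _ => ?_
    split_ifs <;> simp
  have hD : D ≠ 0 := by
    intro hc
    have h1 := hDe (fun j => ((j.val + 1 : ℕ) : ℂ))
    rw [hc, map_zero] at h1
    have h2 := h1.symm
    rw [mul_eq_zero, mul_eq_zero] at h2
    rcases h2 with h2 | h2 | h2
    · obtain ⟨i, -, hi⟩ := Finset.prod_eq_zero_iff.1 h2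
      exact absurd hi (Nat.cast_ne_zero.2 (Nat.succ_ne_zero _))
    · obtain ⟨i, -, hi⟩ := Finset.prod_eq_zero_iff.1 h2
      obtain ⟨j, -, hj⟩ := Finset.prod_eq_zero_iff.1 hi
      by_cases hij : i = j
      · rw [if_pos hij] at hj; exact one_ne_zero hj
      · rw [if_neg hij, sub_eq_zero] at hj
        have h3 : i.val + 1 = j.val + 1 := by exact_mod_cast hj
        exact hij (Fin.ext (by omega))
    · obtain ⟨i, -, hi⟩ := Finset.prod_eq_zero_iff.1 h2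
      obtain ⟨j, -, hj⟩ := Finset.prod_eq_zero_iff.1 hi
      exact I2_real q hq i.val j.val (sub_eq_zero.1 hj)
  let fS : (Fin N → ℂ) → ℂ := fun p =>
    S3 (n + 1) Ψ Ψ2 x (p 0) (p 1) y3 (fun k : Fin (2 * n + 2) => p k.succ.succ) *
      ∏ k : Fin (2 * n + 2), p k.succ.succ ^ 2
  let fR : (Fin N → ℂ) → ℂ := fun p =>
    ((q ^ 2 * p 1 - q * p 0) * (q ^ 2 * y3 - q * p 1) * (q ^ 2 * y3 - q * p 0))
        * g4 H x (p 0) (p 1) y3 (List.ofFn (fun k : Fin (2 * n + 2) => p k.succ.succ))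
  have hfS : Continuous fS := by
    refine Continuous.mul ?_ ?_
    · exact I2_comp4 (2 * n + 2) (fun a b c d w => S3 (n + 1) Ψ Ψ2 a b c d w)
        (S3_cont (n + 1) Ψ Ψ2) x y3
    · exact continuous_finsetProd _ fun k _ => (continuous_apply _).pow 2
  have hfR : Continuous fR := by
    refine Continuous.mul ?_ ?_
    · have c0 : Continuous (fun p : Fin N → ℂ => p 0) := continuous_apply _
      have c1 : Continuous (fun p : Fin N → ℂ => p 1) := continuous_apply _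
      exact (((continuous_const.mul c1).sub (continuous_const.mul c0)).mul
        (continuous_const.sub (continuous_const.mul c1))).mul
        (continuous_const.sub (continuous_const.mul c0))
    · exact I2_comp4 (2 * n + 2) (fun a b c d w => g4 H a b c d (List.ofFn w))
        (I2_g4_cont hH (2 * n + 2)) x y3
  have hagree := dense_agree D hD fS fR hfS hfR ?_
  · have h1 := congrFun hagree (Fin.cons y1 (Fin.cons y2 z : Fin (2 * n + 3) → ℂ) : Fin N → ℂ)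
    exact h1
  · intro p hp
    rw [hDe] at hp
    have hp1 : ∀ i, p i ≠ 0 := fun i hc => hp (by
      rw [Finset.prod_eq_zero (Finset.mem_univ i) hc, zero_mul])
    have hp2 : ∀ i j, i ≠ j → p i ≠ p j := fun i j hij hc => hp (by
      have : ∏ i, ∏ j, (if i = j then 1 else (p i - p j)) = 0 :=
        Finset.prod_eq_zero (Finset.mem_univ i) (Finset.prod_eq_zero (Finset.mem_univ j)
        (by rw [if_neg hij, hc, sub_self]))
      rw [this, zero_mul, mul_zero])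
    have hp3 : ∀ i j, p i ≠ q * p j := fun i j hc => hp (by
      have : ∏ i, ∏ j, (p i - q * p j) = 0 :=
        Finset.prod_eq_zero (Finset.mem_univ i) (Finset.prod_eq_zero (Finset.mem_univ j)
        (by rw [hc, sub_self]))
      rw [this, mul_zero, mul_zero])
    refine I2_generic q hq hH n h Ψ Ψ2 hΨ hΨ2 x (p 0) (p 1)
      (fun k : Fin (2 * n + 2) => p k.succ.succ) (hp1 1) ?_ ?_ ?_ ?_ ?_ ?_ y3
    · intro k l hkl
      exact hp2 _ _ (fun hc => hkl (Fin.succ_injective _ (Fin.succ_injective _ hc)))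
    · exact fun k l => hp3 _ _
    · intro k
      refine hp2 _ _ ?_
      intro hc
      have := congrArg Fin.val hc
      simp at this
    · exact fun k => hp3 _ _
    · exact fun k => hp3 _ _
    · exact fun k => hp3 _ _

theorem F3_zero (H : List ℂ → List ℂ → ℂ) (hH : HSpec H) : F3 q H 0 := by
  intro Ψ Ψ' h h' x y1 y2 y3 z
  have h1 := S3_base q hq Ψ Ψ' h h' x y1 y2 y3 z
  have h2 : g4 H x y1 y2 y3 (List.ofFn z) = 1 := by
    unfold g4
    have : List.ofFn z = [] := by simp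
    rw [this]
    exact hH.nil x y1 y2 y3
  rw [h2, mul_one]
  have h3 : ∏ k : Fin (2 * 0), z k ^ 2 = 1 := by
    have : IsEmpty (Fin (2 * 0)) := by rw [mul_zero]; infer_instance
    exact Fintype.prod_empty _
  rw [h3, mul_one]
  exact h1

theorem F2_all (H : List ℂ → List ℂ → ℂ) (hH : HSpec H) (n : ℕ) : F2 q H n := by
  induction n with
  | zero => exact F2_of_F3 q hq H hH 0 (F3_zero q hq H hH)
  | succ n ih => exact F2_of_F3 q hq H hH (n + 1) (F3_of_F2 q hq H hH n ih)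

end forms

end Pool.Agent.H988R3
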