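import Pool.Agent.H988R3.PBDefs

/-!
# Task V1: the value at 1 of the four-leg function
-/

namespace Pool.Agent.H988R3
open Matrix Pool.Agent.H974R3

namespace V1

/-! ## complete homogeneous polynomials at ones -/

noncomputable def hh (n k : ℕ) : ℂ := hsym (List.replicate n 1) k

theorem Hs_eq (n : ℕ) : PowerSeries.mk (hh n) = (PowerSeries.mk (1 : ℕ → ℂ)) ^ n := by
  induction n with
  | zero =>
    ext k
    simp [hh, hsym, PowerSeries.coeff_one]
  | succ n ih =>
    rw [pow_succ', ← ih]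
    ext k
    rw [PowerSeries.coeff_mul, Finset.Nat.sum_antidiagonal_eq_sum_range_succ_mk]
    simp [hh, hsym, List.replicate_succ]

theorem hh_choose (m j : ℕ) : hh (m + 1) j = ((m + j).choose m : ℂ) := by
  have h := congrArg (PowerSeries.coeff j) (Hs_eq (m + 1))
  rw [PowerSeries.mk_one_pow_eq_mk_choose_add] at h
  simpa using h

/-- first transition matrix -/
noncomputable def U1 (N k i : ℕ) : ℂ :=
  ((Polynomial.X ^ k * (1 - Polynomial.X) ^ (N - 1 - k) : Polynomial ℂ)).coeff i

theorem U1_lt (N k i : ℕ) (h : i < k) : U1 N k i = 0 := by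
  unfold U1
  rw [Polynomial.coeff_X_pow_mul', if_neg (by omega)]

theorem U1_diag (N k : ℕ) : U1 N k k = 1 := by
  unfold U1
  rw [Polynomial.coeff_X_pow_mul', if_pos le_rfl, Nat.sub_self, Polynomial.coeff_zero_eq_eval_zero]
  simp

theorem U1_ge (N k i : ℕ) (hk : k < N) (h : N ≤ i) : U1 N k i = 0 := by
  unfold U1
  refine Polynomial.coeff_eq_zero_of_natDegree_lt (lt_of_le_of_lt ?_ (lt_of_lt_of_le (Nat.sub_lt (by omega : 0 < N) one_pos) h))
  refine (Polynomial.natDegree_mul_le).trans ?_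
  have h1 : (Polynomial.X ^ k : Polynomial ℂ).natDegree ≤ k := Polynomial.natDegree_X_pow_le k
  have h2 : ((1 - Polynomial.X : Polynomial ℂ) ^ (N - 1 - k)).natDegree ≤ (N - 1 - k) * 1 := by
    refine Polynomial.natDegree_pow_le_of_le _ ?_
    refine (Polynomial.natDegree_sub_le _ _).trans ?_
    simp
  omega

theorem U1_row (N k e : ℕ) (hk : k < N) :
    ∑ i : Fin N, U1 N k i * (if (i : ℕ) ≤ e then hh N (e - i) else 0) = (e.choose k : ℂ) := by
  rw [Finset.sum_fin_eq_sum_range]
  have e1 : ∑ i ∈ Finset.range N, (if h : i < N then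
      U1 N k ((⟨i, h⟩ : Fin N) : ℕ) * (if (((⟨i, h⟩ : Fin N) : ℕ)) ≤ e then hh N (e - ((⟨i, h⟩ : Fin N) : ℕ)) else 0)
        else 0) = ∑ i ∈ Finset.range (N + e + 1), U1 N k i * (if i ≤ e then hh N (e - i) else 0) := by
    symm
    rw [← Finset.sum_subset (Finset.range_subset_range.2 (show N ≤ N + e + 1 by omega))]
    · refine Finset.sum_congr rfl fun i hi => ?_
      rw [Finset.mem_range] at hi
      simp [hi]
    · intro i _ hi
      rw [Finset.mem_range, not_lt] at hi
      rw [U1_ge N k i hk hi, zero_mul]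
  rw [e1]
  have e2 : ∑ i ∈ Finset.range (N + e + 1), U1 N k i * (if i ≤ e then hh N (e - i) else 0)
      = ∑ i ∈ Finset.range (e + 1), U1 N k i * hh N (e - i) := by
    symm
    rw [← Finset.sum_subset (Finset.range_subset_range.2 (show e + 1 ≤ N + e + 1 by omega))]
    · refine Finset.sum_congr rfl fun i hi => ?_
      rw [Finset.mem_range] at hi
      rw [if_pos (by omega)]
    · intro i _ hi
      rw [Finset.mem_range, not_lt] at hi
      rw [if_neg (by omega), mul_zero]
  rw [e2]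
  have e3 : ∑ i ∈ Finset.range (e + 1), U1 N k i * hh N (e - i)
      = PowerSeries.coeff e (((Polynomial.X ^ k * (1 - Polynomial.X) ^ (N - 1 - k) :
          Polynomial ℂ) : PowerSeries ℂ) * PowerSeries.mk (hh N)) := by
    rw [PowerSeries.coeff_mul, Finset.Nat.sum_antidiagonal_eq_sum_range_succ_mk]
    refine Finset.sum_congr rfl fun i _ => ?_
    rw [Polynomial.coeff_coe, PowerSeries.coeff_mk]
    rfl
  rw [e3, Hs_eq]
  have e4 : ((Polynomial.X ^ k * (1 - Polynomial.X) ^ (N - 1 - k) :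
          Polynomial ℂ) : PowerSeries ℂ) * (PowerSeries.mk (1 : ℕ → ℂ)) ^ N
        = PowerSeries.X ^ k * (PowerSeries.mk (1 : ℕ → ℂ)) ^ (k + 1) := by
    have h1 : (PowerSeries.mk (1 : ℕ → ℂ)) * (1 - PowerSeries.X) = 1 :=
      PowerSeries.mk_one_mul_one_sub_eq_one ℂ
    have h2 : N = (N - 1 - k) + (k + 1) := by omega
    have h3 : (PowerSeries.mk (1 : ℕ → ℂ)) ^ N
        = (PowerSeries.mk (1 : ℕ → ℂ)) ^ (N - 1 - k) * (PowerSeries.mk (1 : ℕ → ℂ)) ^ (k + 1) := by
      rw [← pow_add, ← h2]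
    rw [h3]
    push_cast
    calc PowerSeries.X ^ k * (1 - PowerSeries.X) ^ (N - 1 - k) *
        (PowerSeries.mk (1 : ℕ → ℂ) ^ (N - 1 - k) * PowerSeries.mk (1 : ℕ → ℂ) ^ (k + 1))
        = PowerSeries.X ^ k * ((PowerSeries.mk (1 : ℕ → ℂ)) * (1 - PowerSeries.X)) ^ (N - 1 - k)
          * PowerSeries.mk (1 : ℕ → ℂ) ^ (k + 1) := by rw [mul_pow]; ring
      _ = _ := by rw [h1, one_pow, mul_one]
  rw [e4, PowerSeries.coeff_X_pow_mul', PowerSeries.mk_one_pow_eq_mk_choose_add]
  by_cases h : k ≤ e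
  · rw [if_pos h, PowerSeries.coeff_mk]
    congr 2
    omega
  · rw [if_neg h, Nat.choose_eq_zero_of_lt (by omega)]
    simp

/-! ## second transition: Newton bases -/

theorem newton (b : ℕ → ℂ) (k : ℕ) : ∃ c : ℕ → ℂ, (∀ i, k < i → c i = 0) ∧ c k = 1 ∧
    ∀ x : ℕ, (∏ j ∈ Finset.range k, ((x : ℂ) - b j)) / (k.factorial : ℂ)
      = ∑ i ∈ Finset.range (k + 1), c i * (x.choose i : ℂ) := by
  induction k with
  | zero =>
    refine ⟨fun i => if i = 0 then 1 else 0, ?_, by simp, ?_⟩
    · intro i hi; simp; omega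
    · intro x; simp
  | succ k ih =>
    obtain ⟨c, hc0, hc1, hc⟩ := ih
    have hk : ((k : ℂ) + 1) ≠ 0 := by exact_mod_cast Nat.succ_ne_zero k
    refine ⟨fun i => ((i : ℂ) * c (i - 1) + ((i : ℂ) - b k) * c i) / ((k : ℂ) + 1), ?_, ?_, ?_⟩
    · intro i hi
      beta_reduce
      rw [hc0 i (by omega), hc0 (i - 1) (by omega)]
      simp
    · beta_reduce
      rw [hc0 (k + 1) (by omega), Nat.add_sub_cancel, hc1]
      push_cast
      field_simp
      ring
    · intro x
      rw [Finset.prod_range_succ, Nat.factorial_succ]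
      push_cast
      have h1 : (∏ j ∈ Finset.range k, ((x : ℂ) - b j)) * ((x : ℂ) - b k)
          / (((k : ℂ) + 1) * (k.factorial : ℂ))
          = ((∏ j ∈ Finset.range k, ((x : ℂ) - b j)) / (k.factorial : ℂ)) * ((x : ℂ) - b k)
            / ((k : ℂ) + 1) := by
        have : (k.factorial : ℂ) ≠ 0 := by exact_mod_cast Nat.factorial_ne_zero k
        field_simp
      rw [h1, hc x, Finset.sum_mul]
      have h2 : ∀ i : ℕ, c i * (x.choose i : ℂ) * ((x : ℂ) - b k)
          = ((i : ℂ) + 1) * c i * (x.choose (i + 1) : ℂ) + ((i : ℂ) - b k) * c i * (x.choose i : ℂ) := by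
        intro i
        have h3 : ((x.choose (i + 1) : ℕ) : ℂ) * ((i : ℂ) + 1) = (x.choose i : ℂ) * ((x : ℂ) - i) := by
          by_cases hix : i ≤ x
          · have := Nat.choose_succ_right_eq x i
            have h4 := congrArg (fun t : ℕ => (t : ℂ)) this
            simp only [Nat.cast_mul, Nat.cast_add, Nat.cast_one] at h4
            rw [Nat.cast_sub hix] at h4
            exact h4
          · rw [Nat.choose_eq_zero_of_lt (by omega : x < i), Nat.choose_eq_zero_of_lt (by omega : x < i + 1)]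
            simp
        linear_combination (-(c i)) * h3
      rw [Finset.sum_congr rfl fun i _ => h2 i, Finset.sum_add_distrib]
      have h5 : ∑ i ∈ Finset.range (k + 1 + 1),
          ((i : ℂ) * c (i - 1) + ((i : ℂ) - b k) * c i) / ((k : ℂ) + 1) * (x.choose i : ℂ)
          = (∑ i ∈ Finset.range (k + 1 + 1), (i : ℂ) * c (i - 1) * (x.choose i : ℂ)
            + ∑ i ∈ Finset.range (k + 1 + 1), ((i : ℂ) - b k) * c i * (x.choose i : ℂ))
              / ((k : ℂ) + 1) := by
        rw [← Finset.sum_add_distrib, Finset.sum_div]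
        refine Finset.sum_congr rfl fun i _ => ?_
        ring
      rw [h5, Finset.sum_range_succ' (fun i : ℕ => (i : ℂ) * c (i - 1) * (x.choose i : ℂ)) (k + 1),
        Finset.sum_range_succ (fun i : ℕ => ((i : ℂ) - b k) * c i * (x.choose i : ℂ)) (k + 1),
        hc0 (k + 1) (by omega)]
      simp

/-! ## the big matrix -/

/-- rows `φ` (all columns), rows `ψ` (columns divisible by 3); the columns are the points `pt` -/
noncomputable def Big {N M : ℕ} {C : Type*} (φ : Fin N → ℕ → ℂ) (ψ : Fin M → ℕ → ℂ) (pt : C → ℕ) :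
    Matrix (Fin N ⊕ Fin M) C ℂ :=
  Matrix.of fun r c => Sum.elim (fun k => φ k (pt c))
    (fun k => if pt c % 3 = 0 then ψ k (pt c / 3) else 0) r

theorem big_mul {N M : ℕ} {C : Type*} (φ φ' : Fin N → ℕ → ℂ) (ψ ψ' : Fin M → ℕ → ℂ)
    (pt : C → ℕ) (U : Matrix (Fin N) (Fin N) ℂ) (U' : Matrix (Fin M) (Fin M) ℂ)
    (h : ∀ k x, ∑ i, U k i * φ i x = φ' k x) (h' : ∀ k x, ∑ i, U' k i * ψ i x = ψ' k x) :
    Matrix.fromBlocks U 0 0 U' * Big φ ψ pt = Big φ' ψ' pt := by
  ext r c
  rcases r with k | k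
  · simp [Matrix.mul_apply, Big, Fintype.sum_sum_type, h]
  · by_cases hc : pt c % 3 = 0
    · simp [Matrix.mul_apply, Big, Fintype.sum_sum_type, h', hc]
    · simp [Matrix.mul_apply, Big, Fintype.sum_sum_type, hc]

theorem big_det {N M : ℕ} (φ φ' : Fin N → ℕ → ℂ) (ψ ψ' : Fin M → ℕ → ℂ)
    (pt : Fin N ⊕ Fin M → ℕ) (U : Matrix (Fin N) (Fin N) ℂ) (U' : Matrix (Fin M) (Fin M) ℂ)
    (hU : U.det = 1) (hU' : U'.det = 1)
    (h : ∀ k x, ∑ i, U k i * φ i x = φ' k x) (h' : ∀ k x, ∑ i, U' k i * ψ i x = ψ' k x) :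
    (Big φ' ψ' pt).det = (Big φ ψ pt).det := by
  rw [← big_mul φ φ' ψ ψ' pt U U' h h', Matrix.det_mul, Matrix.det_fromBlocks_zero₂₁, hU, hU']
  simp

theorem HH_eq (v w : List ℂ) (N M : ℕ) (hN : v.length = N) (hM : w.length = M) :
    HH v w = (HMat N M v w).det := by
  subst hN; subst hM; rfl

/-- the columns -/
def pt0 (N M : ℕ) (c : Fin N ⊕ Fin M) : ℕ := (finSumFinEquiv c).val

/-- step 1: the rows become binomial coefficients -/
theorem step1 (N M : ℕ) :
    HH (List.replicate N 1) (List.replicate M 1)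
      = (Big (fun (k : Fin N) x => (x.choose k : ℂ)) (fun (k : Fin M) x => (x.choose k : ℂ))
          (pt0 N M)).det := by
  rw [HH_eq _ _ N M List.length_replicate List.length_replicate,
    ← Matrix.det_submatrix_equiv_self (finSumFinEquiv (m := N) (n := M))]
  rw [big_det (fun (k : Fin N) x => if (k : ℕ) ≤ x then hh N (x - k) else 0)
    (fun (k : Fin N) x => (x.choose k : ℂ))
    (fun (k : Fin M) x => if (k : ℕ) ≤ x then hh M (x - k) else 0)
    (fun (k : Fin M) x => (x.choose k : ℂ)) (pt0 N M)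
    (Matrix.of fun k i => U1 N k i) (Matrix.of fun k i => U1 M k i)]
  · congr 1
    ext r c
    rcases r with k | k
    · simp only [HMat, Big, hh, Matrix.submatrix_apply, Matrix.of_apply, finSumFinEquiv_apply_left,
        Fin.val_castAdd, Sum.elim_inl]
      rw [if_pos k.2]
      rfl
    · simp only [HMat, Big, hh, Matrix.submatrix_apply, Matrix.of_apply, finSumFinEquiv_apply_right,
        Fin.val_natAdd, Sum.elim_inr]
      rw [if_neg (by omega), Nat.add_sub_cancel_left]
      have hc : (finSumFinEquiv c).val = pt0 N M c := rfl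
      rw [hc]
      by_cases h1 : pt0 N M c % 3 = 0
      · by_cases h2 : (k : ℕ) ≤ pt0 N M c / 3
        · rw [if_pos ⟨h1, h2⟩, if_pos h1, if_pos h2]
        · rw [if_neg (fun h => h2 h.2), if_pos h1, if_neg h2]
      · rw [if_neg (fun h => h1 h.1), if_neg h1]
  · rw [Matrix.det_of_isUpperTriangular]
    · simp [U1_diag]
    · intro i j hij
      exact U1_lt N i j (by simpa using hij)
  · rw [Matrix.det_of_isUpperTriangular]
    · simp [U1_diag]
    · intro i j hij
      exact U1_lt M i j (by simpa using hij)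
  · intro k x
    exact U1_row N k x k.2
  · intro k x
    exact U1_row M k x k.2

/-- step 2: the first rows become a Newton basis -/
theorem step2 (N M : ℕ) (b : ℕ → ℂ) :
    HH (List.replicate N 1) (List.replicate M 1)
      = (Big (fun (k : Fin N) x => (∏ j ∈ Finset.range (k : ℕ), ((x : ℂ) - b j)) / ((k : ℕ).factorial : ℂ))
        (fun (k : Fin M) x => (x.choose k : ℂ)) (pt0 N M)).det := by
  rw [step1]
  choose c hc0 hc1 hc using newton b
  symm
  apply big_det _ _ _ _ _ (Matrix.of fun k i => c k i) 1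
  · rw [Matrix.det_of_isLowerTriangular]
    · simp [hc1]
    · intro i j hij
      exact hc0 i j (by simpa using hij)
  · simp
  · intro k x
    rw [hc]
    simp only [Matrix.of_apply]
    rw [Finset.sum_fin_eq_sum_range]
    symm
    rw [← Finset.sum_subset (Finset.range_subset_range.2 (show (k : ℕ) + 1 ≤ N by omega))]
    · refine Finset.sum_congr rfl fun i hi => ?_
      rw [Finset.mem_range] at hi
      rw [dif_pos (by omega)]
    · intro i h1 hi
      rw [Finset.mem_range] at h1
      rw [Finset.mem_range, not_lt] at hi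
      rw [dif_pos h1]
      simp only
      rw [hc0 k i (by omega), zero_mul]
  · intro k x
    simp [Matrix.one_apply]

/-! ## permuting rows and columns -/

theorem norm_det_submatrix {m n : Type*} [Fintype m] [DecidableEq m] [Fintype n] [DecidableEq n]
    (A : Matrix n n ℂ) (e1 e2 : m ≃ n) : ‖(A.submatrix e1 e2).det‖ = ‖A.det‖ := by
  have h : A.submatrix e1 e2 = (A.submatrix id (e1.symm.trans e2)).submatrix e1 e1 := by
    ext i j
    simp
  rw [h, Matrix.det_submatrix_equiv_self, Matrix.det_permute', norm_mul]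
  rcases Int.units_eq_one_or (Equiv.Perm.sign (e1.symm.trans e2)) with h | h <;> rw [h] <;> simp

/-- the columns: first those not divisible by 3 -/
def ptc (M : ℕ) : Fin (2 * M + 2) ⊕ (Fin M ⊕ Fin 2) → ℕ
  | .inl i => aexp 1 i + 1
  | .inr (.inl j) => 3 * (j : ℕ)
  | .inr (.inr t) => 3 * (M + (t : ℕ))

theorem ptc_lt (M : ℕ) (c : Fin (2 * M + 2) ⊕ (Fin M ⊕ Fin 2)) : ptc M c < 2 * M + 4 + M := by
  rcases c with i | j | t
  · have := i.2
    simp only [ptc, aexp]; omega
  · have := j.2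
    simp only [ptc]; omega
  · have := t.2
    simp only [ptc]; omega

theorem ptc_inj (M : ℕ) : Function.Injective (ptc M) := by
  intro c c' h
  rcases c with i | j | t <;> rcases c' with i' | j' | t' <;>
    simp only [ptc, aexp] at h
  · have : i = i' := by ext; omega
    rw [this]
  · omega
  · omega
  · omega
  · have : j = j' := by ext; omega
    rw [this]
  · have := j.2; omega
  · omega
  · have := j'.2; omega
  · have : t = t' := by ext; omega
    rw [this]

/-- equivalence of the columns -/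
noncomputable def ec (M : ℕ) : Fin (2 * M + 2) ⊕ (Fin M ⊕ Fin 2) ≃ Fin (2 * M + 4) ⊕ Fin M :=
  (Equiv.ofBijective (fun c => (⟨ptc M c, ptc_lt M c⟩ : Fin (2 * M + 4 + M))) (by
    rw [Fintype.bijective_iff_injective_and_card]
    refine ⟨fun c c' h => ptc_inj M (by simpa using h), ?_⟩
    simp; ring)).trans finSumFinEquiv.symm

theorem pt0_ec (M : ℕ) (c : Fin (2 * M + 2) ⊕ (Fin M ⊕ Fin 2)) :
    pt0 (2 * M + 4) M (ec M c) = ptc M c := by
  simp [pt0, ec]

/-- equivalence of the rows -/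
def erFun (M : ℕ) : Fin (2 * M + 2) ⊕ (Fin M ⊕ Fin 2) → Fin (2 * M + 4) ⊕ Fin M
  | .inl i => .inl ⟨i, by omega⟩
  | .inr (.inl k) => .inr k
  | .inr (.inr t) => .inl ⟨2 * M + 2 + t, by omega⟩

theorem erFun_inj (M : ℕ) : Function.Injective (erFun M) := by
  intro c c' h
  rcases c with i | j | t <;> rcases c' with i' | j' | t' <;>
    simp only [erFun, Sum.inl.injEq, Sum.inr.injEq, Fin.mk.injEq, reduceCtorEq] at h
  · have : i = i' := by ext; omega
    rw [this]
  · omega
  · rw [h]
  · omega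
  · have : t = t' := by ext; omega
    rw [this]

noncomputable def er (M : ℕ) : Fin (2 * M + 2) ⊕ (Fin M ⊕ Fin 2) ≃ Fin (2 * M + 4) ⊕ Fin M :=
  Equiv.ofBijective (erFun M) (by
    rw [Fintype.bijective_iff_injective_and_card]
    refine ⟨erFun_inj M, ?_⟩
    simp; ring)

/-! ## the two blocks -/

/-- nodes -/
noncomputable def nod (M i : ℕ) : ℂ := if i < 2 * M + 2 then ((aexp 1 i : ℕ) : ℂ) + 1 else 0

/-- Newton basis at a point -/
noncomputable def nu (M k x : ℕ) : ℂ :=
  (∏ j ∈ Finset.range k, ((x : ℂ) - nod M j)) / (k.factorial : ℂ)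

theorem nu_zero (M k i : ℕ) (hi : i < 2 * M + 2) (h : i < k) : nu M k (aexp 1 i + 1) = 0 := by
  unfold nu
  rw [Finset.prod_eq_zero (Finset.mem_range.2 h), zero_div]
  simp [nod, hi]

/-- first block -/
noncomputable def Tm (M : ℕ) : Matrix (Fin (2 * M + 2)) (Fin (2 * M + 2)) ℂ :=
  Matrix.of fun k i => nu M k (aexp 1 i + 1)

theorem det_Tm (M : ℕ) : (Tm M).det = (Dval 1 (2 * M + 2) : ℂ) := by
  rw [Matrix.det_of_isUpperTriangular]
  · unfold Dval
    push_cast
    rw [Finset.prod_range fun k => ∏ i ∈ Finset.range k,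
      (((aexp 1 k - aexp 1 i : ℕ) : ℂ)) / ((k - i : ℕ) : ℂ)]
    refine Finset.prod_congr rfl fun k _ => ?_
    simp only [Tm, Matrix.of_apply, nu]
    rw [Finset.prod_div_distrib]
    congr 1
    · refine Finset.prod_congr rfl fun i hi => ?_
      rw [Finset.mem_range] at hi
      have hk := k.2
      have h1 : aexp 1 i ≤ aexp 1 k := by unfold aexp; omega
      rw [nod, if_pos (by omega), Nat.cast_sub h1]
      push_cast
      ring
    · rw [← Finset.prod_range_reflect]
      rw [← Finset.prod_range_add_one_eq_factorial]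
      push_cast
      refine Finset.prod_congr rfl fun i hi => ?_
      rw [Finset.mem_range] at hi
      have : (k : ℕ) - ((k : ℕ) - 1 - i) = i + 1 := by omega
      rw [this]
      push_cast
      ring
  · intro k i hki
    have hki' : (i : ℕ) < k := by simpa using hki
    exact nu_zero M k i i.2 hki'

/-- the number of the column, for the columns divisible by 3 -/
def ptj (M : ℕ) : Fin M ⊕ Fin 2 → ℕ
  | .inl j => j
  | .inr t => M + t

/-- second block -/
noncomputable def Bm (M : ℕ) : Matrix (Fin M ⊕ Fin 2) (Fin M ⊕ Fin 2) ℂ :=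
  Matrix.of fun r c => Sum.elim (fun k : Fin M => ((ptj M c).choose k : ℂ))
    (fun t : Fin 2 => nu M (2 * M + 2 + t) (3 * ptj M c)) r

theorem step3 (M : ℕ) : ‖HH (List.replicate (2 * M + 4) 1) (List.replicate M 1)‖
    = ‖(Tm M).det‖ * ‖(Bm M).det‖ := by
  rw [step2 (2 * M + 4) M (nod M), ← norm_det_submatrix _ (er M) (ec M)]
  rw [← norm_mul, ← Matrix.det_fromBlocks_zero₂₁ (Tm M)
    (Matrix.of fun k c => nu M k (3 * ptj M c)) (Bm M)]
  congr 2
  ext r c
  rcases r with k | k | t
  · rcases c with i | j | s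
    · simp only [Matrix.submatrix_apply, Big, Matrix.of_apply, pt0_ec, er, Equiv.ofBijective_apply,
        erFun, ptc, Sum.elim_inl, Matrix.fromBlocks_apply₁₁, Tm, nu]
    · simp only [Matrix.submatrix_apply, Big, Matrix.of_apply, pt0_ec, er, Equiv.ofBijective_apply,
        erFun, ptc, Sum.elim_inl, Matrix.fromBlocks_apply₁₂, nu, ptj]
    · simp only [Matrix.submatrix_apply, Big, Matrix.of_apply, pt0_ec, er, Equiv.ofBijective_apply,
        erFun, ptc, Sum.elim_inl, Matrix.fromBlocks_apply₁₂, nu, ptj]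
  · rcases c with i | j | s
    · simp only [Matrix.submatrix_apply, Big, Matrix.of_apply, pt0_ec, er, Equiv.ofBijective_apply,
        erFun, ptc, Sum.elim_inr, Matrix.fromBlocks_apply₂₁, Matrix.zero_apply]
      rw [if_neg (by unfold aexp; omega)]
    · simp only [Matrix.submatrix_apply, Big, Matrix.of_apply, pt0_ec, er, Equiv.ofBijective_apply,
        erFun, ptc, Sum.elim_inr, Matrix.fromBlocks_apply₂₂, Bm, ptj, Sum.elim_inl]
      rw [if_pos (by omega)]
      congr 2
      omega
    · simp only [Matrix.submatrix_apply, Big, Matrix.of_apply, pt0_ec, er, Equiv.ofBijective_apply,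
        erFun, ptc, Sum.elim_inr, Matrix.fromBlocks_apply₂₂, Bm, ptj, Sum.elim_inl]
      rw [if_pos (by omega)]
      congr 2
      omega
  · rcases c with i | j | s
    · simp only [Matrix.submatrix_apply, Big, Matrix.of_apply, pt0_ec, er, Equiv.ofBijective_apply,
        erFun, ptc, Sum.elim_inl, Matrix.fromBlocks_apply₂₁, Matrix.zero_apply]
      exact nu_zero M _ i i.2 (by omega)
    · simp only [Matrix.submatrix_apply, Big, Matrix.of_apply, pt0_ec, er, Equiv.ofBijective_apply,
        erFun, ptc, Sum.elim_inl, Matrix.fromBlocks_apply₂₂, Bm, ptj, Sum.elim_inr, nu]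
    · simp only [Matrix.submatrix_apply, Big, Matrix.of_apply, pt0_ec, er, Equiv.ofBijective_apply,
        erFun, ptc, Sum.elim_inl, Matrix.fromBlocks_apply₂₂, Bm, ptj, Sum.elim_inr, nu]

/-! ## the second block -/

/-- the two functionals killing the polynomials of degree `< M` -/
noncomputable def vf (M t j : ℕ) : ℂ :=
  if t ≤ j ∧ j ≤ M + t then (-1) ^ (M - (j - t)) * (M.choose (j - t) : ℂ) else 0

theorem sum_vf (M t : ℕ) (ht : t < 2) (f : ℕ → ℂ) :
    ∑ c : Fin M ⊕ Fin 2, f (ptj M c) * vf M t (ptj M c)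
      = ∑ j ∈ Finset.range (M + 1), (-1) ^ (M - j) * (M.choose j : ℂ) * f (j + t) := by
  have h1 : ∑ c : Fin M ⊕ Fin 2, f (ptj M c) * vf M t (ptj M c)
      = ∑ j ∈ Finset.range (M + 2), f j * vf M t j := by
    rw [Fintype.sum_sum_type, Finset.sum_range_succ, Finset.sum_range_succ, Finset.sum_range,
      Fin.sum_univ_two]
    simp [ptj, add_assoc]
  rw [h1]
  interval_cases t
  · rw [Finset.sum_range_succ]
    have : vf M 0 (M + 1) = 0 := by unfold vf; rw [if_neg (by omega)]
    rw [this, mul_zero, add_zero]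
    refine Finset.sum_congr rfl fun j hj => ?_
    rw [Finset.mem_range] at hj
    unfold vf
    rw [if_pos (by omega)]
    simp
    ring
  · rw [Finset.sum_range_succ']
    have : vf M 1 0 = 0 := by unfold vf; rw [if_neg (by omega)]
    rw [this, mul_zero, add_zero]
    refine Finset.sum_congr rfl fun j hj => ?_
    rw [Finset.mem_range] at hj
    unfold vf
    rw [if_pos (by omega)]
    simp
    ring

theorem kill (M k t : ℕ) (hk : k < M) :
    ∑ j ∈ Finset.range (M + 1), (-1) ^ (M - j) * (M.choose j : ℂ) * ((j + t).choose k : ℂ) = 0 := by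
  have h := fwdDiff_iter_eq_sum_shift (M := ℕ) (G := ℤ) 1 (fun x => (x.choose k : ℤ)) M t
  have h2 : (fwdDiff (1 : ℕ))^[M] (fun x => (x.choose k : ℤ)) t = 0 := by
    obtain ⟨d, rfl⟩ : ∃ d, M = d + 1 + k := ⟨M - 1 - k, by omega⟩
    simp_rw [Function.iterate_add_apply, add_zero k ▸ fwdDiff_iter_choose 0 k, Nat.choose_zero_right,
      Function.iterate_one, Nat.cast_one, fwdDiff_const, fwdDiff_iter_eq_sum_shift, smul_zero,
      Finset.sum_const_zero]
  rw [h2] at h
  have h3 := congrArg (fun t : ℤ => (t : ℂ)) h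
  simp only [Int.cast_zero, Int.cast_sum, smul_eq_mul, Int.cast_mul, Int.cast_pow, Int.cast_neg,
    Int.cast_one, Int.cast_natCast, mul_one] at h3
  rw [h3]
  refine Finset.sum_congr rfl fun j _ => ?_
  rw [add_comm j t]

/-- the transformation of the columns -/
noncomputable def Vm (M : ℕ) : Matrix (Fin M ⊕ Fin 2) (Fin M ⊕ Fin 2) ℂ :=
  Matrix.fromBlocks 1 (Matrix.of fun j t => vf M t j) 0 (Matrix.of fun s t => vf M t (M + s))

theorem det_Vm (M : ℕ) : (Vm M).det = 1 := by
  unfold Vm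
  rw [Matrix.det_fromBlocks_zero₂₁, Matrix.det_one, one_mul, Matrix.det_fin_two]
  simp only [Matrix.of_apply]
  have h0 : vf M ((0 : Fin 2) : ℕ) (M + ((0 : Fin 2) : ℕ)) = 1 := by simp [vf]
  have h1 : vf M ((1 : Fin 2) : ℕ) (M + ((1 : Fin 2) : ℕ)) = 1 := by simp [vf]
  have h2 : vf M ((0 : Fin 2) : ℕ) (M + ((1 : Fin 2) : ℕ)) = 0 := by simp [vf]
  rw [h0, h1, h2]
  ring

/-- the value of the two functionals on the two long rows -/
noncomputable def Rm (M : ℕ) : Matrix (Fin 2) (Fin 2) ℂ :=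
  Matrix.of fun s t => ∑ j ∈ Finset.range (M + 1),
    (-1) ^ (M - j) * (M.choose j : ℂ) * nu M (2 * M + 2 + s) (3 * (j + t))

theorem det_Bm (M : ℕ) : (Bm M).det = (Rm M).det := by
  have h : Bm M * Vm M = Matrix.fromBlocks (Matrix.of fun k j : Fin M => ((j : ℕ).choose k : ℂ)) 0
      (Matrix.of fun (s : Fin 2) (j : Fin M) => nu M (2 * M + 2 + s) (3 * j)) (Rm M) := by
    ext r c
    rcases c with j | t
    · have : ∀ r, (Bm M * Vm M) r (Sum.inl j) = Bm M r (Sum.inl j) := by
        intro r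
        simp [Matrix.mul_apply, Fintype.sum_sum_type, Vm, Matrix.one_apply]
      rw [this]
      rcases r with k | s
      · simp [Bm, ptj]
      · simp [Bm, ptj]
    · have : ∀ r, (Bm M * Vm M) r (Sum.inr t) = ∑ c, Bm M r c * vf M t (ptj M c) := by
        intro r
        simp [Matrix.mul_apply, Fintype.sum_sum_type, Vm, ptj]
      rw [this]
      rcases r with k | s
      · simp only [Bm, Matrix.of_apply, Sum.elim_inl, Matrix.fromBlocks_apply₁₂, Matrix.zero_apply]
        rw [sum_vf M t t.2 (fun j => (j.choose k : ℂ))]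
        exact kill M k t k.2
      · simp only [Bm, Matrix.of_apply, Sum.elim_inr, Matrix.fromBlocks_apply₂₂, Rm]
        rw [sum_vf M t t.2 (fun j => nu M (2 * M + 2 + s) (3 * j))]
  have h3 : (Matrix.of fun k j : Fin M => (((j : ℕ).choose (k : ℕ) : ℕ) : ℂ)).det = 1 := by
    rw [Matrix.det_of_isUpperTriangular]
    · simp
    · intro k j hkj
      have : (j : ℕ) < k := by simpa using hkj
      simp [Nat.choose_eq_zero_of_lt this]
  have h2 := congrArg Matrix.det h
  rw [Matrix.det_mul, det_Vm, mul_one, Matrix.det_fromBlocks_zero₁₂, h3, one_mul] at h2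
  exact h2

/-! ## explicit values -/

theorem prod_nod (M : ℕ) (x : ℂ) (m : ℕ) (hm : m ≤ M + 1) :
    ∏ j ∈ Finset.range (2 * m), (x - nod M j)
      = ∏ i ∈ Finset.range m, (x - 3 * i - 1) * (x - 3 * i - 2) := by
  induction m with
  | zero => simp
  | succ m ih =>
    rw [show 2 * (m + 1) = 2 * m + 1 + 1 from by ring, Finset.prod_range_succ, Finset.prod_range_succ,
      ih (by omega), Finset.prod_range_succ, nod, nod, if_pos (by omega), if_pos (by omega),
      Value.aexp_even, Value.aexp_odd]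
    push_cast
    ring

theorem nu_a (M x : ℕ) : nu M (2 * M + 2) x = (PB M x : ℂ) / ((2 * M + 2).factorial : ℂ) := by
  unfold nu
  rw [show 2 * M + 2 = 2 * (M + 1) from by ring, prod_nod M x (M + 1) le_rfl]
  unfold PB
  push_cast
  rfl

theorem nu_b (M x : ℕ) : nu M (2 * M + 3) x = (PB M x : ℂ) * x / ((2 * M + 3).factorial : ℂ) := by
  unfold nu
  rw [Finset.prod_range_succ, show 2 * M + 2 = 2 * (M + 1) from by ring, prod_nod M x (M + 1) le_rfl]
  have : nod M (2 * (M + 1)) = 0 := by unfold nod; rw [if_neg (by omega)]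
  rw [this, sub_zero]
  unfold PB
  push_cast
  rfl

/-- the symmetry of the polynomial -/
theorem PB_symm (M : ℕ) (e : ℤ) : PB M (3 * ((M : ℤ) + 1) - e) = PB M e := by
  unfold PB
  rw [← Finset.prod_range_reflect]
  refine Finset.prod_congr rfl fun i hi => ?_
  rw [Finset.mem_range] at hi
  have : ((M + 1 - 1 - i : ℕ) : ℤ) = (M : ℤ) - i := by
    rw [Nat.cast_sub (by omega)]
    push_cast
    ring
  rw [this]
  ring

theorem PB_refl (M j : ℕ) (hj : j ≤ M) : PB M (3 * (((M - j : ℕ) : ℤ) + 1)) = PB M (3 * (j : ℤ)) := by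
  rw [← PB_symm M (3 * (j : ℤ)), Nat.cast_sub hj]
  congr 1
  ring

/-- the four sums -/
def P0 (M : ℕ) : ℤ := ∑ j ∈ Finset.range (M + 1), (-1) ^ (M - j) * (M.choose j : ℤ) * PB M (3 * (j : ℤ))
def P1 (M : ℕ) : ℤ := ∑ j ∈ Finset.range (M + 1),
  (-1) ^ (M - j) * (M.choose j : ℤ) * PB M (3 * ((j : ℤ) + 1))
def Q0 (M : ℕ) : ℤ := ∑ j ∈ Finset.range (M + 1),
  (-1) ^ (M - j) * (M.choose j : ℤ) * (PB M (3 * (j : ℤ)) * (j : ℤ))
def Q1 (M : ℕ) : ℤ := ∑ j ∈ Finset.range (M + 1),
  (-1) ^ (M - j) * (M.choose j : ℤ) * (PB M (3 * ((j : ℤ) + 1)) * ((j : ℤ) + 1))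

theorem sgn (M j : ℕ) (hj : j ≤ M) : (-1 : ℤ) ^ j = (-1) ^ M * (-1) ^ (M - j) := by
  obtain ⟨d, rfl⟩ := Nat.exists_eq_add_of_le hj
  rw [Nat.add_sub_cancel_left, pow_add, mul_assoc, ← pow_add, ← two_mul, pow_mul]
  simp

theorem P1_eq (M : ℕ) : P1 M = (-1) ^ M * s0 M := by
  unfold P1 s0
  rw [← Finset.sum_range_reflect, Finset.mul_sum]
  refine Finset.sum_congr rfl fun j hj => ?_
  rw [Finset.mem_range] at hj
  have h1 : M + 1 - 1 - j = M - j := by omega
  have h2 : M - (M - j) = j := by omega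
  rw [h1, h2, Nat.choose_symm (by omega), PB_refl M j (by omega), sgn M j (by omega)]
  ring

theorem Q1_eq (M : ℕ) : Q1 M - (-1) ^ M * Q0 M = (-1) ^ M * s1 M := by
  have h : Q1 M = (-1) ^ M * ∑ j ∈ Finset.range (M + 1),
      (-1) ^ (M - j) * (M.choose j : ℤ) * (PB M (3 * (j : ℤ)) * ((M : ℤ) - j + 1)) := by
    unfold Q1
    rw [← Finset.sum_range_reflect, Finset.mul_sum]
    refine Finset.sum_congr rfl fun j hj => ?_
    rw [Finset.mem_range] at hj
    have h1 : M + 1 - 1 - j = M - j := by omega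
    have h2 : M - (M - j) = j := by omega
    rw [h1, h2, Nat.choose_symm (by omega), PB_refl M j (by omega), sgn M j (by omega),
      Nat.cast_sub (by omega)]
    ring
  rw [h]
  unfold Q0 s1
  rw [← mul_sub, ← Finset.sum_sub_distrib]
  congr 1
  refine Finset.sum_congr rfl fun j _ => ?_
  ring

theorem det_Rm (M : ℕ) : (Rm M).det
    = 3 * ((P0 M * Q1 M - P1 M * Q0 M : ℤ) : ℂ) / ((2 * M + 2).factorial * (2 * M + 3).factorial) := by
  have hA : (((2 * M + 2).factorial : ℕ) : ℂ) ≠ 0 := by exact_mod_cast Nat.factorial_ne_zero _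
  have hB : (((2 * M + 3).factorial : ℕ) : ℂ) ≠ 0 := by exact_mod_cast Nat.factorial_ne_zero _
  have h00 : Rm M 0 0 = (P0 M : ℂ) / (2 * M + 2).factorial := by
    unfold Rm P0
    simp only [Matrix.of_apply, Fin.val_zero, add_zero]
    push_cast
    rw [Finset.sum_div]
    refine Finset.sum_congr rfl fun j _ => ?_
    rw [nu_a]
    push_cast
    ring
  have h01 : Rm M 0 1 = (P1 M : ℂ) / (2 * M + 2).factorial := by
    unfold Rm P1
    simp only [Matrix.of_apply, Fin.val_zero, add_zero, Fin.val_one]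
    push_cast
    rw [Finset.sum_div]
    refine Finset.sum_congr rfl fun j _ => ?_
    rw [nu_a]
    push_cast
    ring
  have h10 : Rm M 1 0 = 3 * (Q0 M : ℂ) / (2 * M + 3).factorial := by
    unfold Rm Q0
    simp only [Matrix.of_apply, Fin.val_zero, add_zero, Fin.val_one]
    push_cast
    rw [Finset.mul_sum, Finset.sum_div]
    refine Finset.sum_congr rfl fun j _ => ?_
    rw [show 2 * M + 2 + 1 = 2 * M + 3 from rfl, nu_b]
    push_cast
    ring
  have h11 : Rm M 1 1 = 3 * (Q1 M : ℂ) / (2 * M + 3).factorial := by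
    unfold Rm Q1
    simp only [Matrix.of_apply, Fin.val_one]
    push_cast
    rw [Finset.mul_sum, Finset.sum_div]
    refine Finset.sum_congr rfl fun j _ => ?_
    rw [show 2 * M + 2 + 1 = 2 * M + 3 from rfl, nu_b]
    push_cast
    ring
  rw [Matrix.det_fin_two, h00, h01, h10, h11]
  push_cast
  field_simp

end V1

open V1 in
theorem HH_ones (M : ℕ) :
    ‖HH (List.replicate (2 * M + 4) 1) (List.replicate M 1)‖
      = 3 * Dval 1 (2 * M + 2) * |(s0 M : ℝ)| * |(s1 M : ℝ)|
        / ((2 * M + 2).factorial * (2 * M + 3).factorial) := by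
  have hD := Value.Dval_pos 1 le_rfl (by norm_num) (2 * M + 2)
  have h : P0 M * Q1 M - P1 M * Q0 M = (-1) ^ M * (s0 M * s1 M) := by
    have h1 : P0 M = s0 M := rfl
    rw [P1_eq, h1]
    have h2 := Q1_eq M
    linear_combination (s0 M) * h2
  rw [step3, det_Tm, det_Bm, det_Rm, h]
  push_cast
  rw [norm_div, norm_mul, norm_mul, norm_mul, norm_mul, norm_pow]
  simp only [norm_neg, norm_one, one_pow, one_mul, RCLike.norm_natCast, Complex.norm_real,
    Complex.norm_intCast, Real.norm_eq_abs, abs_of_pos hD, Complex.norm_ofNat]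
  ring

end Pool.Agent.H988R3
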