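import Pool.Agent.H988R3.PBDefs

/-! Task V2: closed forms of the two alternating sums by creative telescoping. -/

namespace Pool.Agent.H988R3

namespace V2

/-- `∏_{m < N} (e-3m-1)(e-3m-2)` -/
def pN (N : ℕ) (e : ℤ) : ℤ := ∏ m ∈ Finset.range N, (e - 3 * m - 1) * (e - 3 * m - 2)

theorem pN_succ (N : ℕ) (e : ℤ) : pN (N + 1) e = pN N e * ((e - 3 * N - 1) * (e - 3 * N - 2)) := by
  unfold pN
  rw [Finset.prod_range_succ]

theorem pN_shift (N : ℕ) (e : ℤ) :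
    pN N (e + 3) * ((e - 3 * N + 2) * (e - 3 * N + 1)) = pN N e * ((e + 2) * (e + 1)) := by
  induction N with
  | zero => simp [pN]
  | succ N ih =>
    rw [pN_succ, pN_succ]
    push_cast
    linear_combination ((e - 3 * N - 1) * (e - 3 * N - 2)) * ih

theorem pN_symm (N : ℕ) (e : ℤ) : pN N (3 * N - e) = pN N e := by
  unfold pN
  rw [← Finset.prod_range_reflect]
  refine Finset.prod_congr rfl fun m hm => ?_
  rw [Finset.mem_range] at hm
  have h : ((N - 1 - m : ℕ) : ℤ) = N - 1 - m := by omega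
  rw [h]
  ring

theorem cz1 (n k : ℕ) (hk : k ≤ n + 1) :
    (n.choose k : ℤ) * (n + 1) = ((n + 1).choose k : ℤ) * (n + 1 - k) := by
  have h := Nat.choose_mul_succ_eq n k
  have h2 : ((n + 1 - k : ℕ) : ℤ) = n + 1 - k := by omega
  rw [← h2]
  exact_mod_cast h

theorem cz2 (n k : ℕ) (hk : k ≤ n) :
    (n.choose (k + 1) : ℤ) * (k + 1) = (n.choose k : ℤ) * (n - k) := by
  have h := Nat.choose_succ_right_eq n k
  have h2 : ((n - k : ℕ) : ℤ) = n - k := by omega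
  rw [← h2]
  exact_mod_cast h

theorem choose_rel (N j : ℕ) (hj : j ≤ N + 2) :
    ((N : ℤ) + 1) * (N + 2) * (N.choose j : ℤ) =
      ((N : ℤ) + 2 - j) * (N + 1 - j) * ((N + 2).choose j : ℤ) := by
  rcases Nat.lt_or_ge (N + 1) j with h | h
  · have h2 : j = N + 2 := by omega
    subst h2
    rw [Nat.choose_eq_zero_of_lt (show N < N + 2 by omega)]
    push_cast
    ring
  · have h1 := cz1 N j h
    have h2 := cz1 (N + 1) j hj
    push_cast at h2
    linear_combination ((N : ℤ) + 2) * h1 + ((N : ℤ) + 1 - j) * h2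

theorem tele (N : ℕ) (A B Y : ℤ → ℤ)
    (hid : ∀ j : ℤ, A j * ((3 * j - 3 * N - 1) * (3 * j - 3 * N - 2) * (3 * j - 3 * N - 4) *
      (3 * j - 3 * N - 5)) - B j * ((N + 2 - j) * (N + 1 - j)) =
      -(3 * j + 2) * (3 * j + 1) * (N + 2 - j) * Y (j + 1) -
        j * (3 * j - 3 * N - 1) * (3 * j - 3 * N - 2) * Y j) :
    ∑ j ∈ Finset.range (N + 3), (-1) ^ j * ((N + 2).choose j : ℤ) * A j * pN (N + 2) (3 * j) =
      ((N : ℤ) + 1) * (N + 2) *
        ∑ j ∈ Finset.range (N + 1), (-1) ^ j * (N.choose j : ℤ) * B j * pN N (3 * j) := by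
  obtain ⟨G, hG⟩ : ∃ G : ℕ → ℤ, G = fun j => (-1) ^ j * ((N + 2).choose j : ℤ) * j *
    pN N (3 * j) * ((3 * j - 3 * N - 1) * (3 * j - 3 * N - 2)) * Y j := ⟨_, rfl⟩
  have hB : ((N : ℤ) + 1) * (N + 2) *
        ∑ j ∈ Finset.range (N + 1), (-1) ^ j * (N.choose j : ℤ) * B j * pN N (3 * j) =
      ∑ j ∈ Finset.range (N + 3), (-1) ^ j * ((N + 2).choose j : ℤ) *
        (B j * ((N + 2 - j) * (N + 1 - j))) * pN N (3 * j) := by
    have e1 : ∑ j ∈ Finset.range (N + 1), (-1) ^ j * (N.choose j : ℤ) * B j * pN N (3 * j) =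
        ∑ j ∈ Finset.range (N + 3), (-1) ^ j * (N.choose j : ℤ) * B j * pN N (3 * j) := by
      rw [Finset.sum_range_succ _ (N + 2), Finset.sum_range_succ _ (N + 1),
        Nat.choose_eq_zero_of_lt (show N < N + 2 by omega),
        Nat.choose_eq_zero_of_lt (show N < N + 1 by omega)]
      simp
    rw [e1, Finset.mul_sum]
    refine Finset.sum_congr rfl fun j hj => ?_
    rw [Finset.mem_range] at hj
    have h := choose_rel N j (by omega)
    linear_combination ((-1) ^ j * B j * pN N (3 * j)) * h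
  rw [hB, ← sub_eq_zero, ← Finset.sum_sub_distrib]
  have hstep : ∀ j ∈ Finset.range (N + 3),
      (-1) ^ j * ((N + 2).choose j : ℤ) * A j * pN (N + 2) (3 * j) -
        (-1) ^ j * ((N + 2).choose j : ℤ) * (B j * ((N + 2 - j) * (N + 1 - j))) * pN N (3 * j) =
      G (j + 1) - G j := by
    intro j hj
    rw [Finset.mem_range] at hj
    have h1 : pN (N + 2) (3 * (j : ℤ)) = pN N (3 * j) *
        ((3 * j - 3 * N - 1) * (3 * j - 3 * N - 2) * (3 * j - 3 * N - 4) *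
          (3 * j - 3 * N - 5)) := by
      rw [pN_succ, pN_succ]
      push_cast
      ring
    have h2 := pN_shift N (3 * (j : ℤ))
    have h3 := hid j
    have h4 := cz2 (N + 2) j (by omega)
    have h5 : (3 : ℤ) * ((j + 1 : ℕ) : ℤ) = 3 * j + 3 := by push_cast; ring
    rw [hG]
    simp only
    rw [h1, h5]
    push_cast at h4 ⊢
    rw [pow_succ]
    linear_combination ((-1) ^ j * ((N + 2).choose j : ℤ) * pN N (3 * j)) * h3 +
      ((-1) ^ j * pN N (3 * j + 3) * ((3 * j - 3 * N + 2) * (3 * j - 3 * N + 1)) * Y (j + 1)) * h4 +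
      ((-1) ^ j * ((N + 2).choose j : ℤ) * (N + 2 - j) * Y (j + 1)) * h2
  rw [Finset.sum_congr rfl hstep, Finset.sum_range_sub, hG]
  simp only
  rw [Nat.choose_eq_zero_of_lt (show N + 2 < N + 3 by omega)]
  simp

/-- first symmetric sum -/
def U (N : ℕ) : ℤ := ∑ j ∈ Finset.range (N + 1), (-1) ^ j * (N.choose j : ℤ) * pN N (3 * j)

/-- second symmetric sum -/
def T (N : ℕ) : ℤ := ∑ j ∈ Finset.range (N + 1),
  (-1) ^ j * (N.choose j : ℤ) * ((N : ℤ) - 2 * j) ^ 2 * pN N (3 * j)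

theorem U_rec (N : ℕ) : U (N + 2) = 9 * ((N : ℤ) + 1) ^ 2 * (3 * N + 2) * (3 * N + 4) * U N := by
  have h := tele N (fun _ => ((N : ℤ) + 2) * (N + 1))
    (fun _ => 9 * ((N : ℤ) + 1) ^ 2 * (3 * N + 2) * (3 * N + 4))
    (fun j => ((N : ℤ) + 1) * (9 * j ^ 2 - 9 * (3 * N + 5) * j + (3 * N + 4) * (6 * N + 13)))
    (fun j => by ring)
  have e1 : ∑ j ∈ Finset.range (N + 3), (-1) ^ j * ((N + 2).choose j : ℤ) *
      (((N : ℤ) + 2) * (N + 1)) * pN (N + 2) (3 * j) = ((N : ℤ) + 2) * (N + 1) * U (N + 2) := by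
    unfold U
    rw [Finset.mul_sum]
    refine Finset.sum_congr rfl fun j _ => ?_
    ring
  have e2 : ∑ j ∈ Finset.range (N + 1), (-1) ^ j * (N.choose j : ℤ) *
      (9 * ((N : ℤ) + 1) ^ 2 * (3 * N + 2) * (3 * N + 4)) * pN N (3 * j) =
      (9 * ((N : ℤ) + 1) ^ 2 * (3 * N + 2) * (3 * N + 4)) * U N := by
    unfold U
    rw [Finset.mul_sum]
    refine Finset.sum_congr rfl fun j _ => ?_
    ring
  rw [e1, e2] at h
  have hpos : ((N : ℤ) + 2) * (N + 1) ≠ 0 := by positivity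
  apply mul_left_cancel₀ hpos
  linear_combination h

theorem T_rec (N : ℕ) : (N : ℤ) * (N + 4) * T (N + 2) =
    9 * ((N : ℤ) + 1) ^ 2 * (N + 2) ^ 2 * (3 * N + 8) * (3 * N + 10) * T N := by
  have h := tele N (fun j => (N : ℤ) * (N + 4) * (N + 2) * (N + 1) * (N + 2 - 2 * j) ^ 2)
    (fun j => 9 * ((N : ℤ) + 1) ^ 2 * (N + 2) ^ 2 * (3 * N + 8) * (3 * N + 10) * (N - 2 * j) ^ 2)
    (fun j => (-1280 - 4064 * (N : ℤ) - 4832 * N ^ 2 - 2396 * N ^ 3 - 80 * N ^ 4 + 403 * N ^ 5 +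
        153 * N ^ 6 + 18 * N ^ 7) +
      (1920 + 4432 * (N : ℤ) + 2548 * N ^ 2 - 1252 * N ^ 3 - 1945 * N ^ 4 - 756 * N ^ 5 -
        99 * N ^ 6) * j +
      (-640 - 184 * (N : ℤ) + 2176 * N ^ 2 + 2764 * N ^ 3 + 1233 * N ^ 4 + 189 * N ^ 5) * j ^ 2 -
      (576 * (N : ℤ) + 1152 * N ^ 2 + 720 * N ^ 3 + 144 * N ^ 4) * j ^ 3 +
      (72 * (N : ℤ) + 108 * N ^ 2 + 36 * N ^ 3) * j ^ 4)
    (fun j => by ring)
  have e1 : ∑ j ∈ Finset.range (N + 3), (-1) ^ j * ((N + 2).choose j : ℤ) *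
      ((N : ℤ) * (N + 4) * (N + 2) * (N + 1) * (N + 2 - 2 * j) ^ 2) * pN (N + 2) (3 * j) =
      (N : ℤ) * (N + 4) * (N + 2) * (N + 1) * T (N + 2) := by
    unfold T
    rw [Finset.mul_sum]
    refine Finset.sum_congr rfl fun j _ => ?_
    push_cast
    ring
  have e2 : ∑ j ∈ Finset.range (N + 1), (-1) ^ j * (N.choose j : ℤ) *
      (9 * ((N : ℤ) + 1) ^ 2 * (N + 2) ^ 2 * (3 * N + 8) * (3 * N + 10) * (N - 2 * j) ^ 2) *
        pN N (3 * j) =
      9 * ((N : ℤ) + 1) ^ 2 * (N + 2) ^ 2 * (3 * N + 8) * (3 * N + 10) * T N := by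
    unfold T
    rw [Finset.mul_sum]
    refine Finset.sum_congr rfl fun j _ => ?_
    ring
  rw [e1, e2] at h
  have hpos : ((N : ℤ) + 2) * (N + 1) ≠ 0 := by positivity
  apply mul_left_cancel₀ hpos
  linear_combination h

/-- Pascal's rule and reflection -/
theorem pascal (M : ℕ) (g : ℕ → ℤ) :
    ∑ j ∈ Finset.range (M + 2), (-1) ^ j * ((M + 1).choose j : ℤ) * g j =
      ∑ j ∈ Finset.range (M + 1), (-1) ^ j * (M.choose j : ℤ) * g j +
        ∑ j ∈ Finset.range (M + 1), (-1) ^ (j + 1) * (M.choose j : ℤ) * g (j + 1) := by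
  rw [Finset.sum_range_succ']
  have e1 : ∑ j ∈ Finset.range (M + 1), (-1) ^ j * (M.choose j : ℤ) * g j =
      ∑ j ∈ Finset.range (M + 1), (-1) ^ (j + 1) * (M.choose (j + 1) : ℤ) * g (j + 1) +
        g 0 := by
    have h : ∑ j ∈ Finset.range (M + 2), (-1) ^ j * (M.choose j : ℤ) * g j =
        ∑ j ∈ Finset.range (M + 1), (-1) ^ j * (M.choose j : ℤ) * g j := by
      rw [Finset.sum_range_succ, Nat.choose_eq_zero_of_lt (show M < M + 1 by omega)]
      simp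
    rw [← h, Finset.sum_range_succ']
    simp
  rw [e1]
  have e2 : ∀ j : ℕ, (-1 : ℤ) ^ (j + 1) * ((M + 1).choose (j + 1) : ℤ) * g (j + 1) =
      (-1) ^ (j + 1) * (M.choose (j + 1) : ℤ) * g (j + 1) +
        (-1) ^ (j + 1) * (M.choose j : ℤ) * g (j + 1) := by
    intro j
    rw [Nat.choose_succ_succ]
    push_cast
    ring
  simp only [e2, Finset.sum_add_distrib]
  simp
  ring

theorem reflect (M : ℕ) (hM : Odd M) (g : ℕ → ℤ) :
    ∑ j ∈ Finset.range (M + 1), (-1) ^ (j + 1) * (M.choose j : ℤ) * g (j + 1) =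
      ∑ j ∈ Finset.range (M + 1), (-1) ^ j * (M.choose j : ℤ) * g (M + 1 - j) := by
  rw [← Finset.sum_range_reflect]
  refine Finset.sum_congr rfl fun j hj => ?_
  rw [Finset.mem_range] at hj
  have h1 : M + 1 - 1 - j = M - j := by omega
  have h2 : M - j + 1 = M + 1 - j := by omega
  have h3 : (-1 : ℤ) ^ (M + 1 - j) = (-1) ^ j := by
    have h4 : Even (M + 1) := hM.add_one
    have h5 : (-1 : ℤ) ^ (M + 1 - j) * (-1) ^ j = 1 := by
      rw [← pow_add, Nat.sub_add_cancel (by omega), h4.neg_one_pow]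
    have h6 : (-1 : ℤ) ^ j * (-1) ^ j = 1 := by
      rw [← pow_add, ← two_mul, pow_mul]; norm_num
    calc (-1 : ℤ) ^ (M + 1 - j) = (-1 : ℤ) ^ (M + 1 - j) * ((-1) ^ j * (-1) ^ j) := by
          rw [h6, mul_one]
      _ = ((-1 : ℤ) ^ (M + 1 - j) * (-1) ^ j) * (-1) ^ j := by ring
      _ = (-1) ^ j := by rw [h5, one_mul]
  rw [h1, h2, h3, Nat.choose_symm (by omega)]

theorem sign (M j : ℕ) (hM : Odd M) (hj : j ≤ M) : (-1 : ℤ) ^ (M - j) = -(-1) ^ j := by
  have h5 : (-1 : ℤ) ^ (M - j) * (-1) ^ j = -1 := by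
    rw [← pow_add, Nat.sub_add_cancel hj, hM.neg_one_pow]
  have h6 : (-1 : ℤ) ^ j * (-1) ^ j = 1 := by
    rw [← pow_add, ← two_mul, pow_mul]; norm_num
  calc (-1 : ℤ) ^ (M - j) = (-1 : ℤ) ^ (M - j) * ((-1) ^ j * (-1) ^ j) := by rw [h6, mul_one]
    _ = ((-1 : ℤ) ^ (M - j) * (-1) ^ j) * (-1) ^ j := by ring
    _ = -(-1) ^ j := by rw [h5]; ring

theorem PB_eq (M : ℕ) (e : ℤ) : PB M e = pN (M + 1) e := rfl

theorem U_s0 (M : ℕ) (hM : Odd M) : U (M + 1) = -2 * s0 M := by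
  have h1 := pascal M (fun j => pN (M + 1) (3 * j))
  have h2 := reflect M hM (fun j => pN (M + 1) (3 * j))
  have e : s0 M = -∑ j ∈ Finset.range (M + 1), (-1) ^ j * (M.choose j : ℤ) *
      pN (M + 1) (3 * j) := by
    unfold s0
    rw [← Finset.sum_neg_distrib]
    refine Finset.sum_congr rfl fun j hj => ?_
    rw [Finset.mem_range] at hj
    rw [sign M j hM (by omega), PB_eq]
    ring
  have e2 : ∑ j ∈ Finset.range (M + 1), (-1) ^ j * (M.choose j : ℤ) *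
      pN (M + 1) (3 * ((M + 1 - j : ℕ) : ℤ)) =
      ∑ j ∈ Finset.range (M + 1), (-1) ^ j * (M.choose j : ℤ) * pN (M + 1) (3 * j) := by
    refine Finset.sum_congr rfl fun j hj => ?_
    rw [Finset.mem_range] at hj
    have h3 : (3 : ℤ) * ((M + 1 - j : ℕ) : ℤ) = 3 * ((M + 1 : ℕ) : ℤ) - 3 * j := by
      rw [Nat.cast_sub (by omega)]; ring
    rw [h3, pN_symm]
  unfold U
  rw [h1, h2, e2, e]
  ring

theorem T_s1 (M : ℕ) (hM : Odd M) : T (M + 1) = -2 * ((M : ℤ) + 1) * s1 M := by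
  obtain ⟨g, hg⟩ : ∃ g : ℕ → ℤ,
      g = fun j : ℕ => ((M : ℤ) + 1 - 2 * (j : ℤ)) * pN (M + 1) (3 * (j : ℤ)) :=
    ⟨_, rfl⟩
  have h2 := reflect M hM g
  have e : s1 M = -∑ j ∈ Finset.range (M + 1), (-1) ^ j * (M.choose j : ℤ) * g j := by
    unfold s1
    rw [← Finset.sum_neg_distrib]
    refine Finset.sum_congr rfl fun j hj => ?_
    rw [Finset.mem_range] at hj
    rw [sign M j hM (by omega), PB_eq, hg]
    ring
  have e2 : ∑ j ∈ Finset.range (M + 1), (-1) ^ j * (M.choose j : ℤ) * g (M + 1 - j) =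
      -∑ j ∈ Finset.range (M + 1), (-1) ^ j * (M.choose j : ℤ) * g j := by
    rw [← Finset.sum_neg_distrib]
    refine Finset.sum_congr rfl fun j hj => ?_
    rw [Finset.mem_range] at hj
    rw [hg]
    simp only
    have h3 : (3 : ℤ) * ((M + 1 - j : ℕ) : ℤ) = 3 * ((M + 1 : ℕ) : ℤ) - 3 * j := by
      rw [Nat.cast_sub (by omega)]; ring
    rw [h3, pN_symm, Nat.cast_sub (by omega)]
    push_cast
    ring
  -- `(N - 2j) C(N,j) = N (C(M,j) - C(M,j-1))`
  have e3 : T (M + 1) = ((M : ℤ) + 1) *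
      (∑ j ∈ Finset.range (M + 1), (-1) ^ j * (M.choose j : ℤ) * g j -
        ∑ j ∈ Finset.range (M + 1), (-1) ^ (j + 1) * (M.choose j : ℤ) * g (j + 1)) := by
    unfold T
    rw [Finset.sum_range_succ']
    have f1 : ∑ j ∈ Finset.range (M + 1), (-1) ^ j * (M.choose j : ℤ) * g j =
        ∑ j ∈ Finset.range (M + 1), (-1) ^ (j + 1) * (M.choose (j + 1) : ℤ) * g (j + 1) +
          g 0 := by
      have h : ∑ j ∈ Finset.range (M + 2), (-1) ^ j * (M.choose j : ℤ) * g j =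
          ∑ j ∈ Finset.range (M + 1), (-1) ^ j * (M.choose j : ℤ) * g j := by
        rw [Finset.sum_range_succ, Nat.choose_eq_zero_of_lt (show M < M + 1 by omega)]
        simp
      rw [← h, Finset.sum_range_succ']
      simp
    rw [f1, add_sub_right_comm, ← Finset.sum_sub_distrib, mul_add, Finset.mul_sum]
    congr 1
    · refine Finset.sum_congr rfl fun j hj => ?_
      rw [Finset.mem_range] at hj
      have h3 := cz2 M j (by omega)
      have h4 : (((M + 1).choose (j + 1) : ℕ) : ℤ) = (M.choose j : ℤ) + M.choose (j + 1) := by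
        rw [Nat.choose_succ_succ]; push_cast; ring
      rw [h4, hg]
      push_cast
      linear_combination (2 * (-1) ^ j * ((M : ℤ) + 1 - 2 * (j + 1)) *
        pN (M + 1) (3 * ((j : ℤ) + 1))) * h3
    · rw [hg]
      push_cast
      simp
      ring
  rw [e3, h2, e2, e]
  ring

end V2

open V2 in
theorem s0_odd (k : ℕ) : s0 (2 * k + 1)
    = -36 * ∏ i ∈ Finset.range k, 36 * (2 * ((i : ℤ) + 1) + 1) ^ 2 * (3 * ((i : ℤ) + 1) + 1)
        * (3 * ((i : ℤ) + 1) + 2) := by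
  induction k with
  | zero => decide
  | succ k ih =>
    rw [Finset.prod_range_succ, ← mul_assoc, ← ih]
    have h1 := U_s0 (2 * k + 1) ⟨k, rfl⟩
    have h2 := U_s0 (2 * (k + 1) + 1) ⟨k + 1, rfl⟩
    have h3 := U_rec (2 * k + 2)
    have h4 : 2 * (k + 1) + 1 + 1 = 2 * k + 2 + 2 := by ring
    rw [h4, h3, h1] at h2
    push_cast at h2
    linarith

open V2 in
theorem s1_odd (k : ℕ) : ((k : ℤ) + 2) * s1 (2 * k + 1)
    = -160 * ∏ i ∈ Finset.range k, 36 * (2 * ((i : ℤ) + 1) + 1) ^ 2 * (3 * ((i : ℤ) + 1) + 4)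
        * (3 * ((i : ℤ) + 1) + 5) := by
  induction k with
  | zero => decide
  | succ k ih =>
    rw [Finset.prod_range_succ, ← mul_assoc, ← ih]
    have h1 := T_s1 (2 * k + 1) ⟨k, rfl⟩
    have h2 := T_s1 (2 * (k + 1) + 1) ⟨k + 1, rfl⟩
    have h3 := T_rec (2 * k + 2)
    have h4 : 2 * (k + 1) + 1 + 1 = 2 * k + 2 + 2 := by ring
    rw [h4] at h2
    rw [h2, h1] at h3
    push_cast at h3 ⊢
    have hpos : (16 : ℤ) * (k + 1) * (k + 2) ≠ 0 := by positivity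
    apply mul_left_cancel₀ hpos
    linear_combination (-1 : ℤ) * h3

end Pool.Agent.H988R3
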