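import Pool.Agent.H988R3.Defs4
import Pool.Agent.H974R3.Value
import Pool.Agent.H988R3.Ones
import Pool.Agent.H988R3.Sums

/-! Task V3 of the four-arm project: the value at `1` in closed form. -/

namespace Pool.Agent.H988R3
open Equiv MvPolynomial Pool.Agent.H974R3

theorem V3_s0_succ (k : ℕ) : (s0 (2 * (k + 1) + 1) : ℝ) =
    (s0 (2 * k + 1) : ℝ) * (36 * (2 * (k : ℝ) + 3) ^ 2 * (3 * (k : ℝ) + 4) * (3 * (k : ℝ) + 5)) := by
  have h : s0 (2 * (k + 1) + 1) = s0 (2 * k + 1) * (36 * (2 * ((k : ℤ) + 1) + 1) ^ 2 *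
      (3 * ((k : ℤ) + 1) + 1) * (3 * ((k : ℤ) + 1) + 2)) := by
    rw [s0_odd, s0_odd, Finset.prod_range_succ]
    ring
  rw [h]
  push_cast
  ring

theorem V3_s1_succ (k : ℕ) : ((k : ℝ) + 3) * (s1 (2 * (k + 1) + 1) : ℝ) =
    ((k : ℝ) + 2) * (s1 (2 * k + 1) : ℝ) *
      (36 * (2 * (k : ℝ) + 3) ^ 2 * (3 * (k : ℝ) + 7) * (3 * (k : ℝ) + 8)) := by
  have h : ((k : ℤ) + 3) * s1 (2 * (k + 1) + 1) = ((k : ℤ) + 2) * s1 (2 * k + 1) *
      (36 * (2 * ((k : ℤ) + 1) + 1) ^ 2 * (3 * ((k : ℤ) + 1) + 4) * (3 * ((k : ℤ) + 1) + 5)) := by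
    have h1 := s1_odd (k + 1)
    have h2 := s1_odd k
    rw [Finset.prod_range_succ] at h1
    push_cast at h1
    rw [h2]
    calc ((k : ℤ) + 3) * s1 (2 * (k + 1) + 1) = ((k : ℤ) + 1 + 2) * s1 (2 * (k + 1) + 1) := by ring
      _ = _ := h1
      _ = _ := by ring
  have h3 : (((k : ℤ) + 3 : ℤ) : ℝ) * (s1 (2 * (k + 1) + 1) : ℝ) =
      (((k : ℤ) + 2 : ℤ) : ℝ) * (s1 (2 * k + 1) : ℝ) *
      ((36 * (2 * ((k : ℤ) + 1) + 1) ^ 2 * (3 * ((k : ℤ) + 1) + 4) * (3 * ((k : ℤ) + 1) + 5) : ℤ) : ℝ) := by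
    exact_mod_cast h
  push_cast at h3
  rw [h3]
  ring

theorem V3_ff4 : Value.ff 1 4 = 63 / 2 := by
  have h0 : Value.ff 1 0 = 1 := by
    simp [Value.ff, Value.ee, aexp]
  have h1 := Value.ff_even 0
  have h2 := Value.ff_even 1
  norm_num at h1 h2
  rw [h2, h1, h0]
  norm_num

theorem V3_key (n : ℕ) : 9 * |(s0 (2 * n + 1) : ℝ)| * |(s1 (2 * n + 1) : ℝ)| /
      (((4 * n + 4).factorial : ℝ) * ((4 * n + 5).factorial : ℝ)) =
    Value.ff 1 (4 * n + 4) * ((2 / 7) * ∏ k ∈ Finset.range n,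
    (2 * ((k : ℝ) + 1) + 1) ^ 2 * (3 * ((k : ℝ) + 1) + 4) * (3 * ((k : ℝ) + 1) + 5)
      / ((6 * ((k : ℝ) + 1) + 5) * (6 * ((k : ℝ) + 1) + 7) * ((k : ℝ) + 1 + 1) * ((k : ℝ) + 1 + 2))) := by
  induction n with
  | zero =>
    have h0 := s0_odd 0
    have h1 := s1_odd 0
    simp only [Finset.range_zero, Finset.prod_empty, mul_one, mul_zero, zero_add,
      Nat.cast_zero] at h0 h1 ⊢
    have h2 : s1 1 = -80 := by omega
    rw [h0, h2, V3_ff4]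
    norm_num [Nat.factorial]
  | succ n ih =>
    have g2 := Value.ff_even (2 * n + 2)
    have g3 := Value.ff_even (2 * n + 3)
    rw [show 2 * (2 * n + 2) + 2 = 4 * n + 6 from by ring,
      show 2 * (2 * n + 2) = 4 * n + 4 from by ring] at g2
    rw [show 2 * (2 * n + 3) + 2 = 4 * n + 8 from by ring,
      show 2 * (2 * n + 3) = 4 * n + 6 from by ring] at g3
    rw [show 4 * (n + 1) + 4 = 4 * n + 8 from by ring, show 4 * (n + 1) + 5 = 4 * n + 9 from by ring,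
      g3, g2, Finset.prod_range_succ]
    have e0 := V3_s0_succ n
    have e1 : (s1 (2 * (n + 1) + 1) : ℝ) = (s1 (2 * n + 1) : ℝ) *
      (((n : ℝ) + 2) * (36 * (2 * (n : ℝ) + 3) ^ 2 * (3 * (n : ℝ) + 7) * (3 * (n : ℝ) + 8)) /
        ((n : ℝ) + 3)) := by
      have h := V3_s1_succ n
      have h3 : (n : ℝ) + 3 ≠ 0 := by positivity
      field_simp
      linarith
    have f4 : ((4 * n + 8).factorial : ℝ) = ((4 * n + 4).factorial : ℝ) *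
        ((4 * (n : ℝ) + 5) * (4 * (n : ℝ) + 6) * (4 * (n : ℝ) + 7) * (4 * (n : ℝ) + 8)) := by
      rw [show 4 * n + 8 = 4 * n + 4 + 1 + 1 + 1 + 1 from by ring, Nat.factorial_succ,
        Nat.factorial_succ, Nat.factorial_succ, Nat.factorial_succ]
      push_cast
      ring
    have f5 : ((4 * n + 9).factorial : ℝ) = ((4 * n + 5).factorial : ℝ) *
        ((4 * (n : ℝ) + 6) * (4 * (n : ℝ) + 7) * (4 * (n : ℝ) + 8) * (4 * (n : ℝ) + 9)) := by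
      rw [show 4 * n + 9 = 4 * n + 5 + 1 + 1 + 1 + 1 from by ring, Nat.factorial_succ,
        Nat.factorial_succ, Nat.factorial_succ, Nat.factorial_succ]
      push_cast
      ring
    rw [e0, e1, f4, f5, abs_mul (s0 (2 * n + 1) : ℝ), abs_mul (s1 (2 * n + 1) : ℝ)]
    have p0 : |36 * (2 * (n : ℝ) + 3) ^ 2 * (3 * (n : ℝ) + 4) * (3 * (n : ℝ) + 5)| =
        36 * (2 * (n : ℝ) + 3) ^ 2 * (3 * (n : ℝ) + 4) * (3 * (n : ℝ) + 5) :=
      abs_of_nonneg (by positivity)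
    have p1 : |((n : ℝ) + 2) * (36 * (2 * (n : ℝ) + 3) ^ 2 * (3 * (n : ℝ) + 7) *
        (3 * (n : ℝ) + 8)) / ((n : ℝ) + 3)| = ((n : ℝ) + 2) * (36 * (2 * (n : ℝ) + 3) ^ 2 *
        (3 * (n : ℝ) + 7) * (3 * (n : ℝ) + 8)) / ((n : ℝ) + 3) :=
      abs_of_nonneg (by positivity)
    rw [p0, p1]
    set R : ℝ := ∏ k ∈ Finset.range n,
    (2 * ((k : ℝ) + 1) + 1) ^ 2 * (3 * ((k : ℝ) + 1) + 4) * (3 * ((k : ℝ) + 1) + 5)
      / ((6 * ((k : ℝ) + 1) + 5) * (6 * ((k : ℝ) + 1) + 7) * ((k : ℝ) + 1 + 1) * ((k : ℝ) + 1 + 2))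
      with hR
    set F := Value.ff 1 (4 * n + 4) with hF
    set a := |(s0 (2 * n + 1) : ℝ)|
    set b := |(s1 (2 * n + 1) : ℝ)|
    have hf4 : ((4 * n + 4).factorial : ℝ) ≠ 0 := by positivity
    have hf5 : ((4 * n + 5).factorial : ℝ) ≠ 0 := by positivity
    set u := ((4 * n + 4).factorial : ℝ)
    set v := ((4 * n + 5).factorial : ℝ)
    calc 9 * (a * (36 * (2 * (n : ℝ) + 3) ^ 2 * (3 * (n : ℝ) + 4) * (3 * (n : ℝ) + 5))) *
          (b * (((n : ℝ) + 2) * (36 * (2 * (n : ℝ) + 3) ^ 2 * (3 * (n : ℝ) + 7) *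
            (3 * (n : ℝ) + 8)) / ((n : ℝ) + 3))) /
          (u * ((4 * (n : ℝ) + 5) * (4 * (n : ℝ) + 6) * (4 * (n : ℝ) + 7) * (4 * (n : ℝ) + 8)) *
          (v * ((4 * (n : ℝ) + 6) * (4 * (n : ℝ) + 7) * (4 * (n : ℝ) + 8) * (4 * (n : ℝ) + 9))))
        = (9 * a * b / (u * v)) *
          ((36 * (2 * (n : ℝ) + 3) ^ 2 * (3 * (n : ℝ) + 4) * (3 * (n : ℝ) + 5)) *
          (((n : ℝ) + 2) * (36 * (2 * (n : ℝ) + 3) ^ 2 * (3 * (n : ℝ) + 7) *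
            (3 * (n : ℝ) + 8)) / ((n : ℝ) + 3)) /
          (((4 * (n : ℝ) + 5) * (4 * (n : ℝ) + 6) * (4 * (n : ℝ) + 7) * (4 * (n : ℝ) + 8)) *
          ((4 * (n : ℝ) + 6) * (4 * (n : ℝ) + 7) * (4 * (n : ℝ) + 8) * (4 * (n : ℝ) + 9)))) := by
            field_simp
      _ = _ := by
        rw [ih]
        push_cast
        field_simp
        ring

theorem HH_p4val (n : ℕ) :
    3 * ‖HH (List.replicate (4 * n + 6) 1) (List.replicate (2 * n + 1) 1)‖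
      / (3 ^ (n + 1) * (Dval 1 (2 * n + 3) * Dval 2 (2 * n + 3)) ^ 2) = p4val (n + 1) := by
  have h := HH_ones (2 * n + 1)
  rw [show 2 * (2 * n + 1) + 4 = 4 * n + 6 from by ring,
    show 2 * (2 * n + 1) + 2 = 4 * n + 4 from by ring,
    show 2 * (2 * n + 1) + 3 = 4 * n + 5 from by ring] at h
  rw [h]
  have hk := V3_key n
  have hD : Dval 1 (2 * (2 * (n + 1) + 1)) = Dval 1 (4 * n + 4) * Value.ff 1 (4 * n + 4) := by
    rw [show 2 * (2 * (n + 1) + 1) = 4 * n + 4 + 2 from by ring, Value.Dval_add2]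
  unfold p4val pval
  rw [hD, show 2 * (n + 1) + 1 = 2 * n + 3 from by ring, show n + 1 - 1 = n from rfl]
  have h2 := Value.Dval_pos 1 le_rfl (by norm_num) (2 * n + 3)
  have h3 := Value.Dval_pos 2 (by norm_num) le_rfl (2 * n + 3)
  have hf4 : ((4 * n + 4).factorial : ℝ) ≠ 0 := by positivity
  have hf5 : ((4 * n + 5).factorial : ℝ) ≠ 0 := by positivity
  set R : ℝ := ∏ k ∈ Finset.range n,
    (2 * ((k : ℝ) + 1) + 1) ^ 2 * (3 * ((k : ℝ) + 1) + 4) * (3 * ((k : ℝ) + 1) + 5)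
      / ((6 * ((k : ℝ) + 1) + 5) * (6 * ((k : ℝ) + 1) + 7) * ((k : ℝ) + 1 + 1) * ((k : ℝ) + 1 + 2))
      with hR
  set D := Dval 1 (2 * n + 3) * Dval 2 (2 * n + 3) with hDD
  have hD0 : D ≠ 0 := (mul_pos h2 h3).ne'
  calc 3 * (3 * Dval 1 (4 * n + 4) * |(s0 (2 * n + 1) : ℝ)| * |(s1 (2 * n + 1) : ℝ)| /
        (((4 * n + 4).factorial : ℝ) * ((4 * n + 5).factorial : ℝ))) / (3 ^ (n + 1) * D ^ 2)
      = Dval 1 (4 * n + 4) * (9 * |(s0 (2 * n + 1) : ℝ)| * |(s1 (2 * n + 1) : ℝ)| /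
        (((4 * n + 4).factorial : ℝ) * ((4 * n + 5).factorial : ℝ))) / (3 ^ (n + 1) * D ^ 2) := by
        ring
    _ = _ := by
        rw [hk]
        ring

end Pool.Agent.H988R3
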