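import Pool.Agent.H988R3.HDef
import Pool.Agent.H988R3.Int3
import Pool.Agent.H988R3.HDeg
import Pool.Agent.H988R3.HRec
import Pool.Agent.H988R3.Val4
import Pool.Agent.H974R3.Homog

/-!
# Module M : the homogeneous four-arm formula
-/

namespace Pool.Agent.H988R3
open Equiv MvPolynomial Pool.Agent.H974R3 Pool.Agent.H974R3.Hom

theorem M_HSpec : HSpec HH :=
  { permv := HH_permv
    permw := HH_permw
    nil := HH_nil
    recur := HH_recur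
    deg := HH_deg
    cont := HH_cont }

theorem M_pr4_re (m : ℕ) (a b : Fin m) (σ τ : Pat m) : pr4 a b σ τ = (((pr4 a b σ τ).re : ℝ) : ℂ) := by
  unfold pr4
  split_ifs <;> simp

theorem M_pr4_re_nonneg (m : ℕ) (a b : Fin m) (σ τ : Pat m) : 0 ≤ (pr4 a b σ τ).re := by
  unfold pr4
  split_ifs <;> simp

/-- the value of the form at `1` -/
theorem M_S2_one {q : ℂ} (hq : q ^ 2 + q + 1 = 0) (n : ℕ)
    (Ψ Ψ' : Pat (2 * n + 3) → MvPolynomial (Fin (2 * n + 3)) ℂ) (h : PsiSpec q (n + 1) Ψ)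
    (h' : PsiSpec (q ^ 2) (n + 1) Ψ') :
    ∑ σ : Pat (2 * n + 3), ∑ τ : Pat (2 * n + 3), pr4 0 1 σ τ
      * eval (fun _ => (1 : ℂ)) (Ψ σ) * eval (fun _ => (1 : ℂ)) (Ψ' τ)
      = -3 * HH (List.replicate (4 * n + 6) 1) (List.replicate (2 * n + 1) 1) := by
  have hF := F2_all q hq HH M_HSpec n Ψ Ψ' h h' 1 1 1 1 (fun _ => 1)
  have hl : (1 : ℂ) :: 1 :: 1 :: 1 :: (List.ofFn (fun _ : Fin (2 * n + 1) => (1 : ℂ)) ++
      List.ofFn (fun _ : Fin (2 * n + 1) => (1 : ℂ))) = List.replicate (4 * n + 6) 1 := by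
    rw [ofFn_one, ← List.replicate_add, ← List.replicate_succ, ← List.replicate_succ,
      ← List.replicate_succ, ← List.replicate_succ]
    congr 1
    omega
  have hw : (List.ofFn (fun _ : Fin (2 * n + 1) => (1 : ℂ))).map (fun u => u ^ 3)
      = List.replicate (2 * n + 1) 1 := by
    rw [ofFn_one, List.map_replicate, one_pow]
  unfold S2 g4 at hF
  rw [hl, hw, cons_one, cons_one] at hF
  simp only [one_pow, Finset.prod_const_one, mul_one] at hF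
  rw [hF]
  congr 1
  linear_combination (q ^ 2 - 3 * q + 3) * hq

theorem M_value (n : ℕ) (μ : Pat (2 * (n + 1) + 1) → ℝ) (hμ : ∑ σ, μ σ = 1)
    (hst : ∀ σ, ∑ c : Fin (2 * (n + 1) + 1) → Bool, push (Tc (2 * (n + 1)) c) μ σ
      = 2 ^ (2 * (n + 1) + 1) * μ σ) :
    (∑ σ, ∑ τ, (pr4 (0 : Fin (2 * (n + 1) + 1)) 1 σ τ).re * μ σ * μ τ : ℝ) = p4val (n + 1) := by
  obtain ⟨q, hq⟩ := exists_q
  have hq2 := q_sq hq
  obtain ⟨Ψ, hΨ⟩ := exists_psi q hq (n + 1)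
  obtain ⟨Ψ', hΨ'⟩ := exists_psi (q ^ 2) hq2 (n + 1)
  obtain ⟨g1, h1⟩ := exists_G q hq 1 (Or.inl rfl)
  obtain ⟨g2, h2⟩ := exists_G q hq 2 (Or.inr rfl)
  obtain ⟨g1', h1'⟩ := exists_G (q ^ 2) hq2 1 (Or.inl rfl)
  obtain ⟨g2', h2'⟩ := exists_G (q ^ 2) hq2 2 (Or.inr rfl)
  have hμc : ∑ σ, ((μ σ : ℝ) : ℂ) = 1 := by rw [← Complex.ofReal_sum, hμ]; simp
  have hstc := stat_cast (n + 1) μ hst
  have e1 := stat_eq (n + 1) _ hμc hstc _ (stat_one hq hΨ)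
  have e2 := stat_eq (n + 1) _ hμc hstc _ (stat_one hq2 hΨ')
  have s1 := Z_formula q hq g1 g2 h1 h2 (n + 1) Ψ hΨ (fun _ => 1)
  have s2 := Z_formula (q ^ 2) hq2 g1' g2' h1' h2' (n + 1) Ψ' hΨ' (fun _ => 1)
  have b : ∑ σ, ∑ τ, pr4 (0 : Fin (2 * (n + 1) + 1)) 1 σ τ
      * eval (fun _ => (1 : ℂ)) (Ψ σ) * eval (fun _ => (1 : ℂ)) (Ψ' τ)
      = -3 * HH (List.replicate (4 * n + 6) 1) (List.replicate (2 * n + 1) 1) :=
    M_S2_one hq n Ψ Ψ' hΨ hΨ'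
  rw [ofFn_one, g_ones h1, g_ones h2] at s1
  rw [ofFn_one, g_ones h1', g_ones h2'] at s2
  rw [s1] at e1
  rw [s2] at e2
  set P : ℝ := ∑ σ, ∑ τ, (pr4 (0 : Fin (2 * (n + 1) + 1)) 1 σ τ).re * μ σ * μ τ with hP
  have hPc : (∑ σ, ∑ τ, pr4 (0 : Fin (2 * (n + 1) + 1)) 1 σ τ * ((μ σ : ℝ) : ℂ) * ((μ τ : ℝ) : ℂ)) =
      (P : ℂ) := by
    rw [hP, Complex.ofReal_sum]
    refine Finset.sum_congr rfl fun σ _ => ?_
    rw [Complex.ofReal_sum]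
    refine Finset.sum_congr rfl fun τ _ => ?_
    rw [Complex.ofReal_mul, Complex.ofReal_mul, ← M_pr4_re]
  have hb : ∑ σ, ∑ τ, pr4 (0 : Fin (2 * (n + 1) + 1)) 1 σ τ * eval (fun _ => (1 : ℂ)) (Ψ σ)
        * eval (fun _ => (1 : ℂ)) (Ψ' τ) =
      (3 ^ (n + 1) * (((Dval 1 (2 * (n + 1) + 1) : ℝ) : ℂ) * ((Dval 2 (2 * (n + 1) + 1) : ℝ) : ℂ)) ^ 2) *
      (P : ℂ) := by
    rw [← hPc, Finset.mul_sum]
    refine Finset.sum_congr rfl fun σ _ => ?_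
    rw [Finset.mul_sum]
    refine Finset.sum_congr rfl fun τ _ => ?_
    rw [e1 σ, e2 τ, ← q_prod hq, mul_pow]
    ring
  rw [b] at hb
  -- positivity of `P`
  obtain ⟨ν, hν0, hν1, hν2, _, _⟩ := markov_exists (n + 1)
  have hμν : μ = ν := stat_real (n + 1) μ ν hμ hν1 hst hν2
  have hP0 : 0 ≤ P := by
    rw [hP]
    refine Finset.sum_nonneg fun σ _ => Finset.sum_nonneg fun τ _ => ?_
    rw [hμν]
    exact mul_nonneg (mul_nonneg (M_pr4_re_nonneg _ _ _ _ _) (hν0 _)) (hν0 _)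
  have hD1 : 0 < Dval 1 (2 * (n + 1) + 1) := Dval_pos (Or.inl rfl) _
  have hD2 : 0 < Dval 2 (2 * (n + 1) + 1) := Dval_pos (Or.inr rfl) _
  have hn := congrArg norm hb
  rw [norm_mul, norm_mul, norm_neg, ← Complex.ofReal_mul, Complex.norm_real] at hn
  have hc : ‖((3 : ℂ) ^ (n + 1) * ((Dval 1 (2 * (n + 1) + 1) * Dval 2 (2 * (n + 1) + 1) : ℝ) : ℂ) ^ 2)‖
      = 3 ^ (n + 1) * (Dval 1 (2 * (n + 1) + 1) * Dval 2 (2 * (n + 1) + 1)) ^ 2 := by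
    rw [norm_mul, norm_pow, norm_pow, Complex.norm_real, Real.norm_of_nonneg (by positivity)]
    simp
  rw [hc, Real.norm_of_nonneg hP0] at hn
  have h3 : ‖(3 : ℂ)‖ = 3 := by simp
  rw [h3] at hn
  have hv := HH_p4val n
  rw [← hv]
  have hfin : P = 3 * ‖HH (List.replicate (4 * n + 6) 1) (List.replicate (2 * n + 1) 1)‖
      / (3 ^ (n + 1) * (Dval 1 (2 * (n + 1) + 1) * Dval 2 (2 * (n + 1) + 1)) ^ 2) := by
    rw [eq_div_iff (by positivity), hn]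
    ring
  exact hfin

theorem pairing4_value (n : ℕ) (hn : 1 ≤ n) (μ : Pat (2 * n + 1) → ℝ) (hμ : ∑ σ, μ σ = 1)
    (hst : ∀ σ, ∑ c : Fin (2 * n + 1) → Bool, push (Tc (2 * n) c) μ σ
      = 2 ^ (2 * n + 1) * μ σ) :
    (∑ σ, ∑ τ, (pr4 (ix (2 * n) 0) (ix (2 * n) 1) σ τ).re * μ σ * μ τ : ℝ) = p4val n := by
  obtain ⟨k, rfl⟩ : ∃ k, n = k + 1 := ⟨n - 1, by omega⟩
  have h0 : ix (2 * (k + 1)) 0 = 0 := by
    ext
    simp [ix]
  have h1 : ix (2 * (k + 1)) 1 = 1 := by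
    ext
    simp [ix]
  rw [h0, h1]
  exact M_value k μ hμ hst

end Pool.Agent.H988R3
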