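import Pool.Agent.H988R3.Defs4
import Pool.Agent.H988R3.P4Base
import Pool.Agent.H988R3.P4Tri
import Pool.Agent.H974R3.PairFormula

/-!
# Recursions of the four-arm form `S2`
-/

namespace Pool.Agent.H988R3
open Equiv MvPolynomial Pool.Agent.H974R3

theorem R1_Fac {N : ℕ} (q x : ℂ) (z : Fin N → ℂ) : Fac4 q x z = Fac q x z := rfl

theorem R1_Fac_snoc {N : ℕ} (q x a : ℂ) (z : Fin N → ℂ) :
    Fac q x (Fin.snoc z a : Fin (N + 1) → ℂ) = Fac q x (Fin.cons a z : Fin (N + 1) → ℂ) := by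
  unfold Fac
  rw [Fin.prod_univ_castSucc, Fin.prod_univ_succ]
  simp only [Fin.snoc_castSucc, Fin.snoc_last, Fin.cons_zero, Fin.cons_succ]
  ring

/-- evaluation at a point whose last entry is moved to the front -/
theorem R1_ev_cons {q : ℂ} {n : ℕ} {Ψ : Pat (2 * n + 1) → MvPolynomial (Fin (2 * n + 1)) ℂ}
    (h : PsiSpec q n Ψ) (a : ℂ) (v : Fin (2 * n) → ℂ) (σ : Pat (2 * n + 1)) :
    eval (Fin.snoc v a : Fin (2 * n + 1) → ℂ) (Ψ σ)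
      = eval (Fin.cons a v : Fin (2 * n + 1) → ℂ) (Ψ (rot (2 * n) σ)) := by
  rw [ev_rot h, cons_comp_rotate]

section forms
variable (q : ℂ) (hq : q ^ 2 + q + 1 = 0)
include hq

theorem S2_rec1 (n : ℕ) (Ψ0 : Pat (2 * n + 1) → MvPolynomial (Fin (2 * n + 1)) ℂ)
    (Ψ Ψ' : Pat (2 * n + 3) → MvPolynomial (Fin (2 * n + 3)) ℂ) (h0 : PsiSpec q n Ψ0)
    (h : PsiSpec q (n + 1) Ψ) (h' : PsiSpec (q ^ 2) (n + 1) Ψ') (t x2 y1 y2 : ℂ)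
    (z : Fin (2 * n) → ℂ) :
    S2 n Ψ Ψ' (q * t) x2 y1 y2 (Fin.snoc z t : Fin (2 * n + 1) → ℂ)
      = Fac4 q t (Fin.cons x2 z : Fin (2 * n + 1) → ℂ) * S3 n Ψ0 Ψ' x2 t y1 y2 z := by
  have hr := psi_rec q hq n Ψ0 h0 Ψ h t (Fin.cons x2 z : Fin (2 * n + 1) → ℂ)
  have eA : ∀ σ : Pat (2 * n + 3), eval (Fin.cons (q * t) (Fin.cons x2 (Fin.snoc z t :
      Fin (2 * n + 1) → ℂ) : Fin (2 * n + 2) → ℂ) : Fin (2 * n + 3) → ℂ) (Ψ σ)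
      = eval (Fin.cons t (Fin.cons (q * t) (Fin.cons x2 z : Fin (2 * n + 1) → ℂ) :
        Fin (2 * n + 2) → ℂ) : Fin (2 * n + 3) → ℂ) (Ψ (rot (2 * n + 2) σ)) := by
    intro σ
    have := R1_ev_cons h t (Fin.cons (q * t) (Fin.cons x2 z : Fin (2 * n + 1) → ℂ) :
        Fin (2 * n + 2) → ℂ) σ
    refine Eq.trans ?_ this
    congr 2
    refine Eq.trans ?_ (Fin.cons_snoc_eq_snoc_cons (n := 2 * n + 1) _ _ _)
    rw [← Fin.cons_snoc_eq_snoc_cons]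
  have eB : ∀ τ : Pat (2 * n + 3), eval (Fin.cons y1 (Fin.cons y2 (Fin.snoc z t :
      Fin (2 * n + 1) → ℂ) : Fin (2 * n + 2) → ℂ) : Fin (2 * n + 3) → ℂ) (Ψ' τ)
      = eval (Fin.cons t (Fin.cons y1 (Fin.cons y2 z : Fin (2 * n + 1) → ℂ) :
        Fin (2 * n + 2) → ℂ) : Fin (2 * n + 3) → ℂ) (Ψ' (rot (2 * n + 2) τ)) := by
    intro τ
    have := R1_ev_cons h' t (Fin.cons y1 (Fin.cons y2 z : Fin (2 * n + 1) → ℂ) :
        Fin (2 * n + 2) → ℂ) τ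
    refine Eq.trans ?_ this
    congr 2
    refine Eq.trans ?_ (Fin.cons_snoc_eq_snoc_cons (n := 2 * n + 1) _ _ _)
    rw [← Fin.cons_snoc_eq_snoc_cons]
  have r0 : finRotate (2 * n + 2 + 1) 0 = (1 : Fin (2 * n + 3)) := by
    rw [finRotate_apply]; rfl
  have r1 : finRotate (2 * n + 2 + 1) 1 = (2 : Fin (2 * n + 3)) := by
    rw [finRotate_apply]; rfl
  have eP : ∀ σ τ : Pat (2 * n + 3), pr4 0 1 σ τ
      = pr4 1 2 (rot (2 * n + 2) σ) (rot (2 * n + 2) τ) := by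
    intro σ τ
    have := pr4_rot (m := 2 * n + 2) 0 1 σ τ
    rw [r0, r1] at this
    exact this.symm
  unfold S2
  simp_rw [eA, eB, eP]
  rw [sum_rot (m := 2 * n + 2) (fun σ => ∑ τ : Pat (2 * n + 3), pr4 1 2 σ (rot (2 * n + 2) τ)
    * eval (Fin.cons t (Fin.cons (q * t) (Fin.cons x2 z : Fin (2 * n + 1) → ℂ) :
        Fin (2 * n + 2) → ℂ) : Fin (2 * n + 3) → ℂ) (Ψ σ)
    * eval (Fin.cons t (Fin.cons y1 (Fin.cons y2 z : Fin (2 * n + 1) → ℂ) :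
        Fin (2 * n + 2) → ℂ) : Fin (2 * n + 3) → ℂ) (Ψ' (rot (2 * n + 2) τ)))]
  have e2 : ∀ σ : Pat (2 * n + 3), ∑ τ : Pat (2 * n + 3), pr4 1 2 σ (rot (2 * n + 2) τ)
    * eval (Fin.cons t (Fin.cons (q * t) (Fin.cons x2 z : Fin (2 * n + 1) → ℂ) :
        Fin (2 * n + 2) → ℂ) : Fin (2 * n + 3) → ℂ) (Ψ σ)
    * eval (Fin.cons t (Fin.cons y1 (Fin.cons y2 z : Fin (2 * n + 1) → ℂ) :
        Fin (2 * n + 2) → ℂ) : Fin (2 * n + 3) → ℂ) (Ψ' (rot (2 * n + 2) τ))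
      = ∑ τ : Pat (2 * n + 3), pr4 1 2 σ τ
    * eval (Fin.cons t (Fin.cons (q * t) (Fin.cons x2 z : Fin (2 * n + 1) → ℂ) :
        Fin (2 * n + 2) → ℂ) : Fin (2 * n + 3) → ℂ) (Ψ σ)
    * eval (Fin.cons t (Fin.cons y1 (Fin.cons y2 z : Fin (2 * n + 1) → ℂ) :
        Fin (2 * n + 2) → ℂ) : Fin (2 * n + 3) → ℂ) (Ψ' τ) := by
    intro σ
    exact sum_rot (m := 2 * n + 2) (fun τ => pr4 1 2 σ τ
    * eval (Fin.cons t (Fin.cons (q * t) (Fin.cons x2 z : Fin (2 * n + 1) → ℂ) :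
        Fin (2 * n + 2) → ℂ) : Fin (2 * n + 3) → ℂ) (Ψ σ)
    * eval (Fin.cons t (Fin.cons y1 (Fin.cons y2 z : Fin (2 * n + 1) → ℂ) :
        Fin (2 * n + 2) → ℂ) : Fin (2 * n + 3) → ℂ) (Ψ' τ))
  simp_rw [e2]
  rw [sum_ins]
  · unfold S3
    rw [Finset.mul_sum]
    apply Finset.sum_congr rfl
    intro σ _
    rw [Finset.mul_sum]
    apply Finset.sum_congr rfl
    intro τ _
    rw [hr.1 σ, R1_Fac]
    ring
  · intro τ hτ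
    apply Finset.sum_eq_zero
    intro σ _
    rw [hr.2 τ hτ, mul_zero, zero_mul]

theorem S2_rec2 (n : ℕ) (Ψ0 : Pat (2 * n + 1) → MvPolynomial (Fin (2 * n + 1)) ℂ)
    (Ψ Ψ' : Pat (2 * n + 3) → MvPolynomial (Fin (2 * n + 3)) ℂ) (h0 : PsiSpec q n Ψ0)
    (h : PsiSpec q (n + 1) Ψ) (h' : PsiSpec (q ^ 2) (n + 1) Ψ') (x1 x2 y1 y2 : ℂ)
    (z : Fin (2 * n) → ℂ) :
    S2 n Ψ Ψ' x1 x2 y1 y2 (Fin.cons (q * x2) z : Fin (2 * n + 1) → ℂ)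
      = Fac4 q x2 (Fin.cons x1 z : Fin (2 * n + 1) → ℂ) * S3 n Ψ0 Ψ' x1 y1 y2 (q * x2) z := by
  have hr := psi_rec q hq n Ψ0 h0 Ψ h x2 (Fin.snoc z x1 : Fin (2 * n + 1) → ℂ)
  have eA : ∀ σ : Pat (2 * n + 3), eval (Fin.cons x1 (Fin.cons x2 (Fin.cons (q * x2) z :
      Fin (2 * n + 1) → ℂ) : Fin (2 * n + 2) → ℂ) : Fin (2 * n + 3) → ℂ)
        (Ψ (rot (2 * n + 2) σ))
      = eval (Fin.cons x2 (Fin.cons (q * x2) (Fin.snoc z x1 : Fin (2 * n + 1) → ℂ) :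
        Fin (2 * n + 2) → ℂ) : Fin (2 * n + 3) → ℂ) (Ψ σ) := by
    intro σ
    have := R1_ev_cons h x1 (Fin.cons x2 (Fin.cons (q * x2) z : Fin (2 * n + 1) → ℂ) :
        Fin (2 * n + 2) → ℂ) σ
    refine Eq.trans this.symm ?_
    congr 2
    refine Eq.trans (Fin.cons_snoc_eq_snoc_cons (n := 2 * n + 1) _ _ _).symm ?_
    rw [← Fin.cons_snoc_eq_snoc_cons]
  unfold S2
  rw [← sum_rot (m := 2 * n + 2)]
  simp_rw [eA]
  rw [sum_ins]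
  · unfold S3
    rw [← sum_rotInv (m := 2 * n), Finset.mul_sum]
    apply Finset.sum_congr rfl
    intro σ _
    rw [Finset.mul_sum]
    apply Finset.sum_congr rfl
    intro τ _
    have e1 := hr.1 (rotInv (2 * n) σ)
    rw [R1_ev_cons h0 x1 z, rot_rotInv, R1_Fac_snoc] at e1
    rw [e1, R1_Fac]
    have e2 := pr4_tri σ τ
    rw [e2]
    ring
  · intro τ hτ
    apply Finset.sum_eq_zero
    intro σ _
    rw [hr.2 τ hτ, mul_zero, zero_mul]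

end forms

end Pool.Agent.H988R3
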