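import Pool.Agent.H988R3.Sym2
import Pool.Agent.H988R3.Deg4
import Pool.Agent.H988R3.Rec2
import Pool.Agent.H974R3.Gen
import Pool.Agent.H974R3.Psi

/-!
# Interpolation: the closed formula for `S2` from the one for `S3` (task I1)
-/

namespace Pool.Agent.H988R3
open Equiv MvPolynomial Pool.Agent.H974R3

theorem I1_g4_perm (H : List ℂ → List ℂ → ℂ) (hH : HSpec H) (a b c d : ℂ) {z z' : List ℂ}
    (h : z.Perm z') : g4 H a b c d z = g4 H a b c d z' := by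
  unfold g4
  rw [hH.permw _ _ _ (h.map _)]
  exact hH.permv _ _ _ ((((h.append h).cons d).cons c).cons b |>.cons a)

theorem I1_g4_rec (H : List ℂ → List ℂ → ℂ) (hH : HSpec H) (q : ℂ) (hq : q ^ 2 + q + 1 = 0)
    (b c d t : ℂ) (z : List ℂ) :
    g4 H (q ^ 2 * t) b c d (t :: z)
      = q ^ 2 * t ^ 2 * ((b - q * t) * (c - q * t) * (d - q * t) * (t - q * t)
        * (z.map (fun u => u - q * t)).prod ^ 2) * g4 H b c d t z := by
  have h := hH.recur q hq t (b :: c :: d :: t :: (z ++ z)) (z.map (fun u => u ^ 3))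
    (by simp; omega)
  have hp : (q ^ 2 * t :: b :: c :: d :: ((t :: z) ++ (t :: z))).Perm
      (q ^ 2 * t :: t :: b :: c :: d :: t :: (z ++ z)) := by
    rw [← Multiset.coe_eq_coe]
    simp only [← Multiset.cons_coe, ← Multiset.coe_add, ← Multiset.singleton_add]
    abel
  unfold g4
  rw [hH.permv _ _ _ hp, List.map_cons, h]
  simp only [List.map_cons, List.prod_cons, List.map_append, List.prod_append]
  ring

theorem I1_g4_cont (H : List ℂ → List ℂ → ℂ) (hH : HSpec H) (M : ℕ) :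
    Continuous (fun p : (Fin 4 → ℂ) × (Fin M → ℂ) =>
      g4 H (p.1 0) (p.1 1) (p.1 2) (p.1 3) (List.ofFn p.2)) := by
  have h := hH.cont (M + M + 1 + 1 + 1 + 1) M
  have h2 : Continuous (fun p : (Fin 4 → ℂ) × (Fin M → ℂ) =>
      (((Fin.cons (p.1 0) (Fin.cons (p.1 1) (Fin.cons (p.1 2) (Fin.cons (p.1 3)
        (Fin.append p.2 p.2) : Fin (M + M + 1) → ℂ) : Fin (M + M + 1 + 1) → ℂ) :
        Fin (M + M + 1 + 1 + 1) → ℂ) : Fin (M + M + 1 + 1 + 1 + 1) → ℂ),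
        (fun i => p.2 i ^ 3)) : (Fin (M + M + 1 + 1 + 1 + 1) → ℂ) × (Fin M → ℂ))) := by
    have hc : ∀ (N : ℕ) (f : (Fin 4 → ℂ) × (Fin M → ℂ) → ℂ)
        (g : (Fin 4 → ℂ) × (Fin M → ℂ) → Fin N → ℂ), Continuous f → Continuous g →
        Continuous (fun p => (Fin.cons (f p) (g p) : Fin (N + 1) → ℂ)) := by
      intro N f g hf hg
      refine continuous_pi (fun i => ?_)
      refine Fin.cases ?_ (fun j => ?_) i
      · simpa using hf
      · simp only [Fin.cons_succ]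
        exact (continuous_apply j).comp hg
    have happ : Continuous (fun p : (Fin 4 → ℂ) × (Fin M → ℂ) => Fin.append p.2 p.2) := by
      refine continuous_pi (fun i => ?_)
      refine Fin.addCases (fun j => ?_) (fun j => ?_) i
      · simp only [Fin.append_left]
        exact (continuous_apply j).comp continuous_snd
      · simp only [Fin.append_right]
        exact (continuous_apply j).comp continuous_snd
    have h0 : ∀ k : Fin 4, Continuous (fun p : (Fin 4 → ℂ) × (Fin M → ℂ) => p.1 k) :=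
      fun k => (continuous_apply k).comp continuous_fst
    refine Continuous.prodMk ?_ ?_
    · exact hc _ _ _ (h0 0) (hc _ _ _ (h0 1) (hc _ _ _ (h0 2) (hc _ _ _ (h0 3) happ)))
    · exact continuous_pi (fun i => ((continuous_apply i).comp continuous_snd).pow 3)
  have h3 := h.comp h2
  refine h3.congr (fun p => ?_)
  simp only [Function.comp, g4, List.ofFn_cons, List.ofFn_fin_append, List.map_ofFn]
  rfl



theorem I1_ofFn_snoc {n : ℕ} (z : Fin n → ℂ) (t : ℂ) :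
    List.ofFn (Fin.snoc z t : Fin (n + 1) → ℂ) = List.ofFn z ++ [t] := by
  rw [List.ofFn_succ', List.concat_eq_append]
  simp only [Fin.snoc_castSucc, Fin.snoc_last]

section forms
variable (q : ℂ) (hq : q ^ 2 + q + 1 = 0)

/-- the closed formula for `S2` at level `n` -/
def F2 (H : List ℂ → List ℂ → ℂ) (n : ℕ) : Prop :=
  ∀ (Ψ Ψ' : Pat (2 * n + 3) → MvPolynomial (Fin (2 * n + 3)) ℂ), PsiSpec q (n + 1) Ψ →
    PsiSpec (q ^ 2) (n + 1) Ψ' → ∀ (x1 x2 y1 y2 : ℂ) (z : Fin (2 * n + 1) → ℂ),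
    S2 n Ψ Ψ' x1 x2 y1 y2 z * ∏ k, z k ^ 2
      = -((q * x2 - q ^ 2 * x1) * (q ^ 2 * y2 - q * y1)) * g4 H x1 x2 y1 y2 (List.ofFn z)

/-- the closed formula for `S3` at level `n` -/
def F3 (H : List ℂ → List ℂ → ℂ) (n : ℕ) : Prop :=
  ∀ (Ψ : Pat (2 * n + 1) → MvPolynomial (Fin (2 * n + 1)) ℂ)
    (Ψ' : Pat (2 * n + 3) → MvPolynomial (Fin (2 * n + 3)) ℂ), PsiSpec q n Ψ →
    PsiSpec (q ^ 2) (n + 1) Ψ' → ∀ (x y1 y2 y3 : ℂ) (z : Fin (2 * n) → ℂ),
    S3 n Ψ Ψ' x y1 y2 y3 z * ∏ k, z k ^ 2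
      = ((q ^ 2 * y2 - q * y1) * (q ^ 2 * y3 - q * y2) * (q ^ 2 * y3 - q * y1))
        * g4 H x y1 y2 y3 (List.ofFn z)

include hq

theorem I1_q3 : q ^ 3 = 1 := by linear_combination (q - 1) * hq

theorem I1_ne_zero : q ≠ 0 := by
  intro h; rw [h] at hq; norm_num at hq

theorem I1_ne_one : q ≠ 1 := by
  intro h; rw [h] at hq; norm_num at hq

theorem I1_sq : (q ^ 2) ^ 2 + q ^ 2 + 1 = 0 := by
  linear_combination (q ^ 2 - q + 1) * hq

omit hq in
theorem I1_fac (n : ℕ) (t x : ℂ) (z : Fin n → ℂ) :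
    Fac4 q t (Fin.cons x z : Fin (n + 1) → ℂ)
      = -(q - 1) * t * ((x - q ^ 2 * t) ^ 2 * (∏ j, (z j - q ^ 2 * t)) ^ 2) := by
  unfold Fac4
  rw [Fin.prod_univ_succ, ← Finset.prod_pow]
  simp only [Fin.cons_zero, Fin.cons_succ]

theorem I1_k1 (H : List ℂ → List ℂ → ℂ) (hH : HSpec H) (n : ℕ) (hF : F3 q H n)
    (Ψ Ψ' : Pat (2 * n + 3) → MvPolynomial (Fin (2 * n + 3)) ℂ) (h : PsiSpec q (n + 1) Ψ)
    (h' : PsiSpec (q ^ 2) (n + 1) Ψ') (t x2 y1 y2 : ℂ) (z : Fin (2 * n) → ℂ) :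
    S2 n Ψ Ψ' (q * t) x2 y1 y2 (Fin.snoc z t : Fin (2 * n + 1) → ℂ)
        * ∏ k, (Fin.snoc z t : Fin (2 * n + 1) → ℂ) k ^ 2
      = -((q * x2 - q ^ 2 * (q * t)) * (q ^ 2 * y2 - q * y1))
        * g4 H (q * t) x2 y1 y2 (List.ofFn (Fin.snoc z t : Fin (2 * n + 1) → ℂ)) := by
  obtain ⟨Ψ0, h0⟩ := exists_psi q hq n
  have hq3 := I1_q3 q hq
  have E := hF Ψ0 Ψ' h0 h' x2 t y1 y2 z
  have hp : (List.ofFn (Fin.snoc z t : Fin (2 * n + 1) → ℂ)).Perm (t :: List.ofFn z) := by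
    rw [I1_ofFn_snoc]
    exact List.perm_append_singleton t _
  have e1 : q * t = (q ^ 2) ^ 2 * t := by linear_combination (-q * t) * hq3
  have hg : g4 H (q * t) x2 y1 y2 (List.ofFn (Fin.snoc z t : Fin (2 * n + 1) → ℂ))
      = (q ^ 2) ^ 2 * t ^ 2 * ((x2 - q ^ 2 * t) * (y1 - q ^ 2 * t) * (y2 - q ^ 2 * t)
        * (t - q ^ 2 * t) * (∏ j, (z j - q ^ 2 * t)) ^ 2) * g4 H x2 y1 y2 t (List.ofFn z) := by
    rw [I1_g4_perm H hH _ _ _ _ hp, e1, I1_g4_rec H hH (q ^ 2) (I1_sq q hq), List.map_ofFn,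
      List.prod_ofFn]
    rfl
  have hsw : g4 H x2 y1 y2 t (List.ofFn z) = g4 H x2 t y1 y2 (List.ofFn z) := by
    unfold g4
    refine hH.permv _ _ _ ?_
    rw [← Multiset.coe_eq_coe]
    simp only [← Multiset.cons_coe, ← Multiset.singleton_add]
    abel
  rw [hg, hsw, S2_rec1 q hq n Ψ0 Ψ Ψ' h0 h h', I1_fac q, Fin.prod_univ_castSucc]
  simp only [Fin.snoc_castSucc, Fin.snoc_last]
  set G := g4 H x2 t y1 y2 (List.ofFn z)
  set P := ∏ j, (z j - q ^ 2 * t)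
  set R := ∏ k, z k ^ 2
  set S := S3 n Ψ0 Ψ' x2 t y1 y2 z
  linear_combination (-(q - 1) * t * ((x2 - q ^ 2 * t) ^ 2 * P ^ 2) * t ^ 2) * E
    + (-(q - 1) * t ^ 3 * (x2 - q ^ 2 * t) ^ 2 * P ^ 2 * (q ^ 2 * y2 - q * y1) * G
        * (q * t * (q ^ 2 * y2 - q * t) + q ^ 2 * (y1 - q ^ 2 * t) * (q * t))
      - q ^ 4 * t ^ 3 * (x2 - q ^ 2 * t) ^ 2 * (y1 - q ^ 2 * t) * (y2 - q ^ 2 * t)
        * (q ^ 2 * y2 - q * y1) * P ^ 2 * G) * hq3

theorem I1_k2 (H : List ℂ → List ℂ → ℂ) (hH : HSpec H) (n : ℕ) (hF : F3 q H n)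
    (Ψ Ψ' : Pat (2 * n + 3) → MvPolynomial (Fin (2 * n + 3)) ℂ) (h : PsiSpec q (n + 1) Ψ)
    (h' : PsiSpec (q ^ 2) (n + 1) Ψ') (x1 x2 y1 y2 : ℂ) (z : Fin (2 * n) → ℂ) :
    (q * x1 - q ^ 2 * x2) * (S2 n Ψ Ψ' x1 x2 y1 y2 (Fin.cons (q * x1) z : Fin (2 * n + 1) → ℂ)
        * ∏ k, (Fin.cons (q * x1) z : Fin (2 * n + 1) → ℂ) k ^ 2)
      = (q * x1 - q ^ 2 * x2) * (-((q * x2 - q ^ 2 * x1) * (q ^ 2 * y2 - q * y1))
        * g4 H x1 x2 y1 y2 (List.ofFn (Fin.cons (q * x1) z : Fin (2 * n + 1) → ℂ))) := by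
  obtain ⟨Ψ0, h0⟩ := exists_psi q hq n
  have hq3 := I1_q3 q hq
  have E := hF Ψ0 Ψ' h0 h' x2 y1 y2 (q * x1) z
  have e1 : x1 = q ^ 2 * (q * x1) := by linear_combination (-x1) * hq3
  have hg : g4 H x1 x2 y1 y2 (List.ofFn (Fin.cons (q * x1) z : Fin (2 * n + 1) → ℂ))
      = q ^ 2 * (q * x1) ^ 2 * ((x2 - q * (q * x1)) * (y1 - q * (q * x1)) * (y2 - q * (q * x1))
        * (q * x1 - q * (q * x1)) * (∏ j, (z j - q * (q * x1))) ^ 2)
          * g4 H x2 y1 y2 (q * x1) (List.ofFn z) := by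
    rw [List.ofFn_cons]
    conv_lhs => rw [show g4 H x1 x2 y1 y2 (q * x1 :: List.ofFn z)
      = g4 H (q ^ 2 * (q * x1)) x2 y1 y2 (q * x1 :: List.ofFn z) by rw [← e1]]
    rw [I1_g4_rec H hH q hq, List.map_ofFn, List.prod_ofFn]
    rfl
  have hsw := S2_swapx q hq n Ψ Ψ' h x1 x2 y1 y2 (Fin.cons (q * x1) z : Fin (2 * n + 1) → ℂ)
  rw [S2_rec2 q hq n Ψ0 Ψ Ψ' h0 h h', I1_fac q] at hsw
  rw [hg, Fin.prod_univ_succ]
  simp only [Fin.cons_succ, Fin.cons_zero]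
  have e2 : ∏ j, (z j - q * (q * x1)) = ∏ j, (z j - q ^ 2 * x1) := by
    congr 1; funext j; ring
  rw [e2]
  set G := g4 H x2 y1 y2 (q * x1) (List.ofFn z)
  set P := ∏ j, (z j - q ^ 2 * x1)
  set R := ∏ k, z k ^ 2
  set S := S3 n Ψ0 Ψ' x2 y1 y2 (q * x1) z
  linear_combination ((q * x1) ^ 2 * R) * hsw
    + ((q * x2 - q ^ 2 * x1) * (-(q - 1) * x1 * ((x2 - q ^ 2 * x1) ^ 2 * P ^ 2))
      * (q * x1) ^ 2) * E
    + (q ^ 4 * x1 ^ 3 * (q * x2 - q ^ 2 * x1) * (q ^ 2 * y2 - q * y1) * (x2 - q ^ 2 * x1)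
      * (y1 - q ^ 2 * x1) * (y2 - q ^ 2 * x1) * P ^ 2 * G * (q - 1) * x2) * hq3

/-- generic points -/
def I1_gen (n : ℕ) (x2 : ℂ) (z : Fin (2 * n + 1) → ℂ) : Prop :=
  x2 ≠ 0 ∧ (∀ k, z k ≠ 0) ∧ (∀ k, x2 ^ 3 ≠ z k ^ 3) ∧ ∀ k l, k ≠ l → z k ^ 3 ≠ z l ^ 3

theorem I1_zero1 (H : List ℂ → List ℂ → ℂ) (hH : HSpec H) (n : ℕ) (hF : F3 q H n)
    (Ψ Ψ' : Pat (2 * n + 3) → MvPolynomial (Fin (2 * n + 3)) ℂ) (h : PsiSpec q (n + 1) Ψ)
    (h' : PsiSpec (q ^ 2) (n + 1) Ψ') (x2 y1 y2 : ℂ) (z : Fin (2 * n + 1) → ℂ)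
    (k : Fin (2 * n + 1)) :
    S2 n Ψ Ψ' (q * z k) x2 y1 y2 z * ∏ j, z j ^ 2
      = -((q * x2 - q ^ 2 * (q * z k)) * (q ^ 2 * y2 - q * y1))
        * g4 H (q * z k) x2 y1 y2 (List.ofFn z) := by
  set π : Perm (Fin (2 * n + 1)) := Equiv.swap k (Fin.last (2 * n)) with hπ
  have hl : (z ∘ π) (Fin.last (2 * n)) = z k := by
    simp [hπ]
  have hs : (Fin.snoc (Fin.init (z ∘ π)) (z k) : Fin (2 * n + 1) → ℂ) = z ∘ π := by
    rw [← hl]
    exact Fin.snoc_init_self (z ∘ π)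
  have e := I1_k1 q hq H hH n hF Ψ Ψ' h h' (z k) x2 y1 y2 (Fin.init (z ∘ π))
  rw [hs, S2_perm q hq n Ψ Ψ' h h'] at e
  have e2 : ∏ j, (z ∘ π) j ^ 2 = ∏ j, z j ^ 2 := Equiv.prod_comp π (fun j => z j ^ 2)
  rw [e2, I1_g4_perm H hH _ _ _ _ (π.ofFn_comp_perm z)] at e
  exact e

theorem I1_zero2 (H : List ℂ → List ℂ → ℂ) (hH : HSpec H) (n : ℕ) (hF : F3 q H n)
    (Ψ Ψ' : Pat (2 * n + 3) → MvPolynomial (Fin (2 * n + 3)) ℂ) (h : PsiSpec q (n + 1) Ψ)
    (h' : PsiSpec (q ^ 2) (n + 1) Ψ') (x1 x2 y1 y2 : ℂ) (z : Fin (2 * n + 1) → ℂ)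
    (k : Fin (2 * n + 1)) (hk : z k = q * x1) (hx : q * x1 - q ^ 2 * x2 ≠ 0) :
    S2 n Ψ Ψ' x1 x2 y1 y2 z * ∏ j, z j ^ 2
      = -((q * x2 - q ^ 2 * x1) * (q ^ 2 * y2 - q * y1))
        * g4 H x1 x2 y1 y2 (List.ofFn z) := by
  apply mul_left_cancel₀ hx
  set π : Perm (Fin (2 * n + 1)) := Equiv.swap k 0 with hπ
  have hl : (z ∘ π) 0 = q * x1 := by
    simp [hπ, hk]
  have hs : (Fin.cons (q * x1) (Fin.tail (z ∘ π)) : Fin (2 * n + 1) → ℂ) = z ∘ π := by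
    rw [← hl]
    exact Fin.cons_self_tail (z ∘ π)
  have e := I1_k2 q hq H hH n hF Ψ Ψ' h h' x1 x2 y1 y2 (Fin.tail (z ∘ π))
  rw [hs, S2_perm q hq n Ψ Ψ' h h'] at e
  have e2 : ∏ j, (z ∘ π) j ^ 2 = ∏ j, z j ^ 2 := Equiv.prod_comp π (fun j => z j ^ 2)
  rw [e2, I1_g4_perm H hH _ _ _ _ (π.ofFn_comp_perm z)] at e
  exact e

theorem I1_generic (H : List ℂ → List ℂ → ℂ) (hH : HSpec H) (n : ℕ) (hF : F3 q H n)
    (Ψ Ψ' : Pat (2 * n + 3) → MvPolynomial (Fin (2 * n + 3)) ℂ) (h : PsiSpec q (n + 1) Ψ)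
    (h' : PsiSpec (q ^ 2) (n + 1) Ψ') (x1 x2 y1 y2 : ℂ) (z : Fin (2 * n + 1) → ℂ)
    (hg : I1_gen n x2 z) :
    S2 n Ψ Ψ' x1 x2 y1 y2 z * ∏ j, z j ^ 2
      = -((q * x2 - q ^ 2 * x1) * (q ^ 2 * y2 - q * y1))
        * g4 H x1 x2 y1 y2 (List.ofFn z) := by
  obtain ⟨hx2, hz, hxz, hzz⟩ := hg
  have hq3 := I1_q3 q hq
  have hq0 := I1_ne_zero q hq
  have hq1 := I1_ne_one q hq
  obtain ⟨PS, hPSd, hPS⟩ := S2_deg q n Ψ Ψ' h x2 y1 y2 z
  obtain ⟨PG, hPGd, hPG⟩ := hH.deg (x2 :: y1 :: y2 :: (List.ofFn z ++ List.ofFn z))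
    ((List.ofFn z).map (fun u => u ^ 3)) (by simp; omega)
  have hPGd' : PG.natDegree ≤ 2 * n + 1 := by simpa using hPGd
  set D : Polynomial ℂ := PS * Polynomial.C (∏ j, z j ^ 2)
    + (Polynomial.C (-(q ^ 2 * (q ^ 2 * y2 - q * y1))) * Polynomial.X
      + Polynomial.C (q * x2 * (q ^ 2 * y2 - q * y1))) * PG with hD
  have hev : ∀ x, D.eval x = S2 n Ψ Ψ' x x2 y1 y2 z * ∏ j, z j ^ 2
      - -((q * x2 - q ^ 2 * x) * (q ^ 2 * y2 - q * y1)) * g4 H x x2 y1 y2 (List.ofFn z) := by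
    intro x
    simp only [hD, Polynomial.eval_add, Polynomial.eval_mul, Polynomial.eval_C,
      Polynomial.eval_X, hPS, hPG, g4]
    ring
  have hdeg : D.natDegree ≤ 2 * n + 2 := by
    refine Polynomial.natDegree_add_le_of_degree_le ?_ ?_
    · refine (Polynomial.natDegree_mul_le).trans ?_
      rw [Polynomial.natDegree_C]
      omega
    · refine (Polynomial.natDegree_mul_le).trans ?_
      have := Polynomial.natDegree_linear_le
        (a := -(q ^ 2 * (q ^ 2 * y2 - q * y1))) (b := q * x2 * (q ^ 2 * y2 - q * y1))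
      omega
  have hD0 : D = 0 := by
    set f : Unit ⊕ (Fin (2 * n + 1) ⊕ Fin (2 * n + 1)) → ℂ :=
      Sum.elim (fun _ => q ^ 2 * x2) (Sum.elim (fun k => q * z k) (fun k => q ^ 2 * z k)) with hf
    refine Polynomial.eq_zero_of_natDegree_lt_card_of_eval_eq_zero D (f := f) ?_ ?_ ?_
    · refine Function.Injective.sumElim (Function.injective_of_subsingleton _)
        (Function.Injective.sumElim ?_ ?_ ?_) ?_
      · intro k l hkl
        by_contra hne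
        have h1 : z k = z l := mul_left_cancel₀ hq0 hkl
        exact hzz k l hne (by rw [h1])
      · intro k l hkl
        by_contra hne
        have h1 : z k = z l := mul_left_cancel₀ (pow_ne_zero 2 hq0) hkl
        exact hzz k l hne (by rw [h1])
      · intro k l hkl
        by_cases hne : k = l
        · subst hne
          have h1 : q * z k * (q - 1) = 0 := by linear_combination -hkl
          rcases mul_eq_zero.1 h1 with h2 | h2
          · exact (mul_ne_zero hq0 (hz k)) h2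
          · exact hq1 (by linear_combination h2)
        · apply hzz k l hne
          have h1 : (q * z k) ^ 3 = (q ^ 2 * z l) ^ 3 := by rw [hkl]
          linear_combination h1 + (-z k ^ 3 + (q ^ 3 + 1) * z l ^ 3) * hq3
      · intro _ b
        rcases b with k | k
        · intro hkl
          simp only [Sum.elim_inl] at hkl
          apply hxz k
          have h1 : (q ^ 2 * x2) ^ 3 = (q * z k) ^ 3 := by rw [hkl]
          linear_combination h1 + (-(q ^ 3 + 1) * x2 ^ 3 + z k ^ 3) * hq3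
        · intro hkl
          simp only [Sum.elim_inr] at hkl
          apply hxz k
          have h1 : x2 = z k := mul_left_cancel₀ (pow_ne_zero 2 hq0) hkl
          rw [h1]
    · rintro (u | k | k)
      · simp only [hf, Sum.elim_inl]
        rw [hev]
        have hsw := S2_swapx q hq n Ψ Ψ' h (q ^ 2 * x2) x2 y1 y2 z
        have h1 : (1 - q ^ 2) * x2 * S2 n Ψ Ψ' (q ^ 2 * x2) x2 y1 y2 z = 0 := by
          linear_combination hsw - (x2 * S2 n Ψ Ψ' (q ^ 2 * x2) x2 y1 y2 z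
            + q * x2 * S2 n Ψ Ψ' x2 (q ^ 2 * x2) y1 y2 z) * hq3
        have h2 : (1 - q ^ 2) ≠ 0 := by
          intro h3
          apply hq1
          have h4 : q ^ 2 = 1 := by linear_combination -h3
          calc q = q ^ 2 * q := by rw [h4, one_mul]
            _ = q ^ 3 := by ring
            _ = 1 := hq3
        have h3 : S2 n Ψ Ψ' (q ^ 2 * x2) x2 y1 y2 z = 0 := by
          rcases mul_eq_zero.1 h1 with h5 | h5
          · exact absurd h5 (mul_ne_zero h2 hx2)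
          · exact h5
        rw [h3]
        linear_combination (-q * x2 * (q ^ 2 * y2 - q * y1)
          * g4 H (q ^ 2 * x2) x2 y1 y2 (List.ofFn z)) * hq3
      · simp only [hf, Sum.elim_inl, Sum.elim_inr]
        rw [hev, I1_zero1 q hq H hH n hF Ψ Ψ' h h' x2 y1 y2 z k]
        ring
      · simp only [hf, Sum.elim_inr]
        have hk : z k = q * (q ^ 2 * z k) := by linear_combination (-z k) * hq3
        have hx : q * (q ^ 2 * z k) - q ^ 2 * x2 ≠ 0 := by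
          intro h1
          apply hxz k
          have h2 : z k = q ^ 2 * x2 := by linear_combination h1 - z k * hq3
          rw [h2]
          linear_combination (-(q ^ 3 + 1) * x2 ^ 3) * hq3
        rw [hev, I1_zero2 q hq H hH n hF Ψ Ψ' h h' _ x2 y1 y2 z k hk hx]
        ring
    · simp only [Fintype.card_sum, Fintype.card_unit, Fintype.card_fin]
      omega
  have := hev x1
  rw [hD0, Polynomial.eval_zero] at this
  linear_combination -this

theorem F2_of_F3 (H : List ℂ → List ℂ → ℂ) (hH : HSpec H) (n : ℕ) (h : F3 q H n) :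
    F2 q H n := by
  intro Ψ Ψ' hΨ hΨ' x1 x2 y1 y2 z
  set D : MvPolynomial (Fin (2 * n + 2)) ℂ := (∏ i, X i)
    * ∏ p : Fin (2 * n + 2) × Fin (2 * n + 2), (if p.1 = p.2 then 1 else X p.1 ^ 3 - X p.2 ^ 3)
    with hDdef
  have hD : D ≠ 0 := by
    refine mul_ne_zero (Finset.prod_ne_zero_iff.2 fun i _ => X_ne_zero i)
      (Finset.prod_ne_zero_iff.2 fun p _ => ?_)
    split_ifs with hp
    · exact one_ne_zero
    · intro h0
      have h1 := congrArg (eval (fun i => if i = p.1 then (1 : ℂ) else 0)) h0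
      simp [Ne.symm hp] at h1
  set f : (Fin (2 * n + 2) → ℂ) → ℂ := fun w =>
    S2 n Ψ Ψ' x1 (w 0) y1 y2 (Fin.tail w) * ∏ k, (Fin.tail w) k ^ 2 with hf
  set g : (Fin (2 * n + 2) → ℂ) → ℂ := fun w =>
    -((q * (w 0) - q ^ 2 * x1) * (q ^ 2 * y2 - q * y1))
      * g4 H x1 (w 0) y1 y2 (List.ofFn (Fin.tail w)) with hg
  have htail : Continuous (fun w : Fin (2 * n + 2) → ℂ => (Fin.tail w : Fin (2 * n + 1) → ℂ)) :=
    continuous_pi (fun i => continuous_apply _)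
  have hvec : Continuous (fun w : Fin (2 * n + 2) → ℂ =>
      (((![x1, w 0, y1, y2] : Fin 4 → ℂ), (Fin.tail w : Fin (2 * n + 1) → ℂ)) :
        (Fin 4 → ℂ) × (Fin (2 * n + 1) → ℂ))) := by
    refine Continuous.prodMk (continuous_pi (fun i => ?_)) htail
    fin_cases i
    · exact continuous_const
    · exact continuous_apply _
    · exact continuous_const
    · exact continuous_const
  have hfc : Continuous f :=
    ((S2_cont n Ψ Ψ').comp hvec).mul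
      (continuous_finsetProd _ (fun k _ => ((continuous_apply k).comp htail).pow 2))
  have hgc : Continuous g :=
    (((continuous_const.mul (continuous_apply _)).sub continuous_const).mul
      continuous_const).neg.mul ((I1_g4_cont H hH (2 * n + 1)).comp hvec)
  have key : f = g := by
    refine dense_agree D hD f g hfc hgc (fun w hw => ?_)
    rw [hDdef, map_mul, map_prod, map_prod] at hw
    obtain ⟨hw1, hw2⟩ := mul_ne_zero_iff.1 hw
    rw [Finset.prod_ne_zero_iff] at hw1 hw2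
    have hw1' : ∀ i, w i ≠ 0 := fun i => by simpa using hw1 i (Finset.mem_univ i)
    have hw2' : ∀ i j, i ≠ j → w i ^ 3 ≠ w j ^ 3 := by
      intro i j hij
      have := hw2 (i, j) (Finset.mem_univ _)
      simp only [hij, if_false, map_sub, map_pow, eval_X] at this
      exact sub_ne_zero.1 this
    refine I1_generic q hq H hH n h Ψ Ψ' hΨ hΨ' x1 (w 0) y1 y2 (Fin.tail w)
      ⟨hw1' 0, fun k => hw1' _, fun k => hw2' _ _ (Fin.succ_ne_zero k).symm,
        fun k l hkl => hw2' _ _ (fun h0 => hkl (Fin.succ_injective _ h0))⟩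
  have := congrFun key (Fin.cons x2 z)
  simpa only [hf, hg, Fin.cons_zero, Fin.tail_cons] using this

end forms

end Pool.Agent.H988R3
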