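import Pool.Agent.H988R3.Defs4

/-! Definitions of the two alternating sums in the value at 1 (tasks V1, V2, V3). -/

namespace Pool.Agent.H988R3

/-- `∏_{m ≤ M} (e-3m-1)(e-3m-2)` -/
def PB (M : ℕ) (e : ℤ) : ℤ := ∏ m ∈ Finset.range (M + 1), (e - 3 * m - 1) * (e - 3 * m - 2)
/-- first alternating sum -/
def s0 (M : ℕ) : ℤ := ∑ j ∈ Finset.range (M + 1), (-1) ^ (M - j) * (M.choose j : ℤ) * PB M (3 * (j : ℤ))
/-- second alternating sum -/
def s1 (M : ℕ) : ℤ := ∑ j ∈ Finset.range (M + 1),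
  (-1) ^ (M - j) * (M.choose j : ℤ) * ((M : ℤ) + 1 - 2 * (j : ℤ)) * PB M (3 * (j : ℤ))

end Pool.Agent.H988R3
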