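import Pool.Agent.H988R3.Defs4

/-!
# Four-arm formula on the odd cylinder: all statements (with `sorry`).
DO NOT import this file in final proofs.
-/

namespace Pool.Agent.H988R3
open Equiv MvPolynomial Pool.Agent.H974R3

/-! ## task K1 (file P4Base.lean) -/

theorem exists_alt {V : Type*} [Fintype V] (s t : Perm V) (hs : ∀ v, s (s v) = v)
    (hsf : ∀ v, s v ≠ v) (ht : ∀ v, t (t v) = v) (htf : ∀ v, t v ≠ v) :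
    ∃ h : V → Bool, Alt s t h := sorry
theorem pr4_E {m : ℕ} (i : ℕ) (a b : Fin (m + 1)) (h1 : ix m i ≠ a) (h2 : ix m (i + 1) ≠ a)
    (h3 : ix m i ≠ b) (h4 : ix m (i + 1) ≠ b) (σ τ : Pat (m + 1)) :
    pr4 a b (E m i σ) τ = pr4 a b σ (E m i τ) := sorry
theorem pr4_E_left {m : ℕ} (hm : 1 ≤ m) (i : ℕ) (σ τ : Pat (m + 1)) :
    pr4 (ix m i) (ix m (i + 1)) (E m i σ) τ = 0 := sorry
theorem pr4_E_right {m : ℕ} (hm : 1 ≤ m) (i : ℕ) (σ τ : Pat (m + 1)) :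
    pr4 (ix m i) (ix m (i + 1)) σ (E m i τ) = 0 := sorry
theorem pr4_ins_E0 {m : ℕ} (σ : Pat (m + 1)) (τ : Pat (m + 3)) :
    pr4 1 2 (ins σ) (E (m + 2) 0 τ) = 0 := sorry
theorem pr4_rot {m : ℕ} (a b : Fin (m + 1)) (σ τ : Pat (m + 1)) :
    pr4 (finRotate (m + 1) a) (finRotate (m + 1) b) (rot m σ) (rot m τ) = pr4 a b σ τ := sorry

/-! ## task K2 (file P4Tri.lean, may import P4Base) -/

theorem pr4_tri {m : ℕ} (σ : Pat (m + 1)) (τ : Pat (m + 3)) :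
    pr4 0 1 (rot (m + 2) (ins (rotInv m σ))) τ = pr4 1 2 (ins σ) τ := sorry

/-! ## task K3 (file P4Zig.lean, may import P4Base, P4Tri) -/

theorem pr4_zig1 {m : ℕ} (σ τ : Pat (m + 2)) :
    pr4 2 3 (rot (m + 3) (ins (rotInv (m + 1) σ))) (ins τ) = pr4 0 1 σ τ := sorry
theorem pr4_zig2 {m : ℕ} (σ τ : Pat (m + 2)) :
    pr4 0 1 (rot (m + 3) (ins (rotInv (m + 1) σ)))
      (rot (m + 3) (rot (m + 3) (ins (rotInv (m + 1) (rotInv (m + 1) τ))))) = pr4 0 1 σ τ := sorry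
theorem pr4_flip {m : ℕ} (σ τ : Pat (m + 2)) :
    pr4 1 2 (ins σ)
      (rot (m + 3) (rot (m + 3) (ins (rotInv (m + 1) (rotInv (m + 1) τ))))) = pr4 0 1 σ τ := sorry

/-! ## task Y1 (file Sym2.lean) -/

section forms
variable (q : ℂ) (hq : q ^ 2 + q + 1 = 0)
include hq

theorem S2_swapx (n : ℕ) (Ψ Ψ' : Pat (2 * n + 3) → MvPolynomial (Fin (2 * n + 3)) ℂ)
    (h : PsiSpec q (n + 1) Ψ) (x1 x2 y1 y2 : ℂ) (z : Fin (2 * n + 1) → ℂ) :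
    (q * x1 - q ^ 2 * x2) * S2 n Ψ Ψ' x1 x2 y1 y2 z
      = (q * x2 - q ^ 2 * x1) * S2 n Ψ Ψ' x2 x1 y1 y2 z := sorry
theorem S2_swapy (n : ℕ) (Ψ Ψ' : Pat (2 * n + 3) → MvPolynomial (Fin (2 * n + 3)) ℂ)
    (h' : PsiSpec (q ^ 2) (n + 1) Ψ') (x1 x2 y1 y2 : ℂ) (z : Fin (2 * n + 1) → ℂ) :
    (q ^ 2 * y1 - q * y2) * S2 n Ψ Ψ' x1 x2 y1 y2 z
      = (q ^ 2 * y2 - q * y1) * S2 n Ψ Ψ' x1 x2 y2 y1 z := sorry
theorem S2_perm (n : ℕ) (Ψ Ψ' : Pat (2 * n + 3) → MvPolynomial (Fin (2 * n + 3)) ℂ)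
    (h : PsiSpec q (n + 1) Ψ) (h' : PsiSpec (q ^ 2) (n + 1) Ψ') (x1 x2 y1 y2 : ℂ)
    (z : Fin (2 * n + 1) → ℂ) (π : Perm (Fin (2 * n + 1))) :
    S2 n Ψ Ψ' x1 x2 y1 y2 (z ∘ π) = S2 n Ψ Ψ' x1 x2 y1 y2 z := sorry

/-! ## task Y2 (file Sym3.lean) -/

theorem S3_swap12 (n : ℕ) (Ψ : Pat (2 * n + 1) → MvPolynomial (Fin (2 * n + 1)) ℂ)
    (Ψ' : Pat (2 * n + 3) → MvPolynomial (Fin (2 * n + 3)) ℂ)
    (h' : PsiSpec (q ^ 2) (n + 1) Ψ') (x y1 y2 y3 : ℂ) (z : Fin (2 * n) → ℂ) :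
    (q ^ 2 * y1 - q * y2) * S3 n Ψ Ψ' x y1 y2 y3 z
      = (q ^ 2 * y2 - q * y1) * S3 n Ψ Ψ' x y2 y1 y3 z := sorry
theorem S3_swap23 (n : ℕ) (Ψ : Pat (2 * n + 1) → MvPolynomial (Fin (2 * n + 1)) ℂ)
    (Ψ' : Pat (2 * n + 3) → MvPolynomial (Fin (2 * n + 3)) ℂ)
    (h' : PsiSpec (q ^ 2) (n + 1) Ψ') (x y1 y2 y3 : ℂ) (z : Fin (2 * n) → ℂ) :
    (q ^ 2 * y2 - q * y3) * S3 n Ψ Ψ' x y1 y2 y3 z
      = (q ^ 2 * y3 - q * y2) * S3 n Ψ Ψ' x y1 y3 y2 z := sorry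
theorem S3_perm (n : ℕ) (Ψ : Pat (2 * n + 1) → MvPolynomial (Fin (2 * n + 1)) ℂ)
    (Ψ' : Pat (2 * n + 3) → MvPolynomial (Fin (2 * n + 3)) ℂ) (h : PsiSpec q n Ψ)
    (h' : PsiSpec (q ^ 2) (n + 1) Ψ') (x y1 y2 y3 : ℂ) (z : Fin (2 * n) → ℂ)
    (π : Perm (Fin (2 * n))) :
    S3 n Ψ Ψ' x y1 y2 y3 (z ∘ π) = S3 n Ψ Ψ' x y1 y2 y3 z := sorry

/-! ## task Y3 (file Deg4.lean) -/

omit hq in
theorem S2_deg (n : ℕ) (Ψ Ψ' : Pat (2 * n + 3) → MvPolynomial (Fin (2 * n + 3)) ℂ)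
    (h : PsiSpec q (n + 1) Ψ) (x2 y1 y2 : ℂ) (z : Fin (2 * n + 1) → ℂ) :
    ∃ P : Polynomial ℂ, P.natDegree ≤ 2 * n + 2 ∧ ∀ x, P.eval x = S2 n Ψ Ψ' x x2 y1 y2 z := sorry
omit hq in
theorem S3_deg (n : ℕ) (Ψ : Pat (2 * n + 1) → MvPolynomial (Fin (2 * n + 1)) ℂ)
    (Ψ' : Pat (2 * n + 3) → MvPolynomial (Fin (2 * n + 3)) ℂ)
    (h' : PsiSpec (q ^ 2) (n + 1) Ψ') (x y1 y2 : ℂ) (z : Fin (2 * n) → ℂ) :
    ∃ P : Polynomial ℂ, P.natDegree ≤ 2 * n + 2 ∧ ∀ y, P.eval y = S3 n Ψ Ψ' x y1 y2 y z := sorry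
omit hq in
theorem S2_cont (n : ℕ) (Ψ Ψ' : Pat (2 * n + 3) → MvPolynomial (Fin (2 * n + 3)) ℂ) :
    Continuous (fun p : (Fin 4 → ℂ) × (Fin (2 * n + 1) → ℂ) =>
      S2 n Ψ Ψ' (p.1 0) (p.1 1) (p.1 2) (p.1 3) p.2) := sorry
omit hq in
theorem S3_cont (n : ℕ) (Ψ : Pat (2 * n + 1) → MvPolynomial (Fin (2 * n + 1)) ℂ)
    (Ψ' : Pat (2 * n + 3) → MvPolynomial (Fin (2 * n + 3)) ℂ) :
    Continuous (fun p : (Fin 4 → ℂ) × (Fin (2 * n) → ℂ) =>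
      S3 n Ψ Ψ' (p.1 0) (p.1 1) (p.1 2) (p.1 3) p.2) := sorry

/-! ## task R1 (file Rec2.lean, imports P4Base, P4Tri, H974R3.Rec) -/

theorem S2_rec1 (n : ℕ) (Ψ0 : Pat (2 * n + 1) → MvPolynomial (Fin (2 * n + 1)) ℂ)
    (Ψ Ψ' : Pat (2 * n + 3) → MvPolynomial (Fin (2 * n + 3)) ℂ) (h0 : PsiSpec q n Ψ0)
    (h : PsiSpec q (n + 1) Ψ) (h' : PsiSpec (q ^ 2) (n + 1) Ψ') (t x2 y1 y2 : ℂ)
    (z : Fin (2 * n) → ℂ) :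
    S2 n Ψ Ψ' (q * t) x2 y1 y2 (Fin.snoc z t : Fin (2 * n + 1) → ℂ)
      = Fac4 q t (Fin.cons x2 z : Fin (2 * n + 1) → ℂ) * S3 n Ψ0 Ψ' x2 t y1 y2 z := sorry
theorem S2_rec2 (n : ℕ) (Ψ0 : Pat (2 * n + 1) → MvPolynomial (Fin (2 * n + 1)) ℂ)
    (Ψ Ψ' : Pat (2 * n + 3) → MvPolynomial (Fin (2 * n + 3)) ℂ) (h0 : PsiSpec q n Ψ0)
    (h : PsiSpec q (n + 1) Ψ) (h' : PsiSpec (q ^ 2) (n + 1) Ψ') (x1 x2 y1 y2 : ℂ)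
    (z : Fin (2 * n) → ℂ) :
    S2 n Ψ Ψ' x1 x2 y1 y2 (Fin.cons (q * x2) z : Fin (2 * n + 1) → ℂ)
      = Fac4 q x2 (Fin.cons x1 z : Fin (2 * n + 1) → ℂ) * S3 n Ψ0 Ψ' x1 y1 y2 (q * x2) z := sorry

/-! ## task R2 (file Rec3.lean, imports P4Base, P4Zig, H974R3.Rec) -/

theorem S3_rec1 (n : ℕ) (Ψ Ψ' : Pat (2 * n + 3) → MvPolynomial (Fin (2 * n + 3)) ℂ)
    (Ψ2 : Pat (2 * n + 5) → MvPolynomial (Fin (2 * n + 5)) ℂ) (h : PsiSpec q (n + 1) Ψ)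
    (h' : PsiSpec (q ^ 2) (n + 1) Ψ') (h2 : PsiSpec (q ^ 2) (n + 2) Ψ2) (x y1 y2 y3 : ℂ)
    (z : Fin (2 * n + 1) → ℂ) :
    S3 (n + 1) Ψ Ψ2 x y1 y2 y3 (Fin.cons (q ^ 2 * y3) z : Fin (2 * n + 2) → ℂ)
      = Fac4 (q ^ 2) y3 (Fin.cons y1 (Fin.cons y2 z : Fin (2 * n + 2) → ℂ) : Fin (2 * n + 3) → ℂ)
        * S2 n Ψ Ψ' x (q ^ 2 * y3) y1 y2 z := sorry
theorem S3_rec2 (n : ℕ) (Ψ Ψ' : Pat (2 * n + 3) → MvPolynomial (Fin (2 * n + 3)) ℂ)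
    (Ψ2 : Pat (2 * n + 5) → MvPolynomial (Fin (2 * n + 5)) ℂ) (h : PsiSpec q (n + 1) Ψ)
    (h' : PsiSpec (q ^ 2) (n + 1) Ψ') (h2 : PsiSpec (q ^ 2) (n + 2) Ψ2) (x t y2 y3 : ℂ)
    (z : Fin (2 * n + 1) → ℂ) :
    S3 (n + 1) Ψ Ψ2 x (q ^ 2 * t) y2 y3 (Fin.snoc z t : Fin (2 * n + 2) → ℂ)
      = Fac4 (q ^ 2) t (Fin.cons y2 (Fin.cons y3 z : Fin (2 * n + 2) → ℂ) : Fin (2 * n + 3) → ℂ)
        * S2 n Ψ Ψ' t x y2 y3 z := sorry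

/-! ## task R3 (file Base3.lean) -/

theorem S3_base (Ψ : Pat 1 → MvPolynomial (Fin 1) ℂ) (Ψ' : Pat 3 → MvPolynomial (Fin 3) ℂ)
    (h : PsiSpec q 0 Ψ) (h' : PsiSpec (q ^ 2) 1 Ψ') (x y1 y2 y3 : ℂ) (z : Fin 0 → ℂ) :
    S3 0 Ψ Ψ' x y1 y2 y3 z
      = (q ^ 2 * y2 - q * y1) * (q ^ 2 * y3 - q * y2) * (q ^ 2 * y3 - q * y1) := sorry

/-! ## task I1 (file Int2.lean): interpolation, from S3 to S2 -/

/-- the closed formula for `S2` at level `n` -/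
def F2 (H : List ℂ → List ℂ → ℂ) (n : ℕ) : Prop :=
  ∀ (Ψ Ψ' : Pat (2 * n + 3) → MvPolynomial (Fin (2 * n + 3)) ℂ), PsiSpec q (n + 1) Ψ →
    PsiSpec (q ^ 2) (n + 1) Ψ' → ∀ (x1 x2 y1 y2 : ℂ) (z : Fin (2 * n + 1) → ℂ),
    S2 n Ψ Ψ' x1 x2 y1 y2 z * ∏ k, z k ^ 2
      = -((q * x2 - q ^ 2 * x1) * (q ^ 2 * y2 - q * y1)) * g4 H x1 x2 y1 y2 (List.ofFn z)

/-- the closed formula for `S3` at level `n` -/
def F3 (H : List ℂ → List ℂ → ℂ) (n : ℕ) : Prop :=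
  ∀ (Ψ : Pat (2 * n + 1) → MvPolynomial (Fin (2 * n + 1)) ℂ)
    (Ψ' : Pat (2 * n + 3) → MvPolynomial (Fin (2 * n + 3)) ℂ), PsiSpec q n Ψ →
    PsiSpec (q ^ 2) (n + 1) Ψ' → ∀ (x y1 y2 y3 : ℂ) (z : Fin (2 * n) → ℂ),
    S3 n Ψ Ψ' x y1 y2 y3 z * ∏ k, z k ^ 2
      = ((q ^ 2 * y2 - q * y1) * (q ^ 2 * y3 - q * y2) * (q ^ 2 * y3 - q * y1))
        * g4 H x y1 y2 y3 (List.ofFn z)

theorem F2_of_F3 (H : List ℂ → List ℂ → ℂ) (hH : HSpec H) (n : ℕ) (h : F3 q H n) :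
    F2 q H n := sorry

/-! ## task I2 (file Int3.lean): interpolation, from S2 to S3, and the conclusion -/

theorem F3_zero (H : List ℂ → List ℂ → ℂ) (hH : HSpec H) : F3 q H 0 := sorry
theorem F3_of_F2 (H : List ℂ → List ℂ → ℂ) (hH : HSpec H) (n : ℕ) (h : F2 q H n) :
    F3 q H (n + 1) := sorry
theorem F2_all (H : List ℂ → List ℂ → ℂ) (hH : HSpec H) (n : ℕ) : F2 q H n := sorry

end forms

/-! ## tasks H1, H2, H3 (files HDef.lean, HDeg.lean, HRec.lean) : the four-leg function -/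

/-- generic bialternant formula -/
theorem HH_bialt (N M : ℕ) (v : Fin N → ℂ) (w s : Fin M → ℂ) (hs : ∀ j, s j ^ 3 = w j) :
    Matrix.det (Matrix.of fun r e : Fin (N + M) =>
        if h : r.val < N then v ⟨r.val, h⟩ ^ e.val
        else if e.val % 3 = 0 then s ⟨r.val - N, by omega⟩ ^ e.val else 0)
      = (Matrix.vandermonde v).det * (Matrix.vandermonde w).det
        * HH (List.ofFn v) (List.ofFn w) := sorry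
theorem HH_permv (v v' w : List ℂ) (h : v.Perm v') : HH v w = HH v' w := sorry
theorem HH_permw (v w w' : List ℂ) (h : w.Perm w') : HH v w = HH v w' := sorry
theorem HH_nil (a b c d : ℂ) : HH [a, b, c, d] [] = 1 := sorry
theorem HH_cont (N M : ℕ) : Continuous (fun p : (Fin N → ℂ) × (Fin M → ℂ) =>
    HH (List.ofFn p.1) (List.ofFn p.2)) := sorry
theorem HH_deg (v w : List ℂ) (h : v.length = 2 * w.length + 3) :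
    ∃ P : Polynomial ℂ, P.natDegree ≤ w.length ∧ ∀ x, P.eval x = HH (x :: v) w := sorry
theorem HH_recur (q : ℂ) (hq : q ^ 2 + q + 1 = 0) (t : ℂ) (v w : List ℂ)
    (hl : v.length = 2 * w.length + 4) :
    HH (q ^ 2 * t :: t :: v) (t ^ 3 :: w)
      = q ^ 2 * t ^ 2 * (v.map (fun u => u - q * t)).prod * HH v w := sorry

/-! ## task V1 (file Ones.lean): the value at 1 -/

/-- `∏_{m ≤ M} (e-3m-1)(e-3m-2)` -/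
def PB (M : ℕ) (e : ℤ) : ℤ := ∏ m ∈ Finset.range (M + 1), (e - 3 * m - 1) * (e - 3 * m - 2)
/-- first alternating sum -/
def s0 (M : ℕ) : ℤ := ∑ j ∈ Finset.range (M + 1), (-1) ^ (M - j) * (M.choose j : ℤ) * PB M (3 * (j : ℤ))
/-- second alternating sum -/
def s1 (M : ℕ) : ℤ := ∑ j ∈ Finset.range (M + 1),
  (-1) ^ (M - j) * (M.choose j : ℤ) * ((M : ℤ) + 1 - 2 * (j : ℤ)) * PB M (3 * (j : ℤ))

theorem HH_ones (M : ℕ) :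
    ‖HH (List.replicate (2 * M + 4) 1) (List.replicate M 1)‖
      = 3 * Dval 1 (2 * M + 2) * |(s0 M : ℝ)| * |(s1 M : ℝ)|
        / ((2 * M + 2).factorial * (2 * M + 3).factorial) := sorry

/-! ## task V2 (file Sums.lean): closed forms of the two sums -/

theorem s0_odd (k : ℕ) : s0 (2 * k + 1)
    = -36 * ∏ i ∈ Finset.range k, 36 * (2 * ((i : ℤ) + 1) + 1) ^ 2 * (3 * ((i : ℤ) + 1) + 1)
        * (3 * ((i : ℤ) + 1) + 2) := sorry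
theorem s1_odd (k : ℕ) : ((k : ℤ) + 2) * s1 (2 * k + 1)
    = -160 * ∏ i ∈ Finset.range k, 36 * (2 * ((i : ℤ) + 1) + 1) ^ 2 * (3 * ((i : ℤ) + 1) + 4)
        * (3 * ((i : ℤ) + 1) + 5) := sorry

/-! ## task V3 (file Val4.lean, imports Ones, Sums) -/

theorem HH_p4val (n : ℕ) :
    3 * ‖HH (List.replicate (4 * n + 6) 1) (List.replicate (2 * n + 1) 1)‖
      / (3 ^ (n + 1) * (Dval 1 (2 * n + 3) * Dval 2 (2 * n + 3)) ^ 2) = p4val (n + 1) := sorry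

/-! ## task V4 (file Asym.lean) -/

theorem pval_bounds : ∃ c C : ℝ, 0 < c ∧ ∀ n : ℕ,
    c * (2 * (n : ℝ) + 1) ^ (-(1 / 4) : ℝ) ≤ pval n ∧
      pval n ≤ C * (2 * (n : ℝ) + 1) ^ (-(1 / 4) : ℝ) := sorry
theorem p4val_bounds : ∃ c C : ℝ, 0 < c ∧ ∀ n : ℕ, 1 ≤ n →
    c * (2 * (n : ℝ) + 1) ^ (-(5 / 4) : ℝ) ≤ p4val n ∧
      p4val n ≤ C * (2 * (n : ℝ) + 1) ^ (-(5 / 4) : ℝ) := sorry

/-! ## task M (file Homog4.lean): the homogeneous four-arm formula -/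

theorem pairing4_value (n : ℕ) (hn : 1 ≤ n) (μ : Pat (2 * n + 1) → ℝ) (hμ : ∑ σ, μ σ = 1)
    (hst : ∀ σ, ∑ c : Fin (2 * n + 1) → Bool, push (Tc (2 * n) c) μ σ
      = 2 ^ (2 * n + 1) * μ σ) :
    (∑ σ, ∑ τ, (pr4 (ix (2 * n) 0) (ix (2 * n) 1) σ τ).re * μ σ * μ τ : ℝ) = p4val n := sorry

end Pool.Agent.H988R3
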