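import Pool.Agent.H988R3.Defs4
import Pool.Agent.H988R3.P4Base
import Pool.Agent.H974R3.PairFormula

/-!
# Four-arm formula on the odd cylinder: symmetries of the form `S2` (task Y1)
-/

namespace Pool.Agent.H988R3
open Equiv MvPolynomial Pool.Agent.H974R3

theorem Y1_KK (n : ℕ) (Ψ Ψ' : Pat (2 * n + 3) → MvPolynomial (Fin (2 * n + 3)) ℂ)
    (x1 x2 y1 y2 : ℂ) (z : Fin (2 * n + 1) → ℂ) :
    S2 n Ψ Ψ' x1 x2 y1 y2 z = KK (fun σ τ : Pat (2 * n + 3) => pr4 0 1 σ τ)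
      (fun σ => eval (Fin.cons x1 (Fin.cons x2 z : Fin (2 * n + 2) → ℂ) : Fin (2 * n + 3) → ℂ)
        (Ψ σ))
      (fun τ => eval (Fin.cons y1 (Fin.cons y2 z : Fin (2 * n + 2) → ℂ) : Fin (2 * n + 3) → ℂ)
        (Ψ' τ)) := rfl

theorem Y1_ix0 (m : ℕ) : ix (m + 1) 0 = (0 : Fin (m + 2)) := rfl

theorem Y1_ix1 (m : ℕ) : ix (m + 1) (0 + 1) = (1 : Fin (m + 2)) := by
  ext; simp [ix]

/-- exchange relation at the first two arguments -/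
theorem Y1_exch0 {q : ℂ} {n : ℕ} {Ψ : Pat (2 * n + 3) → MvPolynomial (Fin (2 * n + 3)) ℂ}
    (h : PsiSpec q (n + 1) Ψ) (x1 x2 : ℂ) (z : Fin (2 * n + 1) → ℂ) (σ : Pat (2 * n + 3)) :
    (q * x1 - q ^ 2 * x2) * eval (Fin.cons x1 (Fin.cons x2 z : Fin (2 * n + 2) → ℂ) :
        Fin (2 * n + 3) → ℂ) (Ψ σ)
      + (x1 - x2) * push (E (2 * n + 2) 0) (fun τ => eval (Fin.cons x1 (Fin.cons x2 z :
        Fin (2 * n + 2) → ℂ) : Fin (2 * n + 3) → ℂ) (Ψ τ)) σ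
    = (q * x2 - q ^ 2 * x1) * eval (Fin.cons x2 (Fin.cons x1 z : Fin (2 * n + 2) → ℂ) :
        Fin (2 * n + 3) → ℂ) (Ψ σ) := by
  have := ev_exch h 0 (by omega)
    (Fin.cons x1 (Fin.cons x2 z : Fin (2 * n + 2) → ℂ) : Fin (2 * n + 3) → ℂ) σ
  have i0 : ix (2 * (n + 1)) 0 = (0 : Fin (2 * n + 3)) := rfl
  have i1 : ix (2 * (n + 1)) (0 + 1) = (1 : Fin (2 * n + 3)) := by
    ext; simp [ix]
  rw [i0, i1, cons_cons_swap] at this
  exact this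

section forms
variable (q : ℂ) (hq : q ^ 2 + q + 1 = 0)
include hq

omit hq in
theorem S2_swapx_aux (n : ℕ) (Ψ Ψ' : Pat (2 * n + 3) → MvPolynomial (Fin (2 * n + 3)) ℂ)
    (h : PsiSpec q (n + 1) Ψ) (x1 x2 y1 y2 : ℂ) (z : Fin (2 * n + 1) → ℂ) :
    (q * x1 - q ^ 2 * x2) * S2 n Ψ Ψ' x1 x2 y1 y2 z
      = (q * x2 - q ^ 2 * x1) * S2 n Ψ Ψ' x2 x1 y1 y2 z := by
  have e1 := funext fun σ : Pat (2 * n + 3) => Y1_exch0 h x1 x2 z σ
  have h0 : ∀ σ τ : Pat (2 * n + 3), pr4 0 1 (E (2 * n + 2) 0 σ) τ = 0 := fun σ τ => by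
    have := pr4_E_left (m := 2 * n + 2) (by omega) 0 σ τ
    rw [Y1_ix0, Y1_ix1] at this
    exact this
  have h1 : ∀ u w : Pat (2 * n + 3) → ℂ,
      KK (fun σ τ : Pat (2 * n + 3) => pr4 0 1 (E (2 * n + 2) 0 σ) τ) u w = 0 := by
    intro u w
    unfold KK
    refine Finset.sum_eq_zero fun σ _ => Finset.sum_eq_zero fun τ _ => ?_
    show pr4 0 1 (E (2 * n + 2) 0 σ) τ * _ * _ = 0
    rw [h0]; ring
  have e2 := KK_lin_left (fun σ τ : Pat (2 * n + 3) => pr4 0 1 σ τ) (q * x1 - q ^ 2 * x2)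
    (x1 - x2)
    (fun σ => eval (Fin.cons x1 (Fin.cons x2 z : Fin (2 * n + 2) → ℂ) : Fin (2 * n + 3) → ℂ)
        (Ψ σ))
    (push (E (2 * n + 2) 0) (fun τ => eval (Fin.cons x1 (Fin.cons x2 z :
        Fin (2 * n + 2) → ℂ) : Fin (2 * n + 3) → ℂ) (Ψ τ)))
    (fun τ => eval (Fin.cons y1 (Fin.cons y2 z : Fin (2 * n + 2) → ℂ) : Fin (2 * n + 3) → ℂ)
        (Ψ' τ))
  rw [KK_push_left, h1, mul_zero, add_zero, e1, KK_smul_left] at e2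
  rw [Y1_KK, Y1_KK]
  exact e2.symm

theorem S2_swapx (n : ℕ) (Ψ Ψ' : Pat (2 * n + 3) → MvPolynomial (Fin (2 * n + 3)) ℂ)
    (h : PsiSpec q (n + 1) Ψ) (x1 x2 y1 y2 : ℂ) (z : Fin (2 * n + 1) → ℂ) :
    (q * x1 - q ^ 2 * x2) * S2 n Ψ Ψ' x1 x2 y1 y2 z
      = (q * x2 - q ^ 2 * x1) * S2 n Ψ Ψ' x2 x1 y1 y2 z := by
  have _ := hq
  exact S2_swapx_aux q n Ψ Ψ' h x1 x2 y1 y2 z

theorem S2_swapy (n : ℕ) (Ψ Ψ' : Pat (2 * n + 3) → MvPolynomial (Fin (2 * n + 3)) ℂ)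
    (h' : PsiSpec (q ^ 2) (n + 1) Ψ') (x1 x2 y1 y2 : ℂ) (z : Fin (2 * n + 1) → ℂ) :
    (q ^ 2 * y1 - q * y2) * S2 n Ψ Ψ' x1 x2 y1 y2 z
      = (q ^ 2 * y2 - q * y1) * S2 n Ψ Ψ' x1 x2 y2 y1 z := by
  have hq3 : q ^ 3 = 1 := by linear_combination (q - 1) * hq
  have hq4 : (q ^ 2) ^ 2 = q := by linear_combination q * hq3
  have e1 := funext fun σ : Pat (2 * n + 3) => Y1_exch0 h' y1 y2 z σ
  rw [hq4] at e1
  have h0 : ∀ σ τ : Pat (2 * n + 3), pr4 0 1 σ (E (2 * n + 2) 0 τ) = 0 := fun σ τ => by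
    have := pr4_E_right (m := 2 * n + 2) (by omega) 0 σ τ
    rw [Y1_ix0, Y1_ix1] at this
    exact this
  have h1 : ∀ u w : Pat (2 * n + 3) → ℂ,
      KK (fun σ τ : Pat (2 * n + 3) => pr4 0 1 σ (E (2 * n + 2) 0 τ)) u w = 0 := by
    intro u w
    unfold KK
    refine Finset.sum_eq_zero fun σ _ => Finset.sum_eq_zero fun τ _ => ?_
    show pr4 0 1 σ (E (2 * n + 2) 0 τ) * _ * _ = 0
    rw [h0]; ring
  have e2 := KK_lin_right (fun σ τ : Pat (2 * n + 3) => pr4 0 1 σ τ) (q ^ 2 * y1 - q * y2)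
    (y1 - y2)
    (fun σ => eval (Fin.cons x1 (Fin.cons x2 z : Fin (2 * n + 2) → ℂ) : Fin (2 * n + 3) → ℂ)
        (Ψ σ))
    (fun τ => eval (Fin.cons y1 (Fin.cons y2 z : Fin (2 * n + 2) → ℂ) : Fin (2 * n + 3) → ℂ)
        (Ψ' τ))
    (push (E (2 * n + 2) 0) (fun τ => eval (Fin.cons y1 (Fin.cons y2 z :
        Fin (2 * n + 2) → ℂ) : Fin (2 * n + 3) → ℂ) (Ψ' τ)))
  rw [KK_push_right, h1, mul_zero, add_zero, e1, KK_smul_right] at e2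
  rw [Y1_KK, Y1_KK]
  exact e2.symm

theorem S2_adj (n : ℕ) (Ψ Ψ' : Pat (2 * n + 3) → MvPolynomial (Fin (2 * n + 3)) ℂ)
    (h : PsiSpec q (n + 1) Ψ) (h' : PsiSpec (q ^ 2) (n + 1) Ψ') (x1 x2 y1 y2 : ℂ)
    (z : Fin (2 * n + 1) → ℂ) (i : ℕ) (hi : i < 2 * n)
    (hz : z ⟨i, by omega⟩ ^ 3 ≠ z ⟨i + 1, by omega⟩ ^ 3) :
    S2 n Ψ Ψ' x1 x2 y1 y2 (z ∘ swap ⟨i, by omega⟩ ⟨i + 1, by omega⟩)
      = S2 n Ψ Ψ' x1 x2 y1 y2 z := by
  have j1 : ix (2 * (n + 1)) (i + 2) = (⟨i, by omega⟩ : Fin (2 * n + 1)).succ.succ := by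
    ext; simp [ix]; omega
  have j2 : ix (2 * (n + 1)) (i + 2 + 1) = (⟨i + 1, by omega⟩ : Fin (2 * n + 1)).succ.succ := by
    ext; simp [ix]; omega
  rw [Y1_KK, Y1_KK]
  apply KK_symm (fun σ τ : Pat (2 * n + 3) => pr4 0 1 σ τ) (E (2 * n + 2) (i + 2))
    (E (2 * n + 2) (i + 2)) ?_ (E_idem _ _) q hq (z ⟨i, by omega⟩) (z ⟨i + 1, by omega⟩) hz
  · intro σ
    have := ev_exch h (i + 2) (by omega)
      (Fin.cons x1 (Fin.cons x2 z : Fin (2 * n + 2) → ℂ) : Fin (2 * n + 3) → ℂ) σ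
    rw [j1, j2, cons_swap, cons_swap, Fin.cons_succ, Fin.cons_succ, Fin.cons_succ,
      Fin.cons_succ] at this
    exact this
  · intro τ
    have := ev_exch h' (i + 2) (by omega)
      (Fin.cons y1 (Fin.cons y2 z : Fin (2 * n + 2) → ℂ) : Fin (2 * n + 3) → ℂ) τ
    rw [j1, j2, cons_swap, cons_swap, Fin.cons_succ, Fin.cons_succ, Fin.cons_succ,
      Fin.cons_succ] at this
    exact this
  · intro σ τ
    have hs0 : ∀ j : Fin (2 * n + 1), (j.succ.succ : Fin (2 * n + 3)) ≠ 0 := fun j =>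
      Fin.succ_ne_zero _
    have hs1 : ∀ j : Fin (2 * n + 1), (j.succ.succ : Fin (2 * n + 3)) ≠ 1 := fun j hj => by
      have := congrArg Fin.val hj
      simp at this
    apply pr4_E (m := 2 * n + 2)
    · exact fun hh => hs0 _ (j1.symm.trans hh)
    · exact fun hh => hs0 _ (j2.symm.trans hh)
    · exact fun hh => hs1 _ (j1.symm.trans hh)
    · exact fun hh => hs1 _ (j2.symm.trans hh)

theorem S2_perm (n : ℕ) (Ψ Ψ' : Pat (2 * n + 3) → MvPolynomial (Fin (2 * n + 3)) ℂ)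
    (h : PsiSpec q (n + 1) Ψ) (h' : PsiSpec (q ^ 2) (n + 1) Ψ') (x1 x2 y1 y2 : ℂ)
    (z : Fin (2 * n + 1) → ℂ) (π : Perm (Fin (2 * n + 1))) :
    S2 n Ψ Ψ' x1 x2 y1 y2 (z ∘ π) = S2 n Ψ Ψ' x1 x2 y1 y2 z := by
  have hcons : ∀ a b : ℂ, Continuous fun z : Fin (2 * n + 1) → ℂ =>
      (Fin.cons a (Fin.cons b z : Fin (2 * n + 2) → ℂ) : Fin (2 * n + 3) → ℂ) := by
    intro a b
    refine continuous_pi fun j => ?_
    refine Fin.cases ?_ (fun j => ?_) j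
    · exact continuous_const
    · refine Fin.cases ?_ (fun j => ?_) j
      · exact continuous_const
      · exact continuous_apply j
  have hc : Continuous fun z : Fin (2 * n + 1) → ℂ => S2 n Ψ Ψ' x1 x2 y1 y2 z := by
    unfold S2
    refine continuous_finsetSum _ fun σ _ => continuous_finsetSum _ fun τ _ => ?_
    exact ((continuous_const).mul ((MvPolynomial.continuous_eval (Ψ σ)).comp (hcons x1 x2))).mul
      ((MvPolynomial.continuous_eval (Ψ' τ)).comp (hcons y1 y2))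
  have hcπ : Continuous fun z : Fin (2 * n + 1) → ℂ => S2 n Ψ Ψ' x1 x2 y1 y2 (z ∘ π) := by
    have h1 : Continuous fun z : Fin (2 * n + 1) → ℂ => z ∘ π :=
      continuous_pi fun j => continuous_apply _
    exact hc.comp h1
  have key := dense_agree (Dsc (2 * n + 1)) (Dsc_ne _) _ _ hcπ hc (fun z hz => by
    refine sym_of_adj (N := 2 * n) (fun z => S2 n Ψ Ψ' x1 x2 y1 y2 z) (fun z hz i => ?_) z
      (Dsc_gn z hz) π
    exact S2_adj q hq n Ψ Ψ' h h' x1 x2 y1 y2 z i.val i.2 (hz.2 _ _ (by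
      intro he
      have := congrArg Fin.val he
      simp at this)))
  exact congrFun key z

end forms

end Pool.Agent.H988R3
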